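import Pool.Agent.Helper5.SumStep

set_option autoImplicit false

namespace Pool.Agent.Helper1

open Finset Pool.Agent.Helper5

/-- number of elements of `D` congruent to `x` modulo `Q` -/
noncomputable def nn (D : Finset ℤ) (Q : ℕ) (x : ℤ) : ℝ :=
  ((D.filter (fun d => (Q : ℤ) ∣ d - x)).card : ℝ)

lemma nn_nonneg (D : Finset ℤ) (Q : ℕ) (x : ℤ) : 0 ≤ nn D Q x := Nat.cast_nonneg _

lemma nn_mono (D : Finset ℤ) {Q Q' : ℕ} (h : Q ∣ Q') (x : ℤ) : nn D Q' x ≤ nn D Q x := by
  unfold nn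
  have : D.filter (fun d => (Q' : ℤ) ∣ d - x) ⊆ D.filter (fun d => (Q : ℤ) ∣ d - x) := by
    intro d hd
    rw [Finset.mem_filter] at hd ⊢
    exact ⟨hd.1, (Int.natCast_dvd_natCast.2 h).trans hd.2⟩
  exact_mod_cast Finset.card_le_card this

lemma bernoulli {y θ : ℝ} (hy0 : 0 ≤ y) (hθ0 : 0 ≤ θ) (hθ1 : θ ≤ 1) :
    y ^ θ + θ * (1 - y) ≤ 1 := by
  have := _root_.rpow_one_add_le_one_add_mul_self (s := y - 1) (p := θ) (by linarith) hθ0 hθ1
  have e : 1 + (y - 1) = y := by ring
  rw [e] at this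
  linarith

/-- one local factor -/
noncomputable def fac (θ : ℝ) (D : Finset ℤ) (x : ℤ) (Q p v : ℕ) : ℝ :=
  θ * (nn D (Q * p ^ v) x / nn D Q x) ^ θ * (1 - nn D (Q * p ^ (v + 1)) x / nn D (Q * p ^ v) x)

lemma fac_nonneg {θ : ℝ} (hθ0 : 0 < θ) (D : Finset ℤ) (x : ℤ) (Q p v : ℕ) :
    0 ≤ fac θ D x Q p v := by
  unfold fac
  have h1 : nn D (Q * p ^ (v + 1)) x ≤ nn D (Q * p ^ v) x :=
    nn_mono D (Nat.mul_dvd_mul_left _ (pow_dvd_pow p (Nat.le_succ v))) x
  have h2 : nn D (Q * p ^ (v + 1)) x / nn D (Q * p ^ v) x ≤ 1 :=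
    div_le_one_of_le₀ h1 (nn_nonneg _ _ _)
  have h3 : 0 ≤ (nn D (Q * p ^ v) x / nn D Q x) ^ θ :=
    Real.rpow_nonneg (div_nonneg (nn_nonneg _ _ _) (nn_nonneg _ _ _)) _
  exact mul_nonneg (mul_nonneg hθ0.le h3) (by linarith)

lemma fac_le {θ : ℝ} (hθ0 : 0 < θ) (hθ1 : θ ≤ 1) (D : Finset ℤ) (x : ℤ) (Q p v : ℕ) :
    fac θ D x Q p v ≤ (nn D (Q * p ^ v) x / nn D Q x) ^ θ
      - (nn D (Q * p ^ (v + 1)) x / nn D Q x) ^ θ := by
  unfold fac
  have h1 : nn D (Q * p ^ (v + 1)) x ≤ nn D (Q * p ^ v) x :=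
    nn_mono D (Nat.mul_dvd_mul_left _ (pow_dvd_pow p (Nat.le_succ v))) x
  rcases eq_or_lt_of_le (nn_nonneg D (Q * p ^ v) x) with h0 | h0
  · have h2 : nn D (Q * p ^ (v + 1)) x = 0 :=
      le_antisymm (by rw [← h0] at h1; exact h1) (nn_nonneg _ _ _)
    rw [← h0, h2]
    simp [Real.zero_rpow hθ0.ne']
  · have hy0 : 0 ≤ nn D (Q * p ^ (v + 1)) x / nn D (Q * p ^ v) x :=
      div_nonneg (nn_nonneg _ _ _) h0.le
    have hB := bernoulli hy0 hθ0.le hθ1
    have hz0 : 0 ≤ nn D (Q * p ^ v) x / nn D Q x := div_nonneg h0.le (nn_nonneg _ _ _)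
    have hsplit : nn D (Q * p ^ (v + 1)) x / nn D Q x =
        (nn D (Q * p ^ v) x / nn D Q x) * (nn D (Q * p ^ (v + 1)) x / nn D (Q * p ^ v) x) := by
      field_simp
    rw [hsplit, Real.mul_rpow hz0 hy0]
    have hz : 0 ≤ (nn D (Q * p ^ v) x / nn D Q x) ^ θ := Real.rpow_nonneg hz0 _
    nlinarith [mul_le_mul_of_nonneg_left hB hz]

lemma sum_fac_le {θ : ℝ} (hθ0 : 0 < θ) (hθ1 : θ ≤ 1) (D : Finset ℤ) (x : ℤ) (Q p : ℕ)
    (T : Finset ℕ) : ∑ v ∈ T, fac θ D x Q p v ≤ 1 := by
  obtain ⟨n, hn⟩ : ∃ n, T ⊆ Finset.range n := by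
    refine ⟨T.sup id + 1, fun v hv => ?_⟩
    rw [Finset.mem_range]
    exact Nat.lt_succ_of_le (Finset.le_sup (f := id) hv)
  calc ∑ v ∈ T, fac θ D x Q p v ≤ ∑ v ∈ Finset.range n, fac θ D x Q p v :=
        Finset.sum_le_sum_of_subset_of_nonneg hn (fun v _ _ => fac_nonneg hθ0 D x Q p v)
    _ ≤ ∑ v ∈ Finset.range n, ((nn D (Q * p ^ v) x / nn D Q x) ^ θ
      - (nn D (Q * p ^ (v + 1)) x / nn D Q x) ^ θ) :=
        Finset.sum_le_sum (fun v _ => fac_le hθ0 hθ1 D x Q p v)
    _ = (nn D (Q * p ^ 0) x / nn D Q x) ^ θ - (nn D (Q * p ^ n) x / nn D Q x) ^ θ :=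
        Finset.sum_range_sub' (fun v => (nn D (Q * p ^ v) x / nn D Q x) ^ θ) n
    _ ≤ (nn D (Q * p ^ 0) x / nn D Q x) ^ θ := by
        have : 0 ≤ (nn D (Q * p ^ n) x / nn D Q x) ^ θ :=
          Real.rpow_nonneg (div_nonneg (nn_nonneg _ _ _) (nn_nonneg _ _ _)) _
        linarith
    _ ≤ 1 := by
        rw [pow_zero, mul_one]
        apply Real.rpow_le_one (div_nonneg (nn_nonneg _ _ _) (nn_nonneg _ _ _)) _ hθ0.le
        exact div_self_le_one _

/-- the weight attached to a list of primes and a current modulus `Q` -/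
noncomputable def wt (θ : ℝ) (D : Finset ℤ) (x : ℤ) (u : ℕ) : List ℕ → ℕ → ℝ
  | [], _ => 1
  | p :: l, Q => fac θ D x Q p (u.factorization p) * wt θ D x u l (Q * p ^ u.factorization p)

lemma wt_nonneg {θ : ℝ} (hθ0 : 0 < θ) (D : Finset ℤ) (x : ℤ) (u : ℕ) (l : List ℕ) :
    ∀ Q, 0 ≤ wt θ D x u l Q := by
  induction l with
  | nil => intro Q; simp [wt]
  | cons p l ih =>
    intro Q
    simp only [wt]
    exact mul_nonneg (fac_nonneg hθ0 _ _ _ _ _) (ih _)

lemma sum_wt_le {θ : ℝ} (hθ0 : 0 < θ) (hθ1 : θ ≤ 1) (D : Finset ℤ) (x : ℤ) (l : List ℕ) :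
    ∀ (Q : ℕ) (V : Finset ℕ), (∀ u ∈ V, ∀ u' ∈ V,
      (∀ p ∈ l, u.factorization p = u'.factorization p) → u = u') →
      ∑ u ∈ V, wt θ D x u l Q ≤ 1 := by
  classical
  induction l with
  | nil =>
    intro Q V hV
    simp only [wt, Finset.sum_const, nsmul_eq_mul, mul_one]
    have : V.card ≤ 1 := Finset.card_le_one.2 (fun u hu u' hu' => hV u hu u' hu' (by simp))
    exact_mod_cast this
  | cons p l ih =>
    intro Q V hV
    simp only [wt]
    rw [← Finset.sum_fiberwise_of_maps_to (s := V) (t := V.image (fun u => u.factorization p))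
      (g := fun u => u.factorization p) (fun u hu => Finset.mem_image_of_mem _ hu)]
    calc ∑ v ∈ V.image (fun u => u.factorization p), ∑ u ∈ V.filter (fun u => u.factorization p = v),
          fac θ D x Q p (u.factorization p) * wt θ D x u l (Q * p ^ u.factorization p)
        ≤ ∑ v ∈ V.image (fun u => u.factorization p), fac θ D x Q p v := by
          apply Finset.sum_le_sum
          intro v _
          have h1 : ∑ u ∈ V.filter (fun u => u.factorization p = v),
              fac θ D x Q p (u.factorization p) * wt θ D x u l (Q * p ^ u.factorization p)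
              = fac θ D x Q p v * ∑ u ∈ V.filter (fun u => u.factorization p = v),
                wt θ D x u l (Q * p ^ v) := by
            rw [Finset.mul_sum]
            apply Finset.sum_congr rfl
            intro u hu
            rw [(Finset.mem_filter.1 hu).2]
          rw [h1]
          have h2 : ∑ u ∈ V.filter (fun u => u.factorization p = v),
                wt θ D x u l (Q * p ^ v) ≤ 1 := by
            apply ih
            intro u hu u' hu' h
            rw [Finset.mem_filter] at hu hu'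
            apply hV u hu.1 u' hu'.1
            intro p' hp'
            rcases List.mem_cons.1 hp' with rfl | hp'
            · rw [hu.2, hu'.2]
            · exact h p' hp'
          calc fac θ D x Q p v * ∑ u ∈ V.filter (fun u => u.factorization p = v),
                wt θ D x u l (Q * p ^ v) ≤ fac θ D x Q p v * 1 :=
                mul_le_mul_of_nonneg_left h2 (fac_nonneg hθ0 _ _ _ _ _)
            _ = _ := mul_one _
      _ ≤ 1 := sum_fac_le hθ0 hθ1 D x Q p _

/-- shifting the argument by a multiple of the modulus -/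
lemma nn_shift (D : Finset ℤ) (Q : ℕ) (d a : ℤ) (h : (Q : ℤ) ∣ a) : nn D Q (d + a) = nn D Q d := by
  unfold nn
  congr 2
  ext d'
  simp only [Finset.mem_filter, and_congr_right_iff]
  intro _
  have : d' - (d + a) = (d' - d) - a := by ring
  rw [this]
  exact dvd_sub_left h

lemma one_le_nn (D : Finset ℤ) (Q : ℕ) {d : ℤ} (hd : d ∈ D) : 1 ≤ nn D Q d := by
  unfold nn
  have : 0 < (D.filter (fun d' => (Q : ℤ) ∣ d' - d)).card :=
    Finset.card_pos.2 ⟨d, Finset.mem_filter.2 ⟨hd, by simp⟩⟩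
  exact_mod_cast this

/-- disjointness of two subclasses -/
lemma nn_add_le (D : Finset ℤ) {Q Q' : ℕ} (hQQ : Q ∣ Q') {a : ℤ} (hQ : (Q : ℤ) ∣ a)
    (hQ' : ¬ (Q' : ℤ) ∣ a) (d : ℤ) : nn D Q' d + nn D Q' (d + a) ≤ nn D Q d := by
  classical
  have h : (D.filter (fun d' => (Q' : ℤ) ∣ d' - d)).card
      + (D.filter (fun d' => (Q' : ℤ) ∣ d' - (d + a))).card
      ≤ (D.filter (fun d' => (Q : ℤ) ∣ d' - d)).card := by
    rw [← Finset.card_union_of_disjoint]
    · apply Finset.card_le_card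
      intro d' hd'
      rw [Finset.mem_union, Finset.mem_filter, Finset.mem_filter] at hd'
      rw [Finset.mem_filter]
      have hc : (Q : ℤ) ∣ (Q' : ℤ) := Int.natCast_dvd_natCast.2 hQQ
      rcases hd' with ⟨h1, h2⟩ | ⟨h1, h2⟩
      · exact ⟨h1, hc.trans h2⟩
      · refine ⟨h1, ?_⟩
        have h3 := dvd_add (hc.trans h2) hQ
        have : d' - (d + a) + a = d' - d := by ring
        rwa [this] at h3
    · rw [Finset.disjoint_left]
      intro d' h1 h2
      rw [Finset.mem_filter] at h1 h2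
      apply hQ'
      have := dvd_sub h1.2 h2.2
      have e : d' - d - (d' - (d + a)) = a := by ring
      rwa [e] at this
  unfold nn
  exact_mod_cast h

/-- the averaged ratio bound -/
lemma sum_ratio_le (D : Finset ℤ) (Q : ℕ) (a : ℤ) :
    ∑ d ∈ D, nn D Q (d + a) / nn D Q d ≤ D.card := by
  classical
  have h1 : ∀ d ∈ D, nn D Q (d + a) / nn D Q d =
      ∑ d' ∈ D, if (Q : ℤ) ∣ d' - (d + a) then 1 / nn D Q d else 0 := by
    intro d _
    rw [← Finset.sum_filter, Finset.sum_const, nsmul_eq_mul, mul_one_div]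
    rfl
  rw [Finset.sum_congr rfl h1, Finset.sum_comm]
  have h2 : ∀ d' ∈ D, ∑ d ∈ D, (if (Q : ℤ) ∣ d' - (d + a) then 1 / nn D Q d else 0) ≤ 1 := by
    intro d' _
    rw [← Finset.sum_filter]
    rcases (D.filter (fun d => (Q : ℤ) ∣ d' - (d + a))).eq_empty_or_nonempty with he | ⟨d0, hd0⟩
    · rw [he]; simp
    · have hd0' := (Finset.mem_filter.1 hd0).2
      have hset : D.filter (fun d => (Q : ℤ) ∣ d' - (d + a)) =
          D.filter (fun d => (Q : ℤ) ∣ d - d0) := by
        ext d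
        simp only [Finset.mem_filter, and_congr_right_iff]
        intro _
        constructor
        · intro h
          have := dvd_sub hd0' h
          have e : d' - (d0 + a) - (d' - (d + a)) = d - d0 := by ring
          rwa [e] at this
        · intro h
          have := dvd_sub hd0' h
          have e : d' - (d0 + a) - (d - d0) = d' - (d + a) := by ring
          rwa [e] at this
      rw [hset]
      have hconst : ∀ d ∈ D.filter (fun d => (Q : ℤ) ∣ d - d0), 1 / nn D Q d = 1 / nn D Q d0 := by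
        intro d hd
        have hd := (Finset.mem_filter.1 hd).2
        have : d = d0 + (d - d0) := by ring
        rw [this, nn_shift D Q d0 (d - d0) hd]
      rw [Finset.sum_congr rfl hconst, Finset.sum_const, nsmul_eq_mul]
      change nn D Q d0 * (1 / nn D Q d0) ≤ 1
      have hpos : 0 < nn D Q d0 := lt_of_lt_of_le one_pos (one_le_nn D Q (Finset.mem_filter.1 hd0).1)
      rw [mul_one_div, div_self hpos.ne']
  calc ∑ d' ∈ D, ∑ d ∈ D, (if (Q : ℤ) ∣ d' - (d + a) then 1 / nn D Q d else 0)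
      ≤ ∑ d' ∈ D, (1 : ℝ) := Finset.sum_le_sum h2
    _ = D.card := by simp

/-- pointwise cost of one factor -/
lemma neg_log_fac_le {θ : ℝ} (hθ0 : 0 < θ) (D : Finset ℤ) {d a : ℤ} (hd : d ∈ D) {Q p v : ℕ}
    (h1 : ((Q * p ^ v : ℕ) : ℤ) ∣ a) (h2 : ¬ ((Q * p ^ (v + 1) : ℕ) : ℤ) ∣ a) :
    0 < fac θ D (d + a) Q p v ∧ -Real.log (fac θ D (d + a) Q p v) ≤
      Real.log (1 / θ) + θ * (Real.log (nn D Q d) - Real.log (nn D (Q * p ^ v) d))
      + nn D (Q * p ^ (v + 1)) (d + a) / nn D (Q * p ^ (v + 1)) d := by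
  have hQa : (Q : ℤ) ∣ a := by
    refine dvd_trans ?_ h1
    rw [Nat.cast_mul]
    exact dvd_mul_right _ _
  have e1 : nn D (Q * p ^ v) (d + a) = nn D (Q * p ^ v) d := nn_shift _ _ _ _ h1
  have e2 : nn D Q (d + a) = nn D Q d := nn_shift _ _ _ _ hQa
  have hdis := nn_add_le D (Nat.mul_dvd_mul_left Q (pow_dvd_pow p (Nat.le_succ v))) h1 h2 d
  have hK : 1 ≤ nn D (Q * p ^ (v + 1)) d := one_le_nn D _ hd
  have hN0 : 1 ≤ nn D Q d := one_le_nn D _ hd
  have hN1 : 1 ≤ nn D (Q * p ^ v) d := one_le_nn D _ hd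
  have hplus : 0 ≤ nn D (Q * p ^ (v + 1)) (d + a) := nn_nonneg _ _ _
  set K := nn D (Q * p ^ (v + 1)) d
  set N1 := nn D (Q * p ^ v) d
  set N0 := nn D Q d
  set P := nn D (Q * p ^ (v + 1)) (d + a)
  have hfac : fac θ D (d + a) Q p v = θ * (N1 / N0) ^ θ * (1 - P / N1) := by
    unfold fac
    rw [e1, e2]
  have hpos1 : 0 < (N1 / N0) ^ θ := Real.rpow_pos_of_pos (by positivity) _
  have hpos2 : 0 < 1 - P / N1 := by
    rw [sub_pos, div_lt_one (by linarith)]
    linarith
  refine ⟨by rw [hfac]; positivity, ?_⟩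
  rw [hfac, Real.log_mul (by positivity) hpos2.ne', Real.log_mul hθ0.ne' hpos1.ne',
    Real.log_rpow (by positivity), Real.log_div (by positivity) (by positivity),
    Real.log_div one_ne_zero hθ0.ne', Real.log_one]
  have hlog : -Real.log (1 - P / N1) ≤ P / K := by
    have h3 : -Real.log (1 - P / N1) = Real.log ((1 - P / N1)⁻¹) := by rw [Real.log_inv]
    rw [h3]
    have h4 := Real.log_le_sub_one_of_pos (inv_pos.2 hpos2)
    refine h4.trans ?_
    have h5 : (1 - P / N1)⁻¹ - 1 = P / (N1 - P) := by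
      have hne : N1 - P ≠ 0 := by
        have : 0 < N1 - P := by linarith
        exact this.ne'
      have hN1' : N1 ≠ 0 := by positivity
      have : 1 - P / N1 = (N1 - P) / N1 := by field_simp
      rw [this, inv_div]
      field_simp
      ring
    rw [h5]
    exact div_le_div_of_nonneg_left hplus (by linarith) (by linarith)
  linarith

lemma wt_cost {θ : ℝ} (hθ0 : 0 < θ) (D : Finset ℤ) (u : ℕ) (a : ℤ) (ha : a ≠ 0) (l : List ℕ) :
    ∀ Q : ℕ, l.Nodup → (∀ p ∈ l, p.Prime) → (∀ p ∈ l, Nat.Coprime p Q) → (Q : ℤ) ∣ a →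
      (∀ p ∈ l, val p a = u.factorization p) →
      (∀ d ∈ D, 0 < wt θ D (d + a) u l Q) ∧
      -∑ d ∈ D, Real.log (wt θ D (d + a) u l Q) ≤
        D.card * (l.length * (Real.log (1 / θ) + 1)) + θ * ∑ d ∈ D, Real.log (nn D Q d) := by
  induction l with
  | nil =>
    intro Q _ _ _ _ _
    refine ⟨fun d _ => by simp [wt], ?_⟩
    simp only [wt, Real.log_one, Finset.sum_const_zero, neg_zero, List.length_nil, Nat.cast_zero,
      zero_mul, mul_zero, zero_add]
    apply mul_nonneg hθ0.le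
    exact Finset.sum_nonneg (fun d hd => Real.log_nonneg (one_le_nn D Q hd))
  | cons p l ih =>
    intro Q hnd hpr hco hQ hval
    have hp : p.Prime := hpr p (by simp)
    set v := u.factorization p with hv
    have hva : val p a = v := hval p (by simp)
    have hpv : (p : ℤ) ^ v ∣ a := (pow_dvd_iff_val hp ha v).2 hva.ge
    have hpv' : ¬ (p : ℤ) ^ (v + 1) ∣ a := by
      rw [pow_dvd_iff_val hp ha]; omega
    have hcoQ : IsCoprime (Q : ℤ) ((p : ℤ) ^ v) := by
      have h := (hco p (by simp)).symm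
      have h' : Nat.Coprime Q (p ^ v) := Nat.Coprime.pow_right v h
      have := Nat.isCoprime_iff_coprime.2 h'
      rwa [Nat.cast_pow] at this
    have h1 : ((Q * p ^ v : ℕ) : ℤ) ∣ a := by
      rw [Nat.cast_mul, Nat.cast_pow]
      exact hcoQ.mul_dvd hQ hpv
    have h2 : ¬ ((Q * p ^ (v + 1) : ℕ) : ℤ) ∣ a := by
      intro h
      apply hpv'
      refine dvd_trans ?_ h
      rw [Nat.cast_mul, Nat.cast_pow]
      exact dvd_mul_left _ _
    have hnd' := List.nodup_cons.1 hnd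
    obtain ⟨ihpos, ihcost⟩ := ih (Q * p ^ v) hnd'.2 (fun q hq => hpr q (by simp [hq]))
      (fun q hq => by
        have hq1 : Nat.Coprime q Q := hco q (by simp [hq])
        have hq2 : Nat.Coprime q (p ^ v) := by
          apply Nat.Coprime.pow_right
          rw [Nat.coprime_primes (hpr q (by simp [hq])) hp]
          rintro rfl
          exact hnd'.1 hq
        exact Nat.Coprime.mul_right hq1 hq2)
      h1 (fun q hq => hval q (by simp [hq]))
    have hf := fun d (hd : d ∈ D) => neg_log_fac_le hθ0 D hd h1 h2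
    refine ⟨fun d hd => ?_, ?_⟩
    · simp only [wt]
      rw [← hv]
      exact mul_pos (hf d hd).1 (ihpos d hd)
    · have hsum : -∑ d ∈ D, Real.log (wt θ D (d + a) u (p :: l) Q) =
          ∑ d ∈ D, -Real.log (fac θ D (d + a) Q p v)
          + -∑ d ∈ D, Real.log (wt θ D (d + a) u l (Q * p ^ v)) := by
        rw [← Finset.sum_neg_distrib, ← Finset.sum_neg_distrib, ← Finset.sum_add_distrib]
        apply Finset.sum_congr rfl
        intro d hd
        simp only [wt]
        rw [← hv, Real.log_mul (hf d hd).1.ne' (ihpos d hd).ne']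
        ring
      rw [hsum]
      have hA : ∑ d ∈ D, -Real.log (fac θ D (d + a) Q p v) ≤
          ∑ d ∈ D, (Real.log (1 / θ) + θ * (Real.log (nn D Q d) - Real.log (nn D (Q * p ^ v) d))
            + nn D (Q * p ^ (v + 1)) (d + a) / nn D (Q * p ^ (v + 1)) d) :=
        Finset.sum_le_sum (fun d hd => (hf d hd).2)
      have hB := sum_ratio_le D (Q * p ^ (v + 1)) a
      have hC : ∑ d ∈ D, (Real.log (1 / θ) + θ * (Real.log (nn D Q d)
            - Real.log (nn D (Q * p ^ v) d))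
            + nn D (Q * p ^ (v + 1)) (d + a) / nn D (Q * p ^ (v + 1)) d) =
          D.card * Real.log (1 / θ) + θ * (∑ d ∈ D, Real.log (nn D Q d))
            - θ * (∑ d ∈ D, Real.log (nn D (Q * p ^ v) d))
            + ∑ d ∈ D, nn D (Q * p ^ (v + 1)) (d + a) / nn D (Q * p ^ (v + 1)) d := by
        rw [Finset.sum_add_distrib, Finset.sum_add_distrib, Finset.sum_const, nsmul_eq_mul,
          ← Finset.mul_sum, Finset.sum_sub_distrib]
        ring
      rw [hC] at hA
      have hlen : ((p :: l).length : ℝ) = (l.length : ℝ) + 1 := by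
        simp
      rw [hlen]
      nlinarith [hA, hB, ihcost]

/-- Module DECU of Theorem E: decoding the `S`-unit part of `a` from `d + a`. -/
theorem decU (S : Finset ℕ) (hS : ∀ p ∈ S, p.Prime) (θ : ℝ) (hθ0 : 0 < θ) (hθ1 : θ ≤ 1)
    (D : Finset ℤ) (hD : D.Nonempty) :
    ∃ q : ℤ → ℕ → ℝ, (∀ x u, 0 ≤ q x u) ∧
      (∀ x, ∀ V : Finset ℕ, (∀ u ∈ V, u ≠ 0 ∧ u.primeFactors ⊆ S) → ∑ u ∈ V, q x u ≤ 1) ∧
      (∀ (u : ℕ) (a : ℤ), a ≠ 0 → (∀ p ∈ S, val p a = u.factorization p) →
        (∀ d ∈ D, 0 < q (d + a) u) ∧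
        -∑ d ∈ D, Real.log (q (d + a) u) ≤
          D.card * (θ * Real.log D.card + S.card * (Real.log (1 / θ) + 2))) := by
  refine ⟨fun x u => wt θ D x u S.toList 1, fun x u => wt_nonneg hθ0 D x u _ 1, ?_, ?_⟩
  · intro x V hV
    apply sum_wt_le hθ0 hθ1
    intro u hu u' hu' h
    apply Nat.eq_of_factorization_eq (hV u hu).1 (hV u' hu').1
    intro p
    by_cases hp : p ∈ S
    · exact h p (Finset.mem_toList.2 hp)
    · have h1 : p ∉ u.primeFactors := fun h => hp ((hV u hu).2 h)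
      have h2 : p ∉ u'.primeFactors := fun h => hp ((hV u' hu').2 h)
      rw [← Nat.support_factorization] at h1 h2
      rw [Finsupp.notMem_support_iff.1 h1, Finsupp.notMem_support_iff.1 h2]
  · intro u a ha hval
    obtain ⟨h1, h2⟩ := wt_cost hθ0 D u a ha S.toList 1 S.nodup_toList
      (fun p hp => hS p (Finset.mem_toList.1 hp)) (fun p _ => Nat.coprime_one_right p) (by simp)
      (fun p hp => hval p (Finset.mem_toList.1 hp))
    refine ⟨h1, h2.trans ?_⟩
    have hn1 : ∀ d ∈ D, Real.log (nn D 1 d) = Real.log D.card := by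
      intro d _
      unfold nn
      simp
    rw [Finset.sum_congr rfl hn1, Finset.sum_const, nsmul_eq_mul, Finset.length_toList]
    have hc : (0 : ℝ) ≤ D.card := Nat.cast_nonneg _
    have hs : (0 : ℝ) ≤ S.card := Nat.cast_nonneg _
    nlinarith [mul_nonneg hc hs]

end Pool.Agent.Helper1
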