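import Pool.Agent.Helper5.SumStep

set_option autoImplicit false

namespace Pool.Agent.Helper1

open Finset Pool.Agent.Helper5

/-- the elements of `K` with `q`-adic valuation `v` -/
def cls (K : Finset ℤ) (q v : ℕ) : Finset ℤ := K.filter (fun d => val q d = v)

lemma mem_cls {K : Finset ℤ} {q v : ℕ} {d : ℤ} : d ∈ cls K q v ↔ d ∈ K ∧ val q d = v := by
  unfold cls; rw [Finset.mem_filter]

lemma cls_subset (K : Finset ℤ) (q v : ℕ) : cls K q v ⊆ K := Finset.filter_subset _ _

/-- the weight of a pair `(d,b)` along a list of primes -/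
noncomputable def wq (d b : ℤ) : List ℕ → Finset ℤ → ℝ
  | [], _ => 1
  | q :: l, K => (if (q : ℤ) ∣ b then ((cls K q (val q d)).card : ℝ) / K.card else 1)
      * wq d b l (cls K q (val q d))

lemma wq_nonneg (d b : ℤ) (l : List ℕ) : ∀ K, 0 ≤ wq d b l K := by
  induction l with
  | nil => intro K; simp [wq]
  | cons q l ih =>
    intro K
    simp only [wq]
    refine mul_nonneg ?_ (ih _)
    split_ifs
    · positivity
    · exact zero_le_one

lemma sum_cls_le (K : Finset ℤ) (q : ℕ) (V : Finset ℕ) :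
    ∑ v ∈ V, ((cls K q v).card : ℝ) / K.card ≤ 1 := by
  classical
  rw [← Finset.sum_div]
  apply div_le_one_of_le₀ _ (Nat.cast_nonneg _)
  rw [← Nat.cast_sum]
  have : ∑ v ∈ V, (cls K q v).card ≤ K.card := by
    rw [← Finset.card_biUnion]
    · apply Finset.card_le_card
      intro d hd
      rw [Finset.mem_biUnion] at hd
      obtain ⟨v, _, hd⟩ := hd
      exact cls_subset _ _ _ hd
    · intro v _ v' _ hne
      rw [Function.onFun, Finset.disjoint_left]
      intro d h1 h2
      exact hne ((mem_cls.1 h1).2.symm.trans (mem_cls.1 h2).2)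
  exact_mod_cast this

/-- the kernel bound -/
lemma sum_wq_le (y : ℤ) (hy : y ≠ 0) (l : List ℕ) (hl : ∀ q ∈ l, q.Prime) :
    ∀ (K : Finset ℤ) (E : Finset (ℤ × ℤ)), (∀ e ∈ E, e.1 * e.2 = y) →
      (∀ e ∈ E, ∀ e' ∈ E, (∀ q ∈ l, val q e.1 = val q e'.1) → e = e') →
      ∑ e ∈ E, wq e.1 e.2 l K ≤ 2 ^ (l.filter (fun q : ℕ => (q : ℤ) ∣ y)).length := by
  classical
  induction l with
  | nil =>
    intro K E hE hinj
    simp only [wq, Finset.sum_const, nsmul_eq_mul, mul_one, List.filter_nil, List.length_nil,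
      pow_zero]
    have : E.card ≤ 1 := Finset.card_le_one.2 (fun e he e' he' => hinj e he e' he' (by simp))
    exact_mod_cast this
  | cons q l ih =>
    intro K E hE hinj
    have hq : q.Prime := hl q (by simp)
    have hl' : ∀ q ∈ l, q.Prime := fun q' h => hl q' (by simp [h])
    -- a subset with constant valuation
    have key : ∀ (F : Finset (ℤ × ℤ)), F ⊆ E → ∀ v : ℕ, (∀ e ∈ F, val q e.1 = v) →
        ∑ e ∈ F, wq e.1 e.2 l (cls K q v) ≤ 2 ^ (l.filter (fun q : ℕ => (q : ℤ) ∣ y)).length := by
      intro F hF v hv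
      apply ih hl' _ _ (fun e he => hE e (hF he))
      intro e he e' he' h
      apply hinj e (hF he) e' (hF he')
      intro q' hq'
      rcases List.mem_cons.1 hq' with rfl | hq'
      · rw [hv e he, hv e' he']
      · exact h q' hq'
    set M : ℝ := 2 ^ (l.filter (fun q : ℕ => (q : ℤ) ∣ y)).length with hM
    have hM0 : 0 < M := by positivity
    have hE0 : ∀ e ∈ E, e.1 ≠ 0 ∧ e.2 ≠ 0 := by
      intro e he
      have := hE e he
      constructor
      · rintro h; rw [h, zero_mul] at this; exact hy this.symm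
      · rintro h; rw [h, mul_zero] at this; exact hy this.symm
    -- the part with `q ∤ b`
    have hval0 : ∀ e ∈ E.filter (fun e => ¬ (q : ℤ) ∣ e.2), val q e.1 = val q y := by
      intro e he
      rw [Finset.mem_filter] at he
      have h1 := hE e he.1
      have h2 : val q e.2 = 0 := by
        by_contra h
        have : 1 ≤ val q e.2 := Nat.one_le_iff_ne_zero.2 h
        have := (pow_dvd_iff_val hq (hE0 e he.1).2 1).2 this
        rw [pow_one] at this
        exact he.2 this
      rw [← h1, val_mul (hE0 e he.1).1 (hE0 e he.1).2, h2, add_zero]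
    have part0 : ∑ e ∈ E.filter (fun e => ¬ (q : ℤ) ∣ e.2), wq e.1 e.2 (q :: l) K ≤ M := by
      have h1 : ∑ e ∈ E.filter (fun e => ¬ (q : ℤ) ∣ e.2), wq e.1 e.2 (q :: l) K =
          ∑ e ∈ E.filter (fun e => ¬ (q : ℤ) ∣ e.2), wq e.1 e.2 l (cls K q (val q y)) := by
        apply Finset.sum_congr rfl
        intro e he
        simp only [wq]
        rw [if_neg (Finset.mem_filter.1 he).2, one_mul, hval0 e he]
      rw [h1]
      exact key _ (Finset.filter_subset _ _) _ hval0
    by_cases hqy : (q : ℤ) ∣ y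
    · have part1 : ∑ e ∈ E.filter (fun e => (q : ℤ) ∣ e.2), wq e.1 e.2 (q :: l) K ≤ M := by
        set F := E.filter (fun e => (q : ℤ) ∣ e.2) with hF
        rw [← Finset.sum_fiberwise_of_maps_to (s := F) (t := F.image (fun e => val q e.1))
          (g := fun e => val q e.1) (fun e he => Finset.mem_image_of_mem _ he)]
        calc ∑ v ∈ F.image (fun e => val q e.1), ∑ e ∈ F.filter (fun e => val q e.1 = v),
              wq e.1 e.2 (q :: l) K
            ≤ ∑ v ∈ F.image (fun e => val q e.1), ((cls K q v).card : ℝ) / K.card * M := by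
              apply Finset.sum_le_sum
              intro v _
              have h1 : ∑ e ∈ F.filter (fun e => val q e.1 = v), wq e.1 e.2 (q :: l) K =
                  ((cls K q v).card : ℝ) / K.card *
                    ∑ e ∈ F.filter (fun e => val q e.1 = v), wq e.1 e.2 l (cls K q v) := by
                rw [Finset.mul_sum]
                apply Finset.sum_congr rfl
                intro e he
                rw [Finset.mem_filter, hF, Finset.mem_filter] at he
                simp only [wq]
                rw [if_pos he.1.2, he.2]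
              rw [h1]
              apply mul_le_mul_of_nonneg_left _ (by positivity)
              apply key _ _ _ (fun e he => (Finset.mem_filter.1 he).2)
              exact (Finset.filter_subset _ _).trans (Finset.filter_subset _ _)
          _ = (∑ v ∈ F.image (fun e => val q e.1), ((cls K q v).card : ℝ) / K.card) * M := by
              rw [Finset.sum_mul]
          _ ≤ 1 * M := mul_le_mul_of_nonneg_right (sum_cls_le K q _) hM0.le
          _ = M := one_mul _
      rw [List.filter_cons_of_pos (by simpa using hqy), List.length_cons, pow_succ, ← hM,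
        ← Finset.sum_filter_add_sum_filter_not E (fun e => (q : ℤ) ∣ e.2)]
      linarith
    · rw [List.filter_cons_of_neg (by simpa using hqy), ← hM]
      have : E.filter (fun e => ¬ (q : ℤ) ∣ e.2) = E := by
        apply Finset.filter_true_of_mem
        intro e he h
        apply hqy
        rw [← hE e he]
        exact dvd_mul_of_dvd_right h _
      rw [this] at part0
      exact part0

/-- the cost bound -/
lemma wq_cost (κ : ℝ) (A : Finset ℤ) (f : ℤ → ℤ) (d : ℤ) (l : List ℕ)
    (hκA : ∀ q ∈ l, ((A.filter (fun a => (q : ℤ) ∣ f a)).card : ℝ) ≤ κ * A.card) (hκ : 0 ≤ κ) :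
    ∀ K : Finset ℤ, d ∈ K → (∀ a ∈ A, 0 < wq d (f a) l K) ∧
      -∑ a ∈ A, Real.log (wq d (f a) l K) ≤ κ * A.card * Real.log K.card := by
  classical
  induction l with
  | nil =>
    intro K hd
    refine ⟨fun a _ => by simp [wq], ?_⟩
    simp only [wq, Real.log_one, Finset.sum_const_zero, neg_zero]
    have : 1 ≤ K.card := Finset.card_pos.2 ⟨d, hd⟩
    have h1 : 0 ≤ Real.log K.card := Real.log_nonneg (by exact_mod_cast this)
    positivity
  | cons q l ih =>
    intro K hd
    obtain ⟨ihpos, ihcost⟩ := ih (fun q hq => hκA q (by simp [hq])) (cls K q (val q d))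
      (mem_cls.2 ⟨hd, rfl⟩)
    have hK1 : 0 < (cls K q (val q d)).card := Finset.card_pos.2 ⟨d, mem_cls.2 ⟨hd, rfl⟩⟩
    have hK2 : (cls K q (val q d)).card ≤ K.card := Finset.card_le_card (cls_subset _ _ _)
    set K' := cls K q (val q d) with hK'
    have hk1 : (0 : ℝ) < K'.card := by exact_mod_cast hK1
    have hk2 : (K'.card : ℝ) ≤ K.card := by exact_mod_cast hK2
    have hk3 : (0 : ℝ) < K.card := lt_of_lt_of_le hk1 hk2
    refine ⟨fun a ha => ?_, ?_⟩
    · simp only [wq]
      rw [← hK']
      refine mul_pos ?_ (ihpos a ha)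
      split_ifs
      · positivity
      · exact zero_lt_one
    · have h1 : ∀ a ∈ A, Real.log (wq d (f a) (q :: l) K) =
          (if (q : ℤ) ∣ f a then Real.log K'.card - Real.log K.card else 0)
            + Real.log (wq d (f a) l K') := by
        intro a ha
        simp only [wq]
        rw [← hK']
        split_ifs with h
        · rw [Real.log_mul (by positivity) (ihpos a ha).ne', Real.log_div hk1.ne' hk3.ne']
        · rw [one_mul, zero_add]
      rw [Finset.sum_congr rfl h1, Finset.sum_add_distrib, ← Finset.sum_filter, Finset.sum_const,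
        nsmul_eq_mul]
      have h2 := hκA q (by simp)
      have h3 : Real.log K'.card ≤ Real.log K.card := Real.log_le_log hk1 hk2
      nlinarith [mul_le_mul_of_nonneg_right h2 (sub_nonneg.2 h3)]

/-- Module PROD of Theorem E: the product set is nearly as large as possible. -/
theorem prodB {P : Finset ℕ} (hP : ∀ p ∈ P, p.Prime) (κ R : ℝ) (hκ : 0 ≤ κ) (hR1 : 0 ≤ R)
    (W : ℕ) (A D : Finset ℤ) (_hAne : A.Nonempty) (_hDne : D.Nonempty) (hA : (0:ℤ) ∉ A)
    (hD : ∀ d ∈ D, d ≠ 0 ∧ ∀ p ∈ P, val p d = 0)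
    (hκA : ∀ q : ℕ, q.Prime → q ∉ P →
      ((A.filter (fun a => (q:ℤ) ∣ a)).card : ℝ) ≤ κ * A.card)
    (hR : ∀ b, ((A.filter (fun a => mP P a = b)).card : ℝ) ≤ R)
    (hW : ∀ d ∈ D, ∀ a ∈ A, (d * mP P a).natAbs.primeFactors.card ≤ W) :
    (D.card : ℝ) * A.card ≤ 2 * R * 2 ^ W * (D.card : ℝ) ^ κ *
      ((image₂ (· * ·) D (A.image (mP P))).card : ℝ) := by
  classical
  set B := A.image (mP P) with hB
  have hA0 : ∀ a ∈ A, a ≠ 0 := fun a ha h => hA (h ▸ ha)
  set Pr : Finset ℕ := (D ×ˢ A).biUnion (fun x => (x.1 * mP P x.2).natAbs.primeFactors) with hPr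
  set l := Pr.toList with hl
  have hlp : ∀ q ∈ l, q.Prime := by
    intro q hq
    rw [hl, Finset.mem_toList, hPr, Finset.mem_biUnion] at hq
    obtain ⟨x, _, hx⟩ := hq
    exact Nat.prime_of_mem_primeFactors hx
  have hκA' : ∀ q ∈ l, ((A.filter (fun a => (q : ℤ) ∣ mP P a)).card : ℝ) ≤ κ * A.card := by
    intro q hq
    have hqp := hlp q hq
    by_cases hqP : q ∈ P
    · have : A.filter (fun a => (q : ℤ) ∣ mP P a) = ∅ := by
        apply Finset.filter_false_of_mem
        intro a ha h
        have h1 := (pow_dvd_iff_val hqp (mP_ne_zero hP (hA0 a ha)) 1).1 (by rwa [pow_one])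
        rw [val_mP hP (hA0 a ha), if_pos hqP] at h1
        omega
      rw [this]
      simp only [Finset.card_empty, Nat.cast_zero]
      positivity
    · refine le_trans ?_ (hκA q hqp hqP)
      have : A.filter (fun a => (q : ℤ) ∣ mP P a) ⊆ A.filter (fun a => (q : ℤ) ∣ a) := by
        intro a ha
        rw [Finset.mem_filter] at ha ⊢
        refine ⟨ha.1, ?_⟩
        rw [← uP_mul_mP hP (hA0 a ha.1)]
        exact dvd_mul_of_dvd_right ha.2 _
      exact_mod_cast Finset.card_le_card this
  -- lower bound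
  have hlow : ∀ d ∈ D, (A.card : ℝ) * (D.card : ℝ) ^ (-κ) ≤ ∑ a ∈ A, wq d (mP P a) l D := by
    intro d hd
    obtain ⟨hpos, hcost⟩ := wq_cost κ A (mP P) d l hκA' hκ D hd
    have hDc : (0 : ℝ) < D.card := by exact_mod_cast Finset.card_pos.2 ⟨d, hd⟩
    set c := κ * Real.log D.card with hc
    have he : (D.card : ℝ) ^ (-κ) = Real.exp (-c) := by
      rw [Real.rpow_def_of_pos hDc, hc]
      ring_nf
    rw [he]
    have h1 : ∀ a ∈ A, Real.exp (-c) * (1 + (Real.log (wq d (mP P a) l D) + c)) ≤
        wq d (mP P a) l D := by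
      intro a ha
      have h2 := Real.add_one_le_exp (Real.log (wq d (mP P a) l D) + c)
      calc Real.exp (-c) * (1 + (Real.log (wq d (mP P a) l D) + c))
          ≤ Real.exp (-c) * Real.exp (Real.log (wq d (mP P a) l D) + c) := by
            apply mul_le_mul_of_nonneg_left _ (Real.exp_pos _).le
            linarith
        _ = Real.exp (Real.log (wq d (mP P a) l D)) := by
            rw [← Real.exp_add]; ring_nf
        _ = wq d (mP P a) l D := Real.exp_log (hpos a ha)
    calc (A.card : ℝ) * Real.exp (-c)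
        ≤ Real.exp (-c) * (A.card + (∑ a ∈ A, Real.log (wq d (mP P a) l D) + A.card * c)) := by
          have h3 : 0 ≤ ∑ a ∈ A, Real.log (wq d (mP P a) l D) + A.card * c := by
            rw [hc]; nlinarith [hcost]
          nlinarith [mul_nonneg (Real.exp_pos (-c)).le h3]
      _ = ∑ a ∈ A, Real.exp (-c) * (1 + (Real.log (wq d (mP P a) l D) + c)) := by
          rw [← Finset.mul_sum, Finset.sum_add_distrib, Finset.sum_add_distrib, Finset.sum_const,
            Finset.sum_const, nsmul_eq_mul, nsmul_eq_mul, mul_one]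
      _ ≤ _ := Finset.sum_le_sum h1
  -- upper bound
  set Y := image₂ (· * ·) D B with hY
  have hB0 : ∀ b ∈ B, b ≠ 0 := by
    intro b hb
    rw [hB, Finset.mem_image] at hb
    obtain ⟨a, ha, rfl⟩ := hb
    exact mP_ne_zero hP (hA0 a ha)
  have hker : ∀ y ∈ Y, ∑ e ∈ (D ×ˢ B).filter (fun e => e.1 * e.2 = y), wq e.1 e.2 l D ≤
      2 * 2 ^ W := by
    intro y hy
    rw [hY, Finset.mem_image₂] at hy
    obtain ⟨d0, hd0, b0, hb0, hy⟩ := hy
    have hy0 : y ≠ 0 := by rw [← hy]; exact mul_ne_zero (hD d0 hd0).1 (hB0 b0 hb0)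
    have hyW : (l.filter (fun q : ℕ => (q : ℤ) ∣ y)).length ≤ W := by
      rw [hB, Finset.mem_image] at hb0
      obtain ⟨a0, ha0, rfl⟩ := hb0
      refine le_trans ?_ (hW d0 hd0 a0 ha0)
      have hnd : (l.filter (fun q : ℕ => (q : ℤ) ∣ y)).Nodup := (Finset.nodup_toList Pr).filter _
      rw [← List.toFinset_card_of_nodup hnd]
      apply Finset.card_le_card
      intro q hq
      rw [List.mem_toFinset, List.mem_filter] at hq
      have hq2 : (q : ℤ) ∣ y := by simpa using hq.2
      rw [← hy] at hq2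
      rw [Nat.mem_primeFactors]
      refine ⟨hlp q hq.1, ?_, ?_⟩
      · exact Int.natCast_dvd.1 hq2
      · rw [Int.natAbs_ne_zero]
        exact mul_ne_zero (hD d0 hd0).1 (mP_ne_zero hP (hA0 a0 ha0))
    set E := (D ×ˢ B).filter (fun e => e.1 * e.2 = y) with hE
    have hEm : ∀ e ∈ E, e.1 ∈ D ∧ e.2 ∈ B ∧ e.1 * e.2 = y := by
      intro e he
      rw [hE, Finset.mem_filter, Finset.mem_product] at he
      exact ⟨he.1.1, he.1.2, he.2⟩
    -- injectivity up to sign
    have hinj : ∀ e ∈ E, ∀ e' ∈ E, (∀ q ∈ l, val q e.1 = val q e'.1) →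
        (0 < e.1 ↔ 0 < e'.1) → e = e' := by
      intro e he e' he' h hs
      obtain ⟨h1, h2, h3⟩ := hEm e he
      obtain ⟨h1', h2', h3'⟩ := hEm e' he'
      have hn : e.1.natAbs = e'.1.natAbs := by
        apply Nat.eq_of_factorization_eq (Int.natAbs_ne_zero.2 (hD _ h1).1)
          (Int.natAbs_ne_zero.2 (hD _ h1').1)
        intro q
        by_cases hq : q ∈ l
        · exact h q hq
        · have aux : ∀ g ∈ E, g.1.natAbs.factorization q = 0 := by
            intro g hg
            obtain ⟨g1, g2, g3⟩ := hEm g hg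
            rw [hB, Finset.mem_image] at g2
            obtain ⟨a, ha, hga⟩ := g2
            rw [← Finsupp.notMem_support_iff, Nat.support_factorization]
            intro hqg
            apply hq
            rw [hl, Finset.mem_toList, hPr, Finset.mem_biUnion]
            refine ⟨(g.1, a), Finset.mem_product.2 ⟨g1, ha⟩, ?_⟩
            rw [Nat.mem_primeFactors] at hqg ⊢
            refine ⟨hqg.1, ?_, ?_⟩
            · rw [Int.natAbs_mul]
              exact dvd_mul_of_dvd_left hqg.2.1 _
            · rw [Int.natAbs_ne_zero]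
              exact mul_ne_zero (hD _ g1).1 (mP_ne_zero hP (hA0 a ha))
          rw [aux e he, aux e' he']
      have hne := (hD _ h1).1
      have hne' := (hD _ h1').1
      have h11 : e.1 = e'.1 := by omega
      have h22 : e.2 = e'.2 := by
        have : e.1 * e.2 = e.1 * e'.2 := by rw [h3, h11, h3']
        exact mul_left_cancel₀ hne this
      exact Prod.ext h11 h22
    have hp1 : ∑ e ∈ E.filter (fun e => 0 < e.1), wq e.1 e.2 l D ≤ 2 ^ W := by
      refine le_trans (sum_wq_le y hy0 l hlp D _
        (fun e he => (hEm e (Finset.mem_filter.1 he).1).2.2) ?_)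
        (pow_le_pow_right₀ (by norm_num) hyW)
      intro e he e' he' h
      rw [Finset.mem_filter] at he he'
      exact hinj e he.1 e' he'.1 h (by simp [he.2, he'.2])
    have hp2 : ∑ e ∈ E.filter (fun e => ¬ 0 < e.1), wq e.1 e.2 l D ≤ 2 ^ W := by
      refine le_trans (sum_wq_le y hy0 l hlp D _
        (fun e he => (hEm e (Finset.mem_filter.1 he).1).2.2) ?_)
        (pow_le_pow_right₀ (by norm_num) hyW)
      intro e he e' he' h
      rw [Finset.mem_filter] at he he'
      exact hinj e he.1 e' he'.1 h (by simp only [he.2, he'.2])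
    rw [← Finset.sum_filter_add_sum_filter_not E (fun e => 0 < e.1)]
    linarith
  have hup : ∑ d ∈ D, ∑ a ∈ A, wq d (mP P a) l D ≤ R * (Y.card * (2 * 2 ^ W)) := by
    have h1 : ∀ d ∈ D, ∑ a ∈ A, wq d (mP P a) l D ≤ R * ∑ b ∈ B, wq d b l D := by
      intro d _
      rw [← Finset.sum_fiberwise_of_maps_to (s := A) (t := B) (g := mP P)
        (fun a ha => Finset.mem_image_of_mem _ ha), Finset.mul_sum]
      apply Finset.sum_le_sum
      intro b _
      have : ∑ a ∈ A.filter (fun a => mP P a = b), wq d (mP P a) l D =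
          ((A.filter (fun a => mP P a = b)).card : ℝ) * wq d b l D := by
        rw [← nsmul_eq_mul, ← Finset.sum_const]
        apply Finset.sum_congr rfl
        intro a ha
        rw [(Finset.mem_filter.1 ha).2]
      rw [this]
      exact mul_le_mul_of_nonneg_right (hR b) (wq_nonneg _ _ _ _)
    calc ∑ d ∈ D, ∑ a ∈ A, wq d (mP P a) l D ≤ ∑ d ∈ D, R * ∑ b ∈ B, wq d b l D :=
          Finset.sum_le_sum h1
      _ = R * ∑ e ∈ D ×ˢ B, wq e.1 e.2 l D := by
          rw [← Finset.mul_sum, Finset.sum_product]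
      _ = R * ∑ y ∈ Y, ∑ e ∈ (D ×ˢ B).filter (fun e => e.1 * e.2 = y), wq e.1 e.2 l D := by
          rw [Finset.sum_fiberwise_of_maps_to]
          intro e he
          rw [Finset.mem_product] at he
          exact Finset.mem_image₂_of_mem he.1 he.2
      _ ≤ R * ∑ y ∈ Y, (2 * 2 ^ W : ℝ) :=
          mul_le_mul_of_nonneg_left (Finset.sum_le_sum hker) hR1
      _ = R * (Y.card * (2 * 2 ^ W)) := by rw [Finset.sum_const, nsmul_eq_mul]
  have hlow' : (D.card : ℝ) * (A.card * (D.card : ℝ) ^ (-κ)) ≤
      ∑ d ∈ D, ∑ a ∈ A, wq d (mP P a) l D := by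
    rw [← nsmul_eq_mul, ← Finset.sum_const]
    exact Finset.sum_le_sum hlow
  have hfin := hlow'.trans hup
  have hDc : (0 : ℝ) < D.card := by exact_mod_cast Finset.card_pos.2 _hDne
  have hk : (0 : ℝ) < (D.card : ℝ) ^ κ := Real.rpow_pos_of_pos hDc _
  rw [Real.rpow_neg hDc.le] at hfin
  have e1 : (D.card : ℝ) * A.card =
      (D.card : ℝ) * (A.card * ((D.card : ℝ) ^ κ)⁻¹) * (D.card : ℝ) ^ κ := by
    field_simp
  rw [e1]
  calc (D.card : ℝ) * (A.card * ((D.card : ℝ) ^ κ)⁻¹) * (D.card : ℝ) ^ κ
      ≤ R * (Y.card * (2 * 2 ^ W)) * (D.card : ℝ) ^ κ :=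
        mul_le_mul_of_nonneg_right hfin hk.le
    _ = 2 * R * 2 ^ W * (D.card : ℝ) ^ κ * Y.card := by ring

end Pool.Agent.Helper1
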