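import Pool.Agent.Helper1.EProd
import Pool.Agent.Helper5.Iterate

set_option autoImplicit false

namespace Pool.Agent.Helper1

open Finset Pool.Agent.Helper5

lemma uP_mul (P : Finset ℕ) {x y : ℤ} (hx : x ≠ 0) (hy : y ≠ 0) :
    uP P (x * y) = uP P x * uP P y := by
  unfold uP
  rw [← Finset.prod_mul_distrib]
  apply Finset.prod_congr rfl
  intro p _
  rw [val_mul hx hy, pow_add]

lemma mP_mul {P : Finset ℕ} (hP : ∀ p ∈ P, p.Prime) {x y : ℤ} (hx : x ≠ 0) (hy : y ≠ 0) :
    mP P (x * y) = mP P x * mP P y := by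
  have h1 := uP_mul_mP hP hx
  have h2 := uP_mul_mP hP hy
  have h3 := uP_mul_mP hP (mul_ne_zero hx hy)
  rw [uP_mul P hx hy] at h3
  have hpos : ((uP P x * uP P y : ℕ) : ℤ) ≠ 0 := by
    have := Nat.mul_pos (uP_pos hP x) (uP_pos hP y)
    exact_mod_cast this.ne'
  apply mul_left_cancel₀ hpos
  rw [h3, Nat.cast_mul]
  calc x * y = ((uP P x : ℤ) * mP P x) * ((uP P y : ℤ) * mP P y) := by rw [h1, h2]
    _ = _ := by ring

lemma pI_primeFactors {A : Finset ℤ} (hA : (0 : ℤ) ∉ A) {s : ℕ}
    (hω : ∀ a ∈ A, a.natAbs.primeFactors.card ≤ s) (j : ℕ) :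
    ∀ x ∈ pI A j, x.natAbs.primeFactors.card ≤ j * s := by
  classical
  induction j with
  | zero =>
    intro x hx
    simp only [pI, mem_singleton] at hx
    subst hx
    simp
  | succ j ih =>
    intro x hx
    simp only [pI, mem_image₂] at hx
    obtain ⟨y, hy, a, ha, rfl⟩ := hx
    have hy0 : y ≠ 0 := fun h => pI_ne_zero hA j (h ▸ hy)
    have ha0 : a ≠ 0 := fun h => hA (h ▸ ha)
    rw [Int.natAbs_mul, Nat.primeFactors_mul (Int.natAbs_ne_zero.2 hy0) (Int.natAbs_ne_zero.2 ha0)]
    calc _ ≤ y.natAbs.primeFactors.card + a.natAbs.primeFactors.card := card_union_le _ _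
      _ ≤ j * s + s := Nat.add_le_add (ih y hy) (hω a ha)
      _ = _ := by ring

lemma pI_nonempty {A : Finset ℤ} (hA : A.Nonempty) (j : ℕ) : (pI A j).Nonempty := by
  induction j with
  | zero => simp [pI]
  | succ j ih => exact Finset.Nonempty.image₂ ih hA

lemma pI_card (A : Finset ℤ) (j : ℕ) : (pI A j).card ≤ A.card ^ j := by
  induction j with
  | zero => simp [pI]
  | succ j ih =>
    simp only [pI, pow_succ]
    exact (card_image₂_le _ _ _).trans (Nat.mul_le_mul_right _ ih)

/-- Iteration of `prodB`. -/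
theorem prod_iter' {P : Finset ℕ} (hP : ∀ p ∈ P, p.Prime) {A : Finset ℤ} (hA : (0 : ℤ) ∉ A)
    (hAne : A.Nonempty) (κ R : ℝ) (hκ : 0 ≤ κ) (hR0 : 0 < R) (s k N : ℕ) (hAN : A.card ≤ N)
    (hω : ∀ a ∈ A, a.natAbs.primeFactors.card ≤ s)
    (hκA : ∀ q : ℕ, q.Prime → q ∉ P →
      ((A.filter (fun a => (q:ℤ) ∣ a)).card : ℝ) ≤ κ * A.card)
    (hR : ∀ b, ((A.filter (fun a => mP P a = b)).card : ℝ) ≤ R) :
    (k : ℝ) * (Real.log A.card - Real.log 2 - Real.log R - k * s * Real.log 2
      - κ * k * Real.log N) ≤ Real.log (pI A k).card := by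
  classical
  have hlogN : 0 ≤ Real.log N := Real.log_natCast_nonneg N
  have hAc : (0 : ℝ) < A.card := by exact_mod_cast Finset.card_pos.2 hAne
  have hNc : (A.card : ℝ) ≤ N := by exact_mod_cast hAN
  set c := Real.log A.card - Real.log 2 - Real.log R - k * s * Real.log 2
      - κ * k * Real.log N with hc
  let D : ℕ → Finset ℤ := fun j => (pI A j).image (mP P)
  have hDne : ∀ j, (D j).Nonempty := fun j => (pI_nonempty hAne j).image _
  have hDcard : ∀ j, Real.log (D j).card ≤ j * Real.log N := by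
    intro j
    have h1 : (D j).card ≤ N ^ j :=
      Finset.card_image_le.trans ((pI_card A j).trans (Nat.pow_le_pow_left hAN j))
    have h2 : (0 : ℝ) < (D j).card := by exact_mod_cast Finset.card_pos.2 (hDne j)
    calc Real.log (D j).card ≤ Real.log ((N : ℝ) ^ j) :=
          Real.log_le_log h2 (by exact_mod_cast h1)
      _ = j * Real.log N := Real.log_pow _ _
  have hDsucc : ∀ j, image₂ (· * ·) (D j) (A.image (mP P)) = D (j + 1) := by
    intro j
    ext y
    simp only [D, mem_image₂, mem_image, pI]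
    constructor
    · rintro ⟨_, ⟨x, hx, rfl⟩, _, ⟨a, ha, rfl⟩, rfl⟩
      refine ⟨x * a, ⟨x, hx, a, ha, rfl⟩, ?_⟩
      exact mP_mul hP (fun h => pI_ne_zero hA j (h ▸ hx)) (fun h => hA (h ▸ ha))
    · rintro ⟨_, ⟨x, hx, a, ha, rfl⟩, rfl⟩
      refine ⟨mP P x, ⟨x, hx, rfl⟩, mP P a, ⟨a, ha, rfl⟩, ?_⟩
      exact (mP_mul hP (fun h => pI_ne_zero hA j (h ▸ hx)) (fun h => hA (h ▸ ha))).symm
  have hstep : ∀ j, j + 1 ≤ k → Real.log (D j).card + c ≤ Real.log (D (j + 1)).card := by
    intro j hj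
    have hB := prodB hP κ R hκ hR0.le (k * s) A (D j) hAne (hDne j) hA (by
      intro d hd
      simp only [D, mem_image] at hd
      obtain ⟨x, hx, rfl⟩ := hd
      have hx0 : x ≠ 0 := fun h => pI_ne_zero hA j (h ▸ hx)
      refine ⟨mP_ne_zero hP hx0, fun p hp => ?_⟩
      rw [val_mP hP hx0, if_pos hp]) hκA hR (by
      intro d hd a ha
      simp only [D, mem_image] at hd
      obtain ⟨x, hx, rfl⟩ := hd
      have hx0 : x ≠ 0 := fun h => pI_ne_zero hA j (h ▸ hx)
      have ha0 : a ≠ 0 := fun h => hA (h ▸ ha)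
      rw [← mP_mul hP hx0 ha0]
      have hxa : x * a ∈ pI A (j + 1) := by
        simp only [pI]
        exact mem_image₂_of_mem hx ha
      have h1 := pI_primeFactors hA hω (j + 1) _ hxa
      have h2 : (mP P (x * a)).natAbs.primeFactors ⊆ (x * a).natAbs.primeFactors := by
        apply Nat.primeFactors_mono
        · apply Int.natAbs_dvd_natAbs.2
          exact Dvd.intro_left _ (uP_mul_mP hP (mul_ne_zero hx0 ha0))
        · exact Int.natAbs_ne_zero.2 (mul_ne_zero hx0 ha0)
      exact (Finset.card_le_card h2).trans (h1.trans (Nat.mul_le_mul_right _ hj)))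
    rw [hDsucc j] at hB
    have hD0 : (0 : ℝ) < (D j).card := by exact_mod_cast Finset.card_pos.2 (hDne j)
    have hD1 : (0 : ℝ) < (D (j + 1)).card := by exact_mod_cast Finset.card_pos.2 (hDne (j + 1))
    have hk0 : (0 : ℝ) < ((D j).card : ℝ) ^ κ := Real.rpow_pos_of_pos hD0 _
    have hlog := Real.log_le_log (mul_pos hD0 hAc) hB
    rw [Real.log_mul hD0.ne' hAc.ne', Real.log_mul (by positivity) hD1.ne',
      Real.log_mul (by positivity) hk0.ne', Real.log_mul (by positivity) (by positivity),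
      Real.log_mul (by norm_num) hR0.ne', Real.log_pow, Real.log_rpow hD0] at hlog
    have h3 : κ * Real.log (D j).card ≤ κ * k * Real.log N := by
      have h4 := hDcard j
      have h5 : (j : ℝ) ≤ k := by exact_mod_cast (Nat.le_of_succ_le hj)
      have h6 : (j : ℝ) * Real.log N ≤ k * Real.log N := mul_le_mul_of_nonneg_right h5 hlogN
      rw [mul_assoc]
      exact mul_le_mul_of_nonneg_left (h4.trans h6) hκ
    push_cast at hlog
    rw [hc]
    linarith
  have hiter : ∀ j, j ≤ k → (j : ℝ) * c ≤ Real.log (D j).card := by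
    intro j
    induction j with
    | zero =>
      intro _
      have : 1 ≤ (D 0).card := Finset.card_pos.2 (hDne 0)
      have h1 : 0 ≤ Real.log (D 0).card := Real.log_natCast_nonneg _
      simpa using h1
    | succ j ih =>
      intro hj
      have h1 := ih (by omega)
      have h2 := hstep j hj
      push_cast
      linarith
  refine (hiter k le_rfl).trans ?_
  apply Real.log_le_log
  · exact_mod_cast Finset.card_pos.2 (hDne k)
  · exact_mod_cast Finset.card_image_le

end Pool.Agent.Helper1
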