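import Pool.Agent.Helper1.HadamardSym

/-! Coefficients at squarefree monomials. -/

set_option autoImplicit false

namespace Pool.Agent.Helper1.Hadamard

open Finset MvPowerSeries

/-- the squarefree monomial in the variables `v i`, `i ∈ S` -/
noncomputable def ind (v : ℕ → Var) (S : Finset ℕ) : Var →₀ ℕ := ∑ i ∈ S, Finsupp.single (v i) 1

lemma ind_apply_self {v : ℕ → Var} (hv : Function.Injective v) (S : Finset ℕ) (i : ℕ) :
    ind v S (v i) = if i ∈ S then 1 else 0 := by
  classical
  unfold ind
  rw [Finsupp.finsetSum_apply]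
  have : ∀ j ∈ S, (Finsupp.single (v j) 1 : Var →₀ ℕ) (v i) = if i = j then 1 else 0 := by
    intro j _
    rw [Finsupp.single_apply]
    by_cases h : i = j
    · simp [h]
    · rw [if_neg, if_neg h]
      intro h2; exact h (hv h2).symm
  rw [Finset.sum_congr rfl this]
  simp

lemma ind_apply_other {v : ℕ → Var} (S : Finset ℕ) (z : Var) (hz : ∀ i, v i ≠ z) :
    ind v S z = 0 := by
  classical
  unfold ind
  rw [Finsupp.finsetSum_apply]
  apply Finset.sum_eq_zero
  intro j _
  rw [Finsupp.single_apply, if_neg (hz j)]

/-- `G` has coefficient `g |S| |S'|` at the squarefree monomial with index sets `S`, `S'`. -/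
def Nice (v v' : ℕ → Var) (G : MvPowerSeries Var ℤ) (g : ℕ → ℕ → ℤ) : Prop :=
  ∀ S S' : Finset ℕ, coeff (ind v S + ind v' S') G = g S.card S'.card

lemma Nice.symm {v v' : ℕ → Var} {G : MvPowerSeries Var ℤ} {g : ℕ → ℕ → ℤ} (h : Nice v v' G g) :
    Nice v' v G (fun a b => g b a) := by
  intro S S'
  rw [add_comm]
  exact h S' S

lemma nice_one {v v' : ℕ → Var} (hv : Function.Injective v) (hv' : Function.Injective v') :
    Nice v v' 1 (fun a b => if a = 0 ∧ b = 0 then 1 else 0) := by
  classical
  intro S S'
  rw [coeff_one]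
  congr 1
  apply propext
  constructor
  · intro h
    constructor
    · rw [Finset.card_eq_zero, Finset.eq_empty_iff_forall_notMem]
      intro i hi
      have := DFunLike.congr_fun h (v i)
      rw [Finsupp.add_apply, ind_apply_self hv, if_pos hi] at this
      simp at this
    · rw [Finset.card_eq_zero, Finset.eq_empty_iff_forall_notMem]
      intro i hi
      have := DFunLike.congr_fun h (v' i)
      rw [Finsupp.add_apply, ind_apply_self hv', if_pos hi] at this
      simp at this
  · rintro ⟨h1, h2⟩
    rw [Finset.card_eq_zero] at h1 h2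
    subst h1 h2
    simp [ind]

lemma Nice.elem_mul {v v' : ℕ → Var} (hv : Function.Injective v) (hd : ∀ i j, v i ≠ v' j)
    {G : MvPowerSeries Var ℤ} {g : ℕ → ℕ → ℤ} (h : Nice v v' G g) (r : ℕ) :
    Nice v v' (elemSym v r * G) (fun a b => (a.choose r : ℤ) * g (a - r) b) := by
  classical
  intro S S'
  rw [coeff_mul]
  let φ : Finset ℕ → (Var →₀ ℕ) × (Var →₀ ℕ) := fun A => (ind v A, ind v (S \ A) + ind v' S')
  have hφ : Set.InjOn φ (Finset.powersetCard r S : Finset (Finset ℕ)) := by
    intro A _ B _ hAB
    have h1 : ind v A = ind v B := (Prod.ext_iff.1 hAB).1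
    ext i
    have := DFunLike.congr_fun h1 (v i)
    rw [ind_apply_self hv, ind_apply_self hv] at this
    by_cases hi : i ∈ A <;> by_cases hi' : i ∈ B <;> simp [hi, hi'] at this ⊢
  have hsub : (Finset.powersetCard r S).image φ ⊆
      Finset.HasAntidiagonal.antidiagonal (ind v S + ind v' S') := by
    intro p hp
    rw [Finset.mem_image] at hp
    obtain ⟨A, hA, rfl⟩ := hp
    rw [Finset.mem_powersetCard] at hA
    rw [Finset.HasAntidiagonal.mem_antidiagonal]
    show ind v A + (ind v (S \ A) + ind v' S') = _
    rw [← add_assoc]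
    congr 1
    unfold ind
    rw [add_comm]
    exact Finset.sum_sdiff hA.1
  rw [← Finset.sum_subset hsub]
  · rw [Finset.sum_image hφ]
    have : ∀ A ∈ Finset.powersetCard r S,
        coeff (φ A).1 (elemSym v r) * coeff (φ A).2 G = g (S.card - r) S'.card := by
      intro A hA
      rw [Finset.mem_powersetCard] at hA
      rw [coeff_elemSym, if_pos, one_mul]
      · show coeff (ind v (S \ A) + ind v' S') G = _
        rw [h, Finset.card_sdiff_of_subset hA.1, hA.2]
      · exact ⟨A, by rw [hA.2], rfl⟩
    rw [Finset.sum_congr rfl this, Finset.sum_const, Finset.card_powersetCard, nsmul_eq_mul]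
  · intro p hp hp'
    rw [coeff_elemSym, if_neg, zero_mul]
    rintro ⟨A, hA, hpA⟩
    apply hp'
    rw [Finset.HasAntidiagonal.mem_antidiagonal] at hp
    have hpA' : p.1 = ind v A := hpA
    have hAS : A ⊆ S := by
      intro i hi
      have := DFunLike.congr_fun hp (v i)
      rw [Finsupp.add_apply, Finsupp.add_apply, hpA', ind_apply_self hv, if_pos hi,
        ind_apply_self hv, ind_apply_other S' (v i) (fun j hj => hd i j hj.symm)] at this
      by_contra hiS
      rw [if_neg hiS] at this
      omega
    rw [Finset.mem_image]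
    refine ⟨A, ?_, ?_⟩
    · rw [Finset.mem_powersetCard]
      exact ⟨hAS, by exact_mod_cast hA⟩
    · have h2 : p.2 = ind v (S \ A) + ind v' S' := by
        have h3 : ind v A + p.2 = ind v A + (ind v (S \ A) + ind v' S') := by
          rw [← hpA', hp, hpA', ← add_assoc]
          congr 1
          unfold ind
          rw [add_comm]
          exact (Finset.sum_sdiff hAS).symm
        exact add_left_cancel h3
      exact Prod.ext hpA'.symm h2.symm

lemma inl_ne_inr (i j : ℕ) : (Sum.inl i : Var) ≠ Sum.inr j := by simp

lemma inr_ne_inl (i j : ℕ) : (Sum.inr i : Var) ≠ Sum.inl j := by simp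

/-- the coefficient of a product of three elementary symmetric functions in `x` and three in `y`
at the squarefree monomial of degrees `a` in `x` and `b` in `y` -/
def cf (p q r s t u a b : ℕ) : ℤ :=
  (a.choose p : ℤ) * (((a - p).choose q : ℤ) * (((a - p - q).choose r : ℤ) *
    ((b.choose s : ℤ) * (((b - s).choose t : ℤ) * (((b - s - t).choose u : ℤ) *
      (if b - s - t - u = 0 ∧ a - p - q - r = 0 then 1 else 0))))))

lemma nice_six (p q r s t u : ℕ) :
    Nice Sum.inl Sum.inr (elemSym Sum.inl p * (elemSym Sum.inl q * (elemSym Sum.inl r *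
      (elemSym Sum.inr s * (elemSym Sum.inr t * (elemSym Sum.inr u * 1))))))
      (fun a b => cf p q r s t u a b) := by
  have h0 : Nice Sum.inr Sum.inl 1 (fun a b => if a = 0 ∧ b = 0 then 1 else 0) :=
    nice_one Sum.inr_injective Sum.inl_injective
  have h1 := ((((h0.elem_mul Sum.inr_injective inr_ne_inl u).elem_mul Sum.inr_injective
    inr_ne_inl t).elem_mul Sum.inr_injective inr_ne_inl s).symm)
  have h2 := ((h1.elem_mul Sum.inl_injective inl_ne_inr r).elem_mul Sum.inl_injective
    inl_ne_inr q).elem_mul Sum.inl_injective inl_ne_inr p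
  intro S S'
  rw [h2 S S']
  unfold cf
  simp only []

/-- the coefficient of the squarefree monomial in one term of the determinant -/
lemma coeff_term (p q r s t u : ℕ) (S S' : Finset ℕ) :
    coeff (ind Sum.inl S + ind Sum.inr S')
      ((elemSym Sum.inl p * elemSym Sum.inr s) * (elemSym Sum.inl q * elemSym Sum.inr t) *
        (elemSym Sum.inl r * elemSym Sum.inr u)) = cf p q r s t u S.card S'.card := by
  have h := nice_six p q r s t u S S'
  simp only [] at h
  rw [← h]
  congr 1
  ring

end Pool.Agent.Helper1.Hadamard
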