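import Mathlib

/-!
Multi-symmetric functions in two infinite alphabets, Jacobi-Trudi matrices, immanants.
-/

set_option autoImplicit false

namespace Pool.Agent.Helper1.Hadamard

open Finset MvPowerSeries

/-- The variables: `Sum.inl i` stands for `x_i` and `Sum.inr i` for `y_i` (`i = 0, 1, 2, …`). -/
abbrev Var := ℕ ⊕ ℕ

/-- The elementary symmetric function `e_k` in the variables `v 0, v 1, v 2, …`: the sum of the
squarefree monomials `∏_{i ∈ S} v i` over all sets `S` of exactly `k` indices. In particular it is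
`1` for `k = 0` and `0` for `k < 0`. -/
noncomputable def elemSym (v : ℕ → Var) (k : ℤ) : MvPowerSeries Var ℤ :=
  fun d => by
    classical
    exact if ∃ S : Finset ℕ, (S.card : ℤ) = k ∧ d = ∑ i ∈ S, Finsupp.single (v i) 1 then 1 else 0

/-- `lam 0 ≥ lam 1 ≥ …` is a partition of length at most `n` (rows are numbered from `0`). -/
def IsPart (n : ℕ) (lam : ℕ → ℕ) : Prop := Antitone lam ∧ ∀ i, n ≤ i → lam i = 0

/-- The Jacobi-Trudi matrix `(e_{lam_i - mu_j - i + j})` of size `n` in the variables `v`. -/
noncomputable def JT (n : ℕ) (v : ℕ → Var) (lam mu : ℕ → ℕ) :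
    Matrix (Fin n) (Fin n) (MvPowerSeries Var ℤ) :=
  fun i j => elemSym v ((lam i : ℤ) - (mu j : ℤ) - (i : ℤ) + (j : ℤ))

/-- The immanant of `M` for the function `f` on the symmetric group. -/
noncomputable def imm {n : ℕ} (f : Equiv.Perm (Fin n) → ℤ)
    (M : Matrix (Fin n) (Fin n) (MvPowerSeries Var ℤ)) : MvPowerSeries Var ℤ :=
  ∑ w : Equiv.Perm (Fin n), f w • ∏ i, M i (w i)

/-- The Hadamard product `JT_{lam/mu}(x) * JT_{nu/rho}(y)`. -/
noncomputable def hadJT (n : ℕ) (lam mu nu rho : ℕ → ℕ) :
    Matrix (Fin n) (Fin n) (MvPowerSeries Var ℤ) :=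
  Matrix.hadamard (JT n Sum.inl lam mu) (JT n Sum.inr nu rho)

/-- The exponents of the `x`-variables in the monomial `d`. -/
noncomputable def xPart (d : Var →₀ ℕ) : ℕ →₀ ℕ :=
  d.comapDomain Sum.inl Sum.inl_injective.injOn

/-- The exponents of the `y`-variables in the monomial `d`. -/
noncomputable def yPart (d : Var →₀ ℕ) : ℕ →₀ ℕ :=
  d.comapDomain Sum.inr Sum.inr_injective.injOn

/-- The multiset of the nonzero exponents, that is, the partition `α` such that the monomial with
exponents `d` occurs in `m_α`. -/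
noncomputable def type (d : ℕ →₀ ℕ) : Multiset ℕ := d.support.val.map d

/-- `F = ∑_{α, β} c α β • m_α(x) m_β(y)`: a monomial occurs in exactly one product
`m_α(x) m_β(y)` (with coefficient `1`), namely the one where `α` and `β` are the types of its
`x`-part and `y`-part. -/
def IsMonomialExpansion (F : MvPowerSeries Var ℤ) (c : Multiset ℕ → Multiset ℕ → ℤ) : Prop :=
  ∀ d : Var →₀ ℕ, MvPowerSeries.coeff d F = c (type (xPart d)) (type (yPart d))

end Pool.Agent.Helper1.Hadamard
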