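import Pool.Agent.Helper1.HadamardCoeff

/-! The negative coefficient. -/

set_option autoImplicit false

namespace Pool.Agent.Helper1.Hadamard

open Finset MvPowerSeries

/-- the partition with the given parts -/
def parts (l : List ℕ) : ℕ → ℕ := fun i => l.getD i 0

lemma elemSym_neg (v : ℕ → Var) {k : ℤ} (hk : k < 0) : elemSym v k = 0 := by
  classical
  ext d
  rw [coeff_elemSym, if_neg]
  · rfl
  · rintro ⟨S, hS, _⟩
    have : (0 : ℤ) ≤ S.card := Int.natCast_nonneg _
    omega

lemma elemSym_zero (v : ℕ → Var) : elemSym v 0 = 1 := by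
  classical
  ext d
  rw [coeff_elemSym, coeff_one]
  congr 1
  apply propext
  constructor
  · rintro ⟨S, hS, h⟩
    have : S = ∅ := by
      rw [← Finset.card_eq_zero]; exact_mod_cast hS
    rw [h, this]; simp
  · rintro rfl
    exact ⟨∅, by simp, by simp⟩

lemma imm_sign {n : ℕ} (M : Matrix (Fin n) (Fin n) (MvPowerSeries Var ℤ)) :
    imm (fun w => (Equiv.Perm.sign w : ℤ)) M = M.det := by
  unfold imm
  rw [← Matrix.det_transpose, Matrix.det_apply]
  apply Finset.sum_congr rfl
  intro w _
  rfl

lemma det_succ {n : ℕ} {lam mu nu rho : ℕ → ℕ} (h1 : lam n = 0) (h2 : mu n = 0) (h3 : nu n = 0)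
    (h4 : rho n = 0) :
    (hadJT (n + 1) lam mu nu rho).det = (hadJT n lam mu nu rho).det := by
  rw [Matrix.det_succ_row _ (Fin.last n), Finset.sum_eq_single (Fin.last n)]
  · have e1 : hadJT (n + 1) lam mu nu rho (Fin.last n) (Fin.last n) = 1 := by
      unfold hadJT JT
      rw [Matrix.hadamard_apply]
      simp only [Fin.val_last, h1, h2, h3, h4]
      have : ((0 : ℕ) : ℤ) - ((0 : ℕ) : ℤ) - (n : ℤ) + n = 0 := by push_cast; ring
      rw [this, elemSym_zero, elemSym_zero, one_mul]
    have e2 : (hadJT (n + 1) lam mu nu rho).submatrix (Fin.last n).succAbove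
        (Fin.last n).succAbove = hadJT n lam mu nu rho := by
      ext1 i j
      simp only [Matrix.submatrix_apply, Fin.succAbove_last]
      rfl
    rw [e1, e2, ← two_mul, pow_mul]
    simp
  · intro j _ hj
    have hjn : (j : ℕ) < n := by
      have := j.2
      have h : (j : ℕ) ≠ n := fun h => hj (Fin.ext h)
      omega
    have : hadJT (n + 1) lam mu nu rho (Fin.last n) j = 0 := by
      unfold hadJT JT
      rw [Matrix.hadamard_apply]
      simp only [Fin.val_last, h1]
      rw [elemSym_neg, zero_mul]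
      have : (0 : ℤ) ≤ mu j := Int.natCast_nonneg _
      have : ((j : ℕ) : ℤ) < n := by exact_mod_cast hjn
      push_cast
      omega
    rw [this]
    simp
  · intro h
    exact absurd (Finset.mem_univ _) h

lemma det_stable {lam mu nu rho : ℕ → ℕ} (h : ∀ i, 3 ≤ i → lam i = 0 ∧ mu i = 0 ∧ nu i = 0 ∧
    rho i = 0) (k : ℕ) :
    (hadJT (3 + k) lam mu nu rho).det = (hadJT 3 lam mu nu rho).det := by
  induction k with
  | zero => rfl
  | succ k ih =>
    obtain ⟨h1, h2, h3, h4⟩ := h (3 + k) (by omega)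
    rw [← ih, ← det_succ h1 h2 h3 h4]
    rfl

lemma isPart_parts3 {n : ℕ} (hn : 3 ≤ n) {a b c : ℕ} (h1 : b ≤ a) (h2 : c ≤ b) :
    IsPart n (parts [a, b, c]) := by
  constructor
  · apply antitone_nat_of_succ_le
    intro i
    rcases i with _ | _ | _ | i
    · exact h1
    · exact h2
    · exact Nat.zero_le _
    · exact Nat.zero_le _
  · intro i hi
    obtain ⟨j, rfl⟩ : ∃ j, i = j + 3 := ⟨i - 3, by omega⟩
    rfl

/-- the six terms of the determinant -/
lemma coeff_det_three (S S' : Finset ℕ) :
    coeff (ind Sum.inl S + ind Sum.inr S')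
      (hadJT 3 (parts [17, 17, 15]) (parts [2, 0, 0]) (parts [17, 15, 15]) (parts [2, 2, 0])).det
      = cf 15 17 15 15 13 15 S.card S'.card - cf 15 18 14 15 16 12 S.card S'.card
        - cf 18 14 15 16 12 15 S.card S'.card + cf 18 18 11 16 16 11 S.card S'.card
        + cf 19 14 14 19 12 12 S.card S'.card - cf 19 17 11 19 13 11 S.card S'.card := by
  rw [Matrix.det_fin_three]
  have E : ∀ i j : Fin 3, hadJT 3 (parts [17, 17, 15]) (parts [2, 0, 0]) (parts [17, 15, 15])
      (parts [2, 2, 0]) i j =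
      elemSym Sum.inl ((parts [17, 17, 15] i : ℤ) - (parts [2, 0, 0] j : ℤ) - (i : ℤ) + (j : ℤ)) *
      elemSym Sum.inr ((parts [17, 15, 15] i : ℤ) - (parts [2, 2, 0] j : ℤ) - (i : ℤ) + (j : ℤ)) :=
    fun i j => rfl
  have E00 := E 0 0
  have E01 := E 0 1
  have E02 := E 0 2
  have E10 := E 1 0
  have E11 := E 1 1
  have E12 := E 1 2
  have E20 := E 2 0
  have E21 := E 2 1
  have E22 := E 2 2
  norm_num [parts] at E00 E01 E02 E10 E11 E12 E20 E21 E22
  rw [E00, E01, E02, E10, E11, E12, E20, E21, E22]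
  have c1 := coeff_term 15 17 15 15 13 15 S S'
  have c2 := coeff_term 15 18 14 15 16 12 S S'
  have c3 := coeff_term 18 14 15 16 12 15 S S'
  have c4 := coeff_term 18 18 11 16 16 11 S S'
  have c5 := coeff_term 19 14 14 19 12 12 S S'
  have c6 := coeff_term 19 17 11 19 13 11 S S'
  rw [← c1, ← c2, ← c3, ← c4, ← c5, ← c6]
  simp only [← map_add, ← map_sub]
  simp only [Nat.cast_ofNat]

lemma cf_sum_neg : cf 15 17 15 15 13 15 47 43 - cf 15 18 14 15 16 12 47 43
        - cf 18 14 15 16 12 15 47 43 + cf 18 18 11 16 16 11 47 43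
        + cf 19 14 14 19 12 12 47 43 - cf 19 17 11 19 13 11 47 43
        = -1611163779164739093850254117352672200 := by
  decide +kernel

lemma type_ind {v : ℕ → Var} (hv : Function.Injective v) {d : ℕ →₀ ℕ} {S : Finset ℕ}
    (hd : ∀ i, d i = if i ∈ S then 1 else 0) : type d = Multiset.replicate S.card 1 := by
  classical
  have hs : d.support = S := by
    ext i
    rw [Finsupp.mem_support_iff, hd]
    by_cases h : i ∈ S <;> simp [h]
  unfold type
  rw [hs, Multiset.eq_replicate]
  constructor
  · rw [Multiset.card_map, Finset.card_val]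
  · intro b hb
    rw [Multiset.mem_map] at hb
    obtain ⟨i, hi, rfl⟩ := hb
    rw [hd, if_pos (by simpa using hi)]

lemma type_xPart (S S' : Finset ℕ) :
    type (xPart (ind Sum.inl S + ind Sum.inr S')) = Multiset.replicate S.card 1 := by
  classical
  apply type_ind Sum.inl_injective
  intro i
  show (ind Sum.inl S + ind Sum.inr S') (Sum.inl i) = _
  rw [Finsupp.add_apply, ind_apply_self Sum.inl_injective, ind_apply_other S' _ (by simp),
    add_zero]

lemma type_yPart (S S' : Finset ℕ) :
    type (yPart (ind Sum.inl S + ind Sum.inr S')) = Multiset.replicate S'.card 1 := by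
  classical
  apply type_ind Sum.inr_injective
  intro i
  show (ind Sum.inl S + ind Sum.inr S') (Sum.inr i) = _
  rw [Finsupp.add_apply, ind_apply_self Sum.inr_injective, ind_apply_other S _ (by simp),
    zero_add]

/-- The coefficient of `m_{1^47}(x) m_{1^43}(y)` in the determinant of
`JT_{(17,17,15)/(2)}(x) * JT_{(17,15,15)/(2,2)}(y)`. -/
theorem coeff_det {n : ℕ} (hn : 3 ≤ n) (c : Multiset ℕ → Multiset ℕ → ℤ)
    (hc : IsMonomialExpansion (imm (fun w : Equiv.Perm (Fin n) => (Equiv.Perm.sign w : ℤ))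
      (hadJT n (parts [17, 17, 15]) (parts [2, 0, 0]) (parts [17, 15, 15]) (parts [2, 2, 0]))) c) :
    c (Multiset.replicate 47 1) (Multiset.replicate 43 1) =
      -1611163779164739093850254117352672200 := by
  obtain ⟨k, rfl⟩ := Nat.exists_eq_add_of_le hn
  have h1 := hc (ind Sum.inl (Finset.range 47) + ind Sum.inr (Finset.range 43))
  rw [type_xPart, type_yPart, Finset.card_range, Finset.card_range, imm_sign, det_stable,
    coeff_det_three, Finset.card_range, Finset.card_range, cf_sum_neg] at h1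
  · exact h1.symm
  · intro i hi
    obtain ⟨j, rfl⟩ : ∃ j, i = j + 3 := ⟨i - 3, by omega⟩
    exact ⟨rfl, rfl, rfl, rfl⟩

end Pool.Agent.Helper1.Hadamard
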