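import Pool.Agent.Helper1.HadamardMain

/-! Monomial characters of the symmetric group and the sign. -/

set_option autoImplicit false

namespace Pool.Agent.Helper1.Hadamard

open Finset

/-- `φ η w = ⟨m_η, p_{τ(w)}⟩` for all `η ⊢ n` and `w ∈ S_n`, where `τ(w)` is the cycle type. Since
the `h_η` are dual to the `m_η` for the Hall inner product, this says that
`p_{τ(w)} = ∑_η φ η w • h_η` for every `w`; for symmetric functions of degree `n` it is enough to
have this in `n` variables. -/
def IsMonomialCharacters (n : ℕ)
    (φ : (Fintype.card (Fin n)).Partition → Equiv.Perm (Fin n) → ℤ) : Prop :=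
  ∀ w : Equiv.Perm (Fin n), MvPolynomial.psumPart (Fin n) ℤ w.partition =
    ∑ η, φ η w • MvPolynomial.hsymmPart (Fin n) ℤ η

end Pool.Agent.Helper1.Hadamard
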