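import Pool.Agent.Helper1.HadamardMono

/-! The monomial character for `(1,1,1)` is the sign. -/

set_option autoImplicit false

namespace Pool.Agent.Helper1.Hadamard

open Finset MvPolynomial

lemma univ2 : (Finset.univ : Finset (Sym (Fin 3) 2)) =
    {⟨{0,0}, rfl⟩, ⟨{0,1}, rfl⟩, ⟨{0,2}, rfl⟩, ⟨{1,1}, rfl⟩, ⟨{1,2}, rfl⟩, ⟨{2,2}, rfl⟩} := by
  decide

lemma univ3 : (Finset.univ : Finset (Sym (Fin 3) 3)) =
    {⟨{0,0,0}, rfl⟩, ⟨{0,0,1}, rfl⟩, ⟨{0,0,2}, rfl⟩, ⟨{0,1,1}, rfl⟩, ⟨{0,1,2}, rfl⟩,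
      ⟨{0,2,2}, rfl⟩, ⟨{1,1,1}, rfl⟩, ⟨{1,1,2}, rfl⟩, ⟨{1,2,2}, rfl⟩, ⟨{2,2,2}, rfl⟩} := by
  decide

lemma hsymm2 {R : Type*} [CommRing R] [Algebra ℤ R] (z : Fin 3 → R) : aeval z (hsymm (Fin 3) ℤ 2) =
    z 0 * z 0 + z 0 * z 1 + z 0 * z 2 + z 1 * z 1 + z 1 * z 2 + z 2 * z 2 := by
  unfold hsymm
  rw [univ2]
  repeat rw [Finset.sum_insert (by decide)]
  rw [Finset.sum_singleton]
  simp
  ring

lemma hsymm3 {R : Type*} [CommRing R] [Algebra ℤ R] (z : Fin 3 → R) : aeval z (hsymm (Fin 3) ℤ 3) =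
    z 0 * z 0 * z 0 + z 0 * z 0 * z 1 + z 0 * z 0 * z 2 + z 0 * z 1 * z 1 + z 0 * z 1 * z 2
      + z 0 * z 2 * z 2 + z 1 * z 1 * z 1 + z 1 * z 1 * z 2 + z 1 * z 2 * z 2
      + z 2 * z 2 * z 2 := by
  unfold hsymm
  rw [univ3]
  repeat rw [Finset.sum_insert (by decide)]
  rw [Finset.sum_singleton]
  simp
  ring

lemma hsymm1 {R : Type*} [CommRing R] [Algebra ℤ R] (z : Fin 3 → R) : aeval z (hsymm (Fin 3) ℤ 1) =
    z 0 + z 1 + z 2 := by
  rw [hsymm_one]
  simp [Fin.sum_univ_three]

lemma psumk {R : Type*} [CommRing R] [Algebra ℤ R] (z : Fin 3 → R) (k : ℕ) : aeval z (psum (Fin 3) ℤ k) =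
    z 0 ^ k + z 1 ^ k + z 2 ^ k := by
  unfold psum
  simp [Fin.sum_univ_three]

/-- parts of a partition of `3` -/
lemma parts_le (η : (Fintype.card (Fin 3)).Partition) {k : ℕ} (hk : k ∈ η.parts) :
    k = 1 ∨ k = 2 ∨ k = 3 := by
  have h1 := η.parts_pos hk
  have h2 : k ≤ 3 := by
    have := Multiset.single_le_sum (fun _ _ => Nat.zero_le _) k hk
    rw [η.parts_sum] at this
    simpa using this
  omega

lemma parts_eq_of_all_one (η : (Fintype.card (Fin 3)).Partition)
    (h : ∀ k ∈ η.parts, k = 1) : η.parts = Multiset.replicate 3 1 := by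
  have h1 : η.parts = Multiset.replicate (Multiset.card η.parts) 1 :=
    Multiset.eq_replicate_card.2 h
  have h2 := η.parts_sum
  rw [h1, Multiset.sum_replicate, smul_eq_mul, mul_one] at h2
  rw [h1, h2]
  rfl

lemma multiset_three (m : Multiset ℕ) (hpos : ∀ k ∈ m, 0 < k) (hsum : m.sum = 3) :
    m = {3} ∨ m = {1, 2} ∨ m = {1, 1, 1} := by
  have hcard : Multiset.card m ≤ 3 := by
    have := Multiset.card_nsmul_le_sum (s := m) (a := 1) (fun k hk => hpos k hk)
    rw [hsum] at this
    simpa using this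
  have h0 : Multiset.card m ≠ 0 := by
    intro h
    rw [Multiset.card_eq_zero] at h
    rw [h] at hsum
    simp at hsum
  rcases (by omega : Multiset.card m = 1 ∨ Multiset.card m = 2 ∨ Multiset.card m = 3)
    with h | h | h
  · obtain ⟨a, rfl⟩ := Multiset.card_eq_one.1 h
    rw [Multiset.sum_singleton] at hsum
    left; rw [hsum]
  · obtain ⟨a, b, rfl⟩ := Multiset.card_eq_two.1 h
    have ha := hpos a (by simp)
    have hb := hpos b (by simp)
    have hs : a + b = 3 := by simpa using hsum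
    right; left
    rcases (by omega : (a = 1 ∧ b = 2) ∨ (a = 2 ∧ b = 1)) with ⟨rfl, rfl⟩ | ⟨rfl, rfl⟩
    · rfl
    · exact Multiset.pair_comm 2 1
  · obtain ⟨a, b, c, rfl⟩ := Multiset.card_eq_three.1 h
    have ha := hpos a (by simp)
    have hb := hpos b (by simp)
    have hc := hpos c (by simp)
    have hs : a + b + c = 3 := by
      have := hsum
      simp at this
      omega
    right; right
    obtain ⟨rfl, rfl, rfl⟩ : a = 1 ∧ b = 1 ∧ c = 1 := by omega
    rfl

def eta3 : (Fintype.card (Fin 3)).Partition := ⟨{3}, by simp, by simp⟩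

def eta21 : (Fintype.card (Fin 3)).Partition := ⟨{1, 2}, by simp, by simp⟩

def eta111 : (Fintype.card (Fin 3)).Partition := ⟨{1, 1, 1}, by simp, by simp⟩

lemma partition_cases (η : (Fintype.card (Fin 3)).Partition) :
    η = eta3 ∨ η = eta21 ∨ η = eta111 := by
  rcases multiset_three η.parts (fun k hk => η.parts_pos hk)
    (by rw [η.parts_sum, Fintype.card_fin]) with h | h | h
  · left; exact Nat.Partition.ext h
  · right; left; exact Nat.Partition.ext h
  · right; right; exact Nat.Partition.ext h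

lemma univ_partition : (Finset.univ : Finset (Fintype.card (Fin 3)).Partition) =
    {eta3, eta21, eta111} := by
  ext η
  simp only [Finset.mem_univ, Finset.mem_insert, Finset.mem_singleton, true_iff]
  exact partition_cases η

lemma eta_ne : eta3 ≠ eta21 ∧ eta3 ≠ eta111 ∧ eta21 ≠ eta111 := by
  refine ⟨?_, ?_, ?_⟩
  · intro h
    have := congrArg (fun η => Multiset.card η.parts) h
    simp [eta3, eta21] at this
  · intro h
    have := congrArg (fun η => Multiset.card η.parts) h
    simp [eta3, eta111] at this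
  · intro h
    have := congrArg (fun η => Multiset.card η.parts) h
    simp [eta21, eta111] at this

lemma sum_partition {M : Type*} [AddCommMonoid M] (f : (Fintype.card (Fin 3)).Partition → M) :
    ∑ η, f η = f eta3 + (f eta21 + f eta111) := by
  obtain ⟨h1, h2, h3⟩ := eta_ne
  rw [univ_partition, Finset.sum_insert (by simp [h1, h2]), Finset.sum_insert (by simp [h3]),
    Finset.sum_singleton]

lemma hsymmPart_aeval {R : Type*} [CommRing R] [Algebra ℤ R] (z : Fin 3 → R) (m : Multiset ℕ)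
    (η : (Fintype.card (Fin 3)).Partition) (h : η.parts = m) :
    aeval z (hsymmPart (Fin 3) ℤ η) = (m.map (fun k => aeval z (hsymm (Fin 3) ℤ k))).prod := by
  unfold hsymmPart
  rw [h, map_multiset_prod, Multiset.map_map]
  rfl

lemma psumPart_aeval {R : Type*} [CommRing R] [Algebra ℤ R] (z : Fin 3 → R) (m : Multiset ℕ)
    (η : (Fintype.card (Fin 3)).Partition) (h : η.parts = m) :
    aeval z (psumPart (Fin 3) ℤ η) = (m.map (fun k => z 0 ^ k + z 1 ^ k + z 2 ^ k)).prod := by
  unfold psumPart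
  rw [h, map_multiset_prod, Multiset.map_map]
  congr 1
  apply Multiset.map_congr rfl
  intro k _
  exact psumk z k

/-- the sign in terms of the partition -/
lemma sign_eq (w : Equiv.Perm (Fin 3)) : (Equiv.Perm.sign w : ℤ) =
    if w.partition = eta21 then -1 else 1 := by
  have h1 : (Equiv.Perm.sign w : ℤ) = (-1) ^ (w.partition.parts.sum +
      Multiset.card w.partition.parts) := by
    rw [Equiv.Perm.sign_of_cycleType, Equiv.Perm.parts_partition]
    rw [Multiset.sum_add, Multiset.card_add, Multiset.sum_replicate, Multiset.card_replicate]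
    push_cast
    have : w.cycleType.sum + (Fintype.card (Fin 3) - w.support.card) • 1 +
        (Multiset.card w.cycleType + (Fintype.card (Fin 3) - w.support.card)) =
        (w.cycleType.sum + Multiset.card w.cycleType) +
          2 * (Fintype.card (Fin 3) - w.support.card) := by
      rw [smul_eq_mul, mul_one]; ring
    rw [this, pow_add _ _ (2 * _), pow_mul]
    simp
  obtain ⟨h2, h3, h4⟩ := eta_ne
  rw [h1]
  rcases partition_cases w.partition with h | h | h
  · rw [h, if_neg h2]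
    simp [eta3]
  · rw [h, if_pos rfl]
    simp [eta21]
  · rw [h, if_neg h4.symm]
    simp [eta111]

lemma phi_eq_sign (φ : (Fintype.card (Fin 3)).Partition → Equiv.Perm (Fin 3) → ℤ)
    (hφ : IsMonomialCharacters 3 φ) (w : Equiv.Perm (Fin 3)) :
    φ eta111 w = (Equiv.Perm.sign w : ℤ) := by
  let z : Fin 3 → ℂ := ![1, Complex.I, -Complex.I]
  have h := congrArg (aeval z) (hφ w)
  rw [map_sum, sum_partition] at h
  simp only [map_zsmul] at h
  have hI : Complex.I ^ 2 = -1 := Complex.I_sq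
  have z0 : z 0 = 1 := rfl
  have z1 : z 1 = Complex.I := rfl
  have z2 : z 2 = -Complex.I := rfl
  have e1 : aeval z (hsymm (Fin 3) ℤ 1) = 1 := by
    rw [hsymm1, z0, z1, z2]; ring
  have e2 : aeval z (hsymm (Fin 3) ℤ 2) = 0 := by
    rw [hsymm2, z0, z1, z2]; linear_combination hI
  have e3 : aeval z (hsymm (Fin 3) ℤ 3) = 0 := by
    rw [hsymm3, z0, z1, z2]; linear_combination hI
  rw [hsymmPart_aeval z {3} eta3 rfl, hsymmPart_aeval z {1, 2} eta21 rfl,
    hsymmPart_aeval z {1, 1, 1} eta111 rfl] at h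
  simp only [Multiset.map_singleton, Multiset.prod_singleton, e3, Multiset.insert_eq_cons,
    Multiset.map_cons, Multiset.prod_cons, e1, e2, mul_zero, smul_zero, zero_add, mul_one] at h
  rw [sign_eq]
  rcases partition_cases w.partition with hw | hw | hw
  · obtain ⟨h2, h3, h4⟩ := eta_ne
    rw [hw, psumPart_aeval z {3} eta3 rfl, z0, z1, z2] at h
    rw [hw, if_neg h2]
    simp only [Multiset.map_singleton, Multiset.prod_singleton] at h
    have : (1 : ℂ) ^ 3 + Complex.I ^ 3 + (-Complex.I) ^ 3 = 1 := by ring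
    rw [this] at h
    have h5 : ((φ eta111 w : ℤ) : ℂ) = 1 := by rw [h]; simp
    exact_mod_cast h5
  · rw [hw, psumPart_aeval z {1, 2} eta21 rfl, z0, z1, z2] at h
    rw [hw, if_pos rfl]
    simp only [Multiset.insert_eq_cons, Multiset.map_cons, Multiset.prod_cons,
      Multiset.map_singleton, Multiset.prod_singleton] at h
    have : ((1 : ℂ) ^ 1 + Complex.I ^ 1 + (-Complex.I) ^ 1) *
        ((1 : ℂ) ^ 2 + Complex.I ^ 2 + (-Complex.I) ^ 2) = -1 := by
      linear_combination 2 * hI
    rw [this] at h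
    have h5 : ((φ eta111 w : ℤ) : ℂ) = -1 := by rw [h]; simp
    exact_mod_cast h5
  · obtain ⟨h2, h3, h4⟩ := eta_ne
    rw [hw, psumPart_aeval z {1, 1, 1} eta111 rfl, z0, z1, z2] at h
    rw [hw, if_neg h4.symm]
    simp only [Multiset.insert_eq_cons, Multiset.map_cons, Multiset.prod_cons,
      Multiset.map_singleton, Multiset.prod_singleton] at h
    have : ((1 : ℂ) ^ 1 + Complex.I ^ 1 + (-Complex.I) ^ 1) *
        (((1 : ℂ) ^ 1 + Complex.I ^ 1 + (-Complex.I) ^ 1) *
        ((1 : ℂ) ^ 1 + Complex.I ^ 1 + (-Complex.I) ^ 1)) = 1 := by ring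
    rw [this] at h
    have h5 : ((φ eta111 w : ℤ) : ℂ) = 1 := by rw [h]; simp
    exact_mod_cast h5

lemma exists_phi : ∃ φ, IsMonomialCharacters 3 φ := by
  classical
  obtain ⟨h2, h3, h4⟩ := eta_ne
  refine ⟨fun η w => if η = eta111 then (if w.partition = eta21 then -1 else 1) else
    if η = eta21 then (if w.partition = eta3 then -3 else if w.partition = eta21 then 2 else 0)
    else (if w.partition = eta3 then 3 else 0), ?_⟩
  intro w
  have hid : ∀ p : MvPolynomial (Fin 3) ℤ, p = aeval (X : Fin 3 → MvPolynomial (Fin 3) ℤ) p :=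
    fun p => (aeval_X_left_apply p).symm
  rw [sum_partition]
  simp only [if_neg h3, if_neg h2, if_neg h4, if_true]
  rw [hid (hsymmPart (Fin 3) ℤ eta3), hid (hsymmPart (Fin 3) ℤ eta21),
    hid (hsymmPart (Fin 3) ℤ eta111), hid (psumPart (Fin 3) ℤ w.partition)]
  rw [hsymmPart_aeval _ {3} eta3 rfl, hsymmPart_aeval _ {1, 2} eta21 rfl,
    hsymmPart_aeval _ {1, 1, 1} eta111 rfl]
  simp only [Multiset.map_singleton, Multiset.prod_singleton, Multiset.insert_eq_cons,
    Multiset.map_cons, Multiset.prod_cons, hsymm1, hsymm2, hsymm3]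
  rcases partition_cases w.partition with hw | hw | hw
  · rw [hw, psumPart_aeval _ {3} eta3 rfl, if_pos rfl, if_pos rfl, if_neg h2]
    simp only [Multiset.map_singleton, Multiset.prod_singleton, zsmul_eq_mul]
    push_cast
    ring
  · rw [hw, psumPart_aeval _ {1, 2} eta21 rfl, if_neg h2.symm, if_neg h2.symm, if_pos rfl,
      if_pos rfl]
    simp only [Multiset.map_singleton, Multiset.prod_singleton, zsmul_eq_mul,
      Multiset.insert_eq_cons, Multiset.map_cons, Multiset.prod_cons]
    push_cast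
    ring
  · rw [hw, psumPart_aeval _ {1, 1, 1} eta111 rfl, if_neg h3.symm, if_neg h3.symm,
      if_neg h4.symm, if_neg h4.symm]
    simp only [Multiset.map_singleton, Multiset.prod_singleton, zsmul_eq_mul,
      Multiset.insert_eq_cons, Multiset.map_cons, Multiset.prod_cons]
    push_cast
    ring

end Pool.Agent.Helper1.Hadamard
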