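import Pool.Agent.Helper1.HadamardDefs

/-! Symmetric power series have an expansion in monomial symmetric functions. -/

set_option autoImplicit false

namespace Pool.Agent.Helper1.Hadamard

open Finset MvPowerSeries

/-- relabel the variables of a monomial -/
noncomputable def relabel (g h : Equiv.Perm ℕ) (d : Var →₀ ℕ) : Var →₀ ℕ :=
  d.equivMapDomain (Equiv.sumCongr g h)

lemma relabel_apply (g h : Equiv.Perm ℕ) (d : Var →₀ ℕ) (z : Var) :
    relabel g h d z = d ((Equiv.sumCongr g h).symm z) := rfl

lemma relabel_zero (g h : Equiv.Perm ℕ) : relabel g h 0 = 0 := by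
  ext z; rfl

lemma relabel_add (g h : Equiv.Perm ℕ) (d e : Var →₀ ℕ) :
    relabel g h (d + e) = relabel g h d + relabel g h e := by
  ext z; rfl

lemma relabel_inj (g h : Equiv.Perm ℕ) : Function.Injective (relabel g h) := by
  intro d e hde
  ext z
  have := DFunLike.congr_fun hde (Equiv.sumCongr g h z)
  simpa only [relabel_apply, Equiv.symm_apply_apply] using this

lemma relabel_symm (g h : Equiv.Perm ℕ) (d : Var →₀ ℕ) :
    relabel g h (relabel g.symm h.symm d) = d := by
  ext z
  simp only [relabel_apply]
  rcases z with z | z <;> simp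

/-- symmetric in `x` and in `y` -/
def IsSym (F : MvPowerSeries Var ℤ) : Prop :=
  ∀ (g h : Equiv.Perm ℕ) (d : Var →₀ ℕ), coeff (relabel g h d) F = coeff d F

lemma isSym_one : IsSym 1 := by
  classical
  intro g h d
  rw [coeff_one, coeff_one]
  by_cases hd : d = 0
  · rw [if_pos hd, hd, relabel_zero, if_pos rfl]
  · rw [if_neg hd, if_neg]
    intro h0
    apply hd
    apply relabel_inj g h
    rw [h0, relabel_zero]

lemma IsSym.add {F G : MvPowerSeries Var ℤ} (hF : IsSym F) (hG : IsSym G) : IsSym (F + G) := by
  intro g h d
  rw [map_add, map_add, hF g h d, hG g h d]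

lemma isSym_zero : IsSym 0 := by
  intro g h d
  rw [map_zero, map_zero]

lemma IsSym.zsmul {F : MvPowerSeries Var ℤ} (a : ℤ) (hF : IsSym F) : IsSym (a • F) := by
  intro g h d
  rw [map_zsmul, map_zsmul, hF g h d]

lemma IsSym.mul {F G : MvPowerSeries Var ℤ} (hF : IsSym F) (hG : IsSym G) : IsSym (F * G) := by
  classical
  intro g h d
  rw [coeff_mul, coeff_mul]
  symm
  refine Finset.sum_nbij' (fun p => (relabel g h p.1, relabel g h p.2))
    (fun p => (relabel g.symm h.symm p.1, relabel g.symm h.symm p.2)) ?_ ?_ ?_ ?_ ?_
  · intro p hp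
    rw [Finset.HasAntidiagonal.mem_antidiagonal] at hp ⊢
    simp only
    rw [← relabel_add, hp]
  · intro p hp
    rw [Finset.HasAntidiagonal.mem_antidiagonal] at hp ⊢
    simp only
    rw [← relabel_add, hp]
    have := relabel_symm g.symm h.symm d
    simpa using this
  · intro p _
    have h1 := relabel_symm g.symm h.symm p.1
    have h2 := relabel_symm g.symm h.symm p.2
    simp only [Equiv.symm_symm] at h1 h2
    simp only [h1, h2]
  · intro p _
    simp only [relabel_symm]
  · intro p _
    simp only [hF g h p.1, hG g h p.2]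

lemma isSym_sum {ι : Type*} (s : Finset ι) (F : ι → MvPowerSeries Var ℤ)
    (hF : ∀ i ∈ s, IsSym (F i)) : IsSym (∑ i ∈ s, F i) := by
  classical
  induction s using Finset.induction_on with
  | empty => simpa using isSym_zero
  | insert a s ha ih =>
    rw [Finset.sum_insert ha]
    exact (hF a (by simp)).add (ih (fun i hi => hF i (by simp [hi])))

lemma isSym_prod {ι : Type*} (s : Finset ι) (F : ι → MvPowerSeries Var ℤ)
    (hF : ∀ i ∈ s, IsSym (F i)) : IsSym (∏ i ∈ s, F i) := by
  classical
  induction s using Finset.induction_on with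
  | empty => simpa using isSym_one
  | insert a s ha ih =>
    rw [Finset.prod_insert ha]
    exact (hF a (by simp)).mul (ih (fun i hi => hF i (by simp [hi])))

lemma coeff_elemSym (v : ℕ → Var) (k : ℤ) (d : Var →₀ ℕ) [Decidable (∃ S : Finset ℕ,
    (S.card : ℤ) = k ∧ d = ∑ i ∈ S, Finsupp.single (v i) 1)] :
    coeff d (elemSym v k) = if ∃ S : Finset ℕ, (S.card : ℤ) = k ∧
      d = ∑ i ∈ S, Finsupp.single (v i) 1 then 1 else 0 := by
  show elemSym v k d = _
  unfold elemSym
  congr

lemma relabel_sum (g h : Equiv.Perm ℕ) (S : Finset ℕ) (v : ℕ → Var) :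
    relabel g h (∑ i ∈ S, Finsupp.single (v i) 1) =
      ∑ i ∈ S, Finsupp.single (Equiv.sumCongr g h (v i)) 1 := by
  classical
  induction S using Finset.induction_on with
  | empty => simp [relabel_zero]
  | insert a s ha ih =>
    rw [Finset.sum_insert ha, Finset.sum_insert ha, relabel_add, ih]
    congr 1
    unfold relabel
    rw [Finsupp.equivMapDomain_single]

lemma isSym_elemSym_inl (k : ℤ) : IsSym (elemSym Sum.inl k) := by
  classical
  have key : ∀ (g h : Equiv.Perm ℕ) (d : Var →₀ ℕ),
      (∃ S : Finset ℕ, (S.card : ℤ) = k ∧ d = ∑ i ∈ S, Finsupp.single (Sum.inl i : Var) 1) →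
      (∃ S : Finset ℕ, (S.card : ℤ) = k ∧
        relabel g h d = ∑ i ∈ S, Finsupp.single (Sum.inl i : Var) 1) := by
    rintro g h d ⟨S, hS, rfl⟩
    refine ⟨S.map g.toEmbedding, by rw [Finset.card_map, hS], ?_⟩
    rw [relabel_sum, Finset.sum_map]
    simp
  intro g h d
  rw [coeff_elemSym, coeff_elemSym]
  congr 1
  apply propext
  constructor
  · intro hd
    have := key g.symm h.symm _ hd
    have h2 := relabel_symm g.symm h.symm d
    simp only [Equiv.symm_symm] at h2
    rwa [h2] at this
  · exact key g h d

lemma isSym_elemSym_inr (k : ℤ) : IsSym (elemSym Sum.inr k) := by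
  classical
  have key : ∀ (g h : Equiv.Perm ℕ) (d : Var →₀ ℕ),
      (∃ S : Finset ℕ, (S.card : ℤ) = k ∧ d = ∑ i ∈ S, Finsupp.single (Sum.inr i : Var) 1) →
      (∃ S : Finset ℕ, (S.card : ℤ) = k ∧
        relabel g h d = ∑ i ∈ S, Finsupp.single (Sum.inr i : Var) 1) := by
    rintro g h d ⟨S, hS, rfl⟩
    refine ⟨S.map h.toEmbedding, by rw [Finset.card_map, hS], ?_⟩
    rw [relabel_sum, Finset.sum_map]
    simp
  intro g h d
  rw [coeff_elemSym, coeff_elemSym]
  congr 1
  apply propext
  constructor
  · intro hd
    have := key g.symm h.symm _ hd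
    have h2 := relabel_symm g.symm h.symm d
    simp only [Equiv.symm_symm] at h2
    rwa [h2] at this
  · exact key g h d

/-- immanants of Hadamard products of Jacobi-Trudi matrices are symmetric in `x` and in `y` -/
lemma isSym_imm (n : ℕ) (f : Equiv.Perm (Fin n) → ℤ) (lam mu nu rho : ℕ → ℕ) :
    IsSym (imm f (hadJT n lam mu nu rho)) := by
  unfold imm
  apply isSym_sum
  intro w _
  apply IsSym.zsmul
  apply isSym_prod
  intro i _
  unfold hadJT
  rw [Matrix.hadamard_apply]
  exact (isSym_elemSym_inl _).mul (isSym_elemSym_inr _)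

/-- two monomials of the same type differ by a permutation of the variables -/
lemma exists_perm {f f' : ℕ →₀ ℕ} (h : type f = type f') :
    ∃ g : Equiv.Perm ℕ, ∀ i, f' (g i) = f i := by
  classical
  have hfib : ∀ v : ℕ, Nonempty ({i // f i = v} ≃ {i // f' i = v}) := by
    intro v
    by_cases hv : v = 0
    · subst hv
      have inf : ∀ F : ℕ →₀ ℕ, Infinite {i // F i = 0} := by
        intro F
        have : (F.support : Set ℕ)ᶜ.Infinite := F.support.finite_toSet.infinite_compl
        have h2 : (F.support : Set ℕ)ᶜ = {i | F i = 0} := by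
          ext i; simp
        rw [h2] at this
        exact this.to_subtype
      have := inf f
      have := inf f'
      have := Denumerable.ofEncodableOfInfinite {i // f i = 0}
      have := Denumerable.ofEncodableOfInfinite {i // f' i = 0}
      exact ⟨(Denumerable.eqv _).trans (Denumerable.eqv _).symm⟩
    · have hcard : ∀ F : ℕ →₀ ℕ, ∀ _ : Fintype {i // F i = v},
          Fintype.card {i // F i = v} = (type F).count v := by
        intro F _
        have e : Fintype.card {i // F i = v} = (F.support.filter (fun i => F i = v)).card := by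
          apply Fintype.card_of_subtype
          intro i
          rw [Finset.mem_filter, Finsupp.mem_support_iff]
          constructor
          · exact fun h => h.2
          · exact fun h => ⟨by rw [h]; exact hv, h⟩
        rw [e]
        unfold type
        rw [Multiset.count_map]
        rw [Finset.card_def, Finset.filter_val]
        congr 1
        apply Multiset.filter_congr
        intro i _
        exact ⟨fun h => h.symm, fun h => h.symm⟩
      have fin : ∀ F : ℕ →₀ ℕ, Finite {i // F i = v} := by
        intro F
        have : Set.Finite {i | F i = v} := by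
          apply F.support.finite_toSet.subset
          intro i hi
          simp only [Set.mem_ofPred_eq] at hi
          simp [hi, hv]
        exact this.to_subtype
      have := Fintype.ofFinite {i // f i = v}
      have := Fintype.ofFinite {i // f' i = v}
      apply Fintype.card_eq.1
      rw [hcard f, hcard f', h]
  refine ⟨Equiv.ofFiberEquiv (f := f) (g := f') (fun v => (hfib v).some), fun i => ?_⟩
  exact Equiv.ofFiberEquiv_map _ i

/-- a series symmetric in `x` and in `y` has an expansion in the `m_α(x) m_β(y)` -/
lemma exists_expansion {F : MvPowerSeries Var ℤ} (hF : IsSym F) :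
    ∃ c, IsMonomialExpansion F c := by
  classical
  refine ⟨fun α β => if h : ∃ d, type (xPart d) = α ∧ type (yPart d) = β then
    coeff h.choose F else 0, ?_⟩
  intro d
  have h : ∃ d', type (xPart d') = type (xPart d) ∧ type (yPart d') = type (yPart d) :=
    ⟨d, rfl, rfl⟩
  simp only []
  rw [dif_pos h]
  obtain ⟨h1, h2⟩ := h.choose_spec
  set d' := h.choose
  obtain ⟨g, hg⟩ := exists_perm h1
  obtain ⟨k, hk⟩ := exists_perm h2
  have : d = relabel g k d' := by
    ext z
    rw [relabel_apply]
    rcases z with z | z
    · have := hg (g.symm z)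
      rw [Equiv.apply_symm_apply] at this
      exact this
    · have := hk (k.symm z)
      rw [Equiv.apply_symm_apply] at this
      exact this
  rw [this, hF]

end Pool.Agent.Helper1.Hadamard
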