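import Pool.Agent.Helper52.Inv.Defs

set_option autoImplicit false

/-!
# MP_0873fe_al: a unitriangular group read along a word

The word of a list of booleans: `XXXY` followed by the blocks `v_false = XXY`, `v_true = XYY`
(last entry of the list first) and a final `Y`.
-/

namespace Pool.Agent.Helper1.Inv

open Pool.Agent.Helper52.Inv
open scoped commutatorElement

/-! ### The filtration -/

section filt
variable (n : ℕ) (F : Type) [CommRing F]

/-- Matrices supported on the `k`-th superdiagonal and above. -/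
def J (k : ℕ) : AddSubgroup (Matrix (Fin n) (Fin n) F) where
  carrier := {M | ∀ i j : Fin n, (j : ℕ) < i + k → M i j = 0}
  add_mem' := by
    intro M N hM hN i j h
    rw [Matrix.add_apply, hM i j h, hN i j h, add_zero]
  zero_mem' := fun _ _ _ => rfl
  neg_mem' := by
    intro M hM i j h
    rw [Matrix.neg_apply, hM i j h, neg_zero]

variable {n F}

theorem mem_J {k : ℕ} {M : Matrix (Fin n) (Fin n) F} :
    M ∈ J n F k ↔ ∀ i j : Fin n, (j : ℕ) < i + k → M i j = 0 := Iff.rfl

theorem J_mul {k l : ℕ} {M N : Matrix (Fin n) (Fin n) F} (hM : M ∈ J n F k) (hN : N ∈ J n F l) :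
    M * N ∈ J n F (k + l) := by
  intro i j h
  rw [Matrix.mul_apply]
  refine Finset.sum_eq_zero fun t _ => ?_
  by_cases ht : (t : ℕ) < i + k
  · rw [hM i t ht, zero_mul]
  · rw [hN t j (by omega), mul_zero]

theorem J_mono {k l : ℕ} (h : k ≤ l) : J n F l ≤ J n F k := fun _ hM i j hij =>
  hM i j (by omega)

theorem J_zero {k : ℕ} (h : n ≤ k) {M : Matrix (Fin n) (Fin n) F} (hM : M ∈ J n F k) : M = 0 := by
  ext i j
  exact hM i j (by omega)

theorem J_mul_left {k : ℕ} {M N : Matrix (Fin n) (Fin n) F} (hM : M ∈ J n F 0)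
    (hN : N ∈ J n F k) : M * N ∈ J n F k := by
  have := J_mul hM hN
  rwa [zero_add] at this

/-- Units of the form `1 + J_k`. -/
def UU (n : ℕ) (F : Type) [CommRing F] [Finite F] (k : ℕ) :
    Subgroup (Matrix (Fin n) (Fin n) F)ˣ where
  carrier := {u | (u : Matrix (Fin n) (Fin n) F) - 1 ∈ J n F k}
  mul_mem' := by
    intro u v hu hv
    have h : ((u * v : (Matrix (Fin n) (Fin n) F)ˣ) : Matrix (Fin n) (Fin n) F) - 1 =
        ((u : Matrix (Fin n) (Fin n) F) - 1) * ((v : Matrix (Fin n) (Fin n) F) - 1) +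
        ((u : Matrix (Fin n) (Fin n) F) - 1) + ((v : Matrix (Fin n) (Fin n) F) - 1) := by
      rw [Units.val_mul]
      noncomm_ring
    show _ ∈ J n F k
    rw [h]
    exact (J n F k).add_mem ((J n F k).add_mem
      (J_mono (Nat.le_add_right k k) (J_mul hu hv)) hu) hv
  one_mem' := by
    show _ ∈ J n F k
    rw [Units.val_one, sub_self]
    exact (J n F k).zero_mem
  inv_mem' := by
    intro u hu
    have h1 : ∀ m : ℕ, ((u ^ m : (Matrix (Fin n) (Fin n) F)ˣ) : Matrix (Fin n) (Fin n) F) - 1 ∈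
        J n F k := by
      intro m
      induction m with
      | zero =>
        rw [pow_zero, Units.val_one, sub_self]
        exact (J n F k).zero_mem
      | succ m ih =>
        have h : ((u ^ (m + 1) : (Matrix (Fin n) (Fin n) F)ˣ) : Matrix (Fin n) (Fin n) F) - 1 =
          (((u ^ m : (Matrix (Fin n) (Fin n) F)ˣ) : Matrix (Fin n) (Fin n) F) - 1) *
            ((u : Matrix (Fin n) (Fin n) F) - 1) +
          (((u ^ m : (Matrix (Fin n) (Fin n) F)ˣ) : Matrix (Fin n) (Fin n) F) - 1) +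
            ((u : Matrix (Fin n) (Fin n) F) - 1) := by
          rw [pow_succ, Units.val_mul]
          noncomm_ring
        rw [h]
        exact (J n F k).add_mem ((J n F k).add_mem
          (J_mono (Nat.le_add_right k k) (J_mul ih hu)) ih) hu
    have h2 : u⁻¹ = u ^ (orderOf u - 1) := by
      rw [inv_eq_iff_mul_eq_one, ← pow_succ']
      rw [Nat.sub_add_cancel (orderOf_pos u)]
      exact pow_orderOf_eq_one u
    show _ ∈ J n F k
    rw [h2]
    exact h1 _

variable [Finite F]

/-- The value of an element of the unitriangular group. -/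
def vv : UU n F 1 →* Matrix (Fin n) (Fin n) F :=
  (Units.coeHom _).comp (UU n F 1).subtype

theorem vv_mem (g : UU n F 1) : vv g - 1 ∈ J n F 1 := g.2

theorem vv_inj : Function.Injective (vv : UU n F 1 → Matrix (Fin n) (Fin n) F) := by
  intro g h hgh
  exact Subtype.ext (Units.ext hgh)

theorem one_mem_J : (1 : Matrix (Fin n) (Fin n) F) ∈ J n F 0 := by
  intro i j h
  exact Matrix.one_apply_ne (fun hij => by subst hij; omega)

/-- `g ∈ 1 + a + J_{i+1}` with `a ∈ J_i`. -/
def Ap (g : UU n F 1) (i : ℕ) (a : Matrix (Fin n) (Fin n) F) : Prop :=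
  vv g - 1 - a ∈ J n F (i + 1) ∧ a ∈ J n F i

theorem Ap.sub_one {g : UU n F 1} {i : ℕ} {a : Matrix (Fin n) (Fin n) F} (h : Ap g i a) :
    vv g - 1 ∈ J n F i := by
  have := (J n F i).add_mem (J_mono (Nat.le_succ i) h.1) h.2
  rwa [sub_add_cancel] at this

theorem Ap.comm {g h : UU n F 1} {i j : ℕ} {a b : Matrix (Fin n) (Fin n) F} (hg : Ap g i a)
    (hh : Ap h j b) : Ap ⁅g, h⁆ (i + j) ⁅a, b⁆ := by
  have h1 : vv ⁅g, h⁆ - 1 = (vv g * vv h - vv h * vv g) * vv (g⁻¹ * h⁻¹) := by
    have e1 : vv ⁅g, h⁆ = vv g * vv h * vv (g⁻¹ * h⁻¹) := by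
      rw [← map_mul, ← map_mul, commutatorElement_def]
      congr 1
      group
    have e2 : (1 : Matrix (Fin n) (Fin n) F) = vv h * vv g * vv (g⁻¹ * h⁻¹) := by
      rw [← map_mul, ← map_mul]
      have : h * g * (g⁻¹ * h⁻¹) = 1 := by group
      rw [this, map_one]
    rw [e1, sub_mul, ← e2]
  set u := vv (g⁻¹ * h⁻¹) with hu
  have hu1 : u - 1 ∈ J n F 1 := vv_mem _
  have h2 : vv ⁅g, h⁆ - 1 - ⁅a, b⁆ =
      ((vv g - 1 - a) * (vv h - 1) + a * (vv h - 1 - b) - (vv h - 1 - b) * (vv g - 1) -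
        b * (vv g - 1 - a)) + (vv g * vv h - vv h * vv g) * (u - 1) := by
    rw [h1, Ring.lie_def]
    noncomm_ring
  have hgs := hg.sub_one
  have hhs := hh.sub_one
  have h3 : vv g * vv h - vv h * vv g ∈ J n F (i + j) := by
    have : vv g * vv h - vv h * vv g = (vv g - 1) * (vv h - 1) - (vv h - 1) * (vv g - 1) := by
      noncomm_ring
    rw [this]
    refine (J n F _).sub_mem (J_mul hgs hhs) ?_
    rw [add_comm i j]
    exact J_mul hhs hgs
  refine ⟨?_, ?_⟩
  · rw [h2]
    refine (J n F _).add_mem ((J n F _).sub_mem ((J n F _).sub_mem ((J n F _).add_mem ?_ ?_) ?_) ?_)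
      (J_mul h3 hu1)
    · have := J_mul hg.1 hhs
      rwa [show i + 1 + j = i + j + 1 by ring] at this
    · have := J_mul hg.2 hh.1
      rwa [show i + (j + 1) = i + j + 1 by ring] at this
    · have := J_mul hh.1 hgs
      rwa [show j + 1 + i = i + j + 1 by ring] at this
    · have := J_mul hh.2 hg.1
      rwa [show j + (i + 1) = i + j + 1 by ring] at this
  · rw [Ring.lie_def]
    refine (J n F _).sub_mem (J_mul hg.2 hh.2) ?_
    rw [add_comm i j]
    exact J_mul hh.2 hg.2

theorem Ap.one (i : ℕ) : Ap (1 : UU n F 1) i 0 := by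
  refine ⟨?_, (J n F i).zero_mem⟩
  rw [map_one, sub_self, sub_zero]
  exact (J n F _).zero_mem

theorem Ap.mul {g h : UU n F 1} {i : ℕ} (hi : 1 ≤ i) {a b : Matrix (Fin n) (Fin n) F}
    (hg : Ap g i a) (hh : Ap h i b) : Ap (g * h) i (a + b) := by
  refine ⟨?_, (J n F i).add_mem hg.2 hh.2⟩
  have h2 : vv (g * h) - 1 - (a + b) =
      (vv g - 1 - a) + (vv h - 1 - b) + (vv g - 1) * (vv h - 1) := by
    rw [map_mul]
    noncomm_ring
  rw [h2]
  exact (J n F _).add_mem ((J n F _).add_mem hg.1 hh.1)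
    (J_mono (by omega) (J_mul hg.sub_one hh.sub_one))

theorem Ap.inv {g : UU n F 1} {i : ℕ} {a : Matrix (Fin n) (Fin n) F}
    (hg : Ap g i a) : Ap g⁻¹ i (-a) := by
  refine ⟨?_, (J n F i).neg_mem hg.2⟩
  have h1 : vv g * vv g⁻¹ = 1 := by rw [← map_mul, mul_inv_cancel, map_one]
  have h2 : vv g⁻¹ - 1 - (-a) = -(vv g - 1 - a) - (vv g - 1) * (vv g⁻¹ - 1) := by
    have : (vv g - 1) * (vv g⁻¹ - 1) = 1 - vv g - vv g⁻¹ + 1 := by
      rw [sub_mul, mul_sub, h1]
      noncomm_ring
    rw [this]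
    noncomm_ring
  rw [h2]
  exact (J n F _).sub_mem ((J n F _).neg_mem hg.1) (J_mul hg.sub_one (vv_mem _))

theorem Ap.pow {g : UU n F 1} {i : ℕ} (hi : 1 ≤ i) {a : Matrix (Fin n) (Fin n) F}
    (hg : Ap g i a) (m : ℕ) : Ap (g ^ m) i (m • a) := by
  induction m with
  | zero =>
    rw [pow_zero, zero_smul]
    exact Ap.one i
  | succ m ih =>
    rw [pow_succ, succ_nsmul]
    exact ih.mul hi hg

theorem Ap.zpow {g : UU n F 1} {i : ℕ} (hi : 1 ≤ i) {a : Matrix (Fin n) (Fin n) F}
    (hg : Ap g i a) (m : ℤ) : Ap (g ^ m) i (m • a) := by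
  obtain ⟨k, rfl | rfl⟩ := m.eq_nat_or_neg
  · rw [zpow_natCast, natCast_zsmul]
    exact hg.pow hi k
  · rw [zpow_neg, zpow_natCast, neg_smul, natCast_zsmul]
    exact (hg.pow hi k).inv

theorem Ap_cA {x y : UU n F 1} {X Y : Matrix (Fin n) (Fin n) F} (hx : Ap x 1 X)
    (hy : Ap y 1 Y) : Ap (cA x y) 4 (cA X Y) :=
  hx.comm (hx.comm (hx.comm hy))

theorem Ap_cB {x y : UU n F 1} {X Y : Matrix (Fin n) (Fin n) F} (hx : Ap x 1 X)
    (hy : Ap y 1 Y) (b : Bool) : Ap (cB x y b) 3 (cB X Y b) := by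
  cases b
  · exact hx.comm (hx.comm hy)
  · exact hy.comm (hx.comm hy)

theorem Ap_cC {x y : UU n F 1} {X Y : Matrix (Fin n) (Fin n) F} (hx : Ap x 1 X)
    (hy : Ap y 1 Y) (l : List Bool) : Ap (cC x y l) (3 * l.length + 4) (cC X Y l) := by
  induction l with
  | nil => exact Ap_cA hx hy
  | cons b l ih =>
    have := ih.comm (Ap_cB hx hy b)
    rw [show 3 * l.length + 4 + 3 = 3 * (b :: l).length + 4 by simp; ring] at this
    exact this

theorem Ap_wd {x y : UU n F 1} {X Y : Matrix (Fin n) (Fin n) F} (hx : Ap x 1 X)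
    (hy : Ap y 1 Y) (m : ℕ) (S : List (List Bool)) (α : List Bool → ℤ)
    (hS : ∀ l ∈ S, l.length = m) : Ap (wd x y S α) (3 * m + 4) (ws X Y S α) := by
  induction S with
  | nil => exact Ap.one _
  | cons l S ih =>
    unfold wd ws at *
    rw [List.map_cons, List.map_cons, List.prod_cons, List.sum_cons]
    refine Ap.mul (by omega) ?_ (ih fun l' hl' => hS l' (List.mem_cons_of_mem _ hl'))
    have h := Ap_cC hx hy l
    rw [hS l List.mem_cons_self] at h
    exact h.zpow (by omega) _

/-- The lower central series. -/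
theorem LC_le (k : ℕ) (g : UU n F 1) (hg : g ∈ LC (⊤ : Subgroup (UU n F 1)) k) :
    vv g - 1 ∈ J n F (k + 1) := by
  have key : LC (⊤ : Subgroup (UU n F 1)) k ≤ (UU n F (k + 1)).subgroupOf (UU n F 1) := by
    clear hg g
    induction k with
    | zero =>
      intro g _
      exact g.2
    | succ k ih =>
      refine Subgroup.commutator_le.mpr fun g₁ h₁ g₂ _ => ?_
      have h1 : Ap g₁ (k + 1) (vv g₁ - 1) := by
        refine ⟨?_, ih h₁⟩
        rw [sub_self]
        exact (J n F _).zero_mem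
      have h2 : Ap g₂ 1 (vv g₂ - 1) := by
        refine ⟨?_, vv_mem g₂⟩
        rw [sub_self]
        exact (J n F _).zero_mem
      exact (h1.comm h2).sub_one
  exact key hg

theorem LC_eq_bot {k : ℕ} (hk : n ≤ k + 1) : LC (⊤ : Subgroup (UU n F 1)) k = ⊥ := by
  rw [eq_bot_iff]
  intro g hg
  have h := J_zero hk (LC_le k g hg)
  rw [Subgroup.mem_bot]
  apply vv_inj
  rw [map_one]
  exact sub_eq_zero.mp h

theorem J_pow {M : Matrix (Fin n) (Fin n) F} (hM : M ∈ J n F 1) (k : ℕ) : M ^ k ∈ J n F k := by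
  induction k with
  | zero =>
    rw [pow_zero]
    exact one_mem_J
  | succ k ih =>
    rw [pow_succ]
    exact J_mul ih hM

theorem isPGroup_UU (p : ℕ) [Fact p.Prime] [CharP F p] [Nonempty (Fin n)] :
    IsPGroup p (UU n F 1) := by
  intro g
  refine ⟨n, vv_inj ?_⟩
  have h1 : vv g = (vv g - 1) + 1 := by rw [sub_add_cancel]
  rw [map_pow, map_one, h1, add_pow_char_pow_of_commute p n (Commute.one_right _), one_pow]
  have h2 : (vv g - 1) ^ (p ^ n) = 0 :=
    J_zero (Nat.lt_pow_self (Fact.out : p.Prime).one_lt).le (J_pow (vv_mem g) _)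
  rw [h2, zero_add]

/-- The unitriangular matrix `1 + M`. -/
theorem exists_unit {M : Matrix (Fin n) (Fin n) F} (hM : M ∈ J n F 1) :
    ∃ g : UU n F 1, vv g = 1 + M := by
  have h1 : IsNilpotent M := ⟨n, J_zero le_rfl (J_pow hM n)⟩
  obtain ⟨u, hu⟩ := h1.isUnit_one_add
  refine ⟨⟨u, ?_⟩, hu⟩
  show (u : Matrix (Fin n) (Fin n) F) - 1 ∈ J n F 1
  rw [hu, add_sub_cancel_left]
  exact hM

end filt

/-! ### Homogeneous matrices -/

section homog
variable {n : ℕ} {F : Type} [CommRing F]

/-- The matrix with entries `f i` on the `k`-th superdiagonal. -/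
def D (n : ℕ) (k : ℕ) (f : ℕ → F) : Matrix (Fin n) (Fin n) F :=
  Matrix.of fun i j => if (j : ℕ) = i + k then f i else 0

theorem D_mem (k : ℕ) (f : ℕ → F) : D n k f ∈ J n F k := by
  intro i j h
  unfold D
  rw [Matrix.of_apply, if_neg (by omega)]

theorem D_mul (k l : ℕ) (f g : ℕ → F) :
    D n k f * D n l g = D n (k + l) fun i => f i * g (i + k) := by
  ext i j
  unfold D
  rw [Matrix.mul_apply, Matrix.of_apply]
  by_cases h : (j : ℕ) = i + (k + l)
  · rw [if_pos h, Finset.sum_eq_single (⟨i + k, by omega⟩ : Fin n)]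
    · rw [Matrix.of_apply, Matrix.of_apply, if_pos rfl, if_pos (by simp; omega)]
    · intro t _ ht
      rw [Matrix.of_apply, if_neg (fun h' => ht (Fin.ext h')), zero_mul]
    · intro h'
      exact absurd (Finset.mem_univ _) h'
  · rw [if_neg h]
    refine Finset.sum_eq_zero fun t _ => ?_
    rw [Matrix.of_apply, Matrix.of_apply]
    by_cases ht : (t : ℕ) = i + k
    · rw [if_pos ht, if_neg (fun h' => h (by omega)), mul_zero]
    · rw [if_neg ht, zero_mul]

/-- The bracket of homogeneous sequences. -/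
def br (k l : ℕ) (f g : ℕ → F) : ℕ → F := fun i => f i * g (i + k) - g i * f (i + l)

theorem D_lie (k l : ℕ) (f g : ℕ → F) : ⁅D n k f, D n l g⁆ = D n (k + l) (br k l f g) := by
  rw [Ring.lie_def, D_mul, D_mul]
  ext i j
  unfold D br
  simp only [Matrix.sub_apply, Matrix.of_apply]
  by_cases h : (j : ℕ) = i + (k + l)
  · rw [if_pos h, if_pos (by omega), if_pos h]
  · rw [if_neg h, if_neg (by omega), if_neg h, sub_zero]

/-- indicator of `X` -/
def fX (w : ℕ → Bool) : ℕ → F := fun i => if w i then 0 else 1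

/-- indicator of `Y` -/
def fY (w : ℕ → Bool) : ℕ → F := fun i => if w i then 1 else 0

/-- sequence of `cA` -/
def sA (w : ℕ → Bool) : ℕ → F := br 1 3 (fX w) (br 1 2 (fX w) (br 1 1 (fX w) (fY w)))

/-- sequence of `cB` -/
def sB (w : ℕ → Bool) (b : Bool) : ℕ → F :=
  br 1 2 (if b then fY w else fX w) (br 1 1 (fX w) (fY w))

/-- sequence of `cC` -/
def sC (w : ℕ → Bool) : List Bool → ℕ → F
  | [] => sA w
  | b :: l => br (3 * l.length + 4) 3 (sC w l) (sB w b)

theorem D_cA (w : ℕ → Bool) :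
    cA (D n 1 (fX w : ℕ → F)) (D n 1 (fY w)) = D n 4 (sA w) := by
  unfold cA sA
  rw [D_lie, D_lie, D_lie]

theorem D_cB (w : ℕ → Bool) (b : Bool) :
    cB (D n 1 (fX w : ℕ → F)) (D n 1 (fY w)) b = D n 3 (sB w b) := by
  unfold cB sB
  cases b
  · simp only [Bool.false_eq_true, if_false]
    rw [D_lie, D_lie]
  · simp only [if_true]
    rw [D_lie, D_lie]

theorem D_cC (w : ℕ → Bool) (l : List Bool) :
    cC (D n 1 (fX w : ℕ → F)) (D n 1 (fY w)) l = D n (3 * l.length + 4) (sC w l) := by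
  induction l with
  | nil => exact D_cA w
  | cons b l ih =>
    show ⁅cC (D n 1 (fX w : ℕ → F)) (D n 1 (fY w)) l, cB (D n 1 (fX w : ℕ → F)) (D n 1 (fY w)) b⁆ = _
    rw [ih, D_cB, D_lie]
    congr 1

theorem D_ws (w : ℕ → Bool) (m : ℕ) (S : List (List Bool)) (α : List Bool → ℤ)
    (hS : ∀ l ∈ S, l.length = m) :
    ws (D n 1 (fX w : ℕ → F)) (D n 1 (fY w)) S α =
      D n (3 * m + 4) fun i => (S.map fun l => (α l : F) * sC w l i).sum := by
  unfold ws
  induction S with
  | nil =>
    ext i j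
    simp [D]
  | cons l S ih =>
    rw [List.map_cons, List.sum_cons, ih fun l' hl' => hS l' (List.mem_cons_of_mem _ hl'),
      D_cC, hS l List.mem_cons_self]
    ext i j
    simp only [D, Matrix.add_apply, Matrix.smul_apply, Matrix.of_apply, List.map_cons,
      List.sum_cons]
    split_ifs
    · rw [zsmul_eq_mul]
    · simp

/-! ### The word -/

/-- `w` starts with `XXXY`. -/
theorem sA_zero {w : ℕ → Bool} (h0 : w 0 = false) (h1 : w 1 = false) (h2 : w 2 = false)
    (h3 : w 3 = true) : (sA w 0 : F) = 1 := by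
  simp [sA, br, fX, fY, h0, h1, h2, h3]

theorem sB_zero {w : ℕ → Bool} (h0 : w 0 = false) (h1 : w 1 = false) (h2 : w 2 = false)
    (b : Bool) : (sB w b 0 : F) = 0 := by
  cases b <;> simp [sB, br, fX, fY, h0, h1, h2]

theorem sB_block {w : ℕ → Bool} {i : ℕ} {c : Bool} (h0 : w i = false) (h1 : w (i + 1) = c)
    (h2 : w (i + 2) = true) (b : Bool) :
    (sB w b i : F) = if b = c then (if b then -1 else 1) else 0 := by
  cases b <;> cases c <;> simp [sB, br, fX, fY, h0, h1, h2, add_assoc]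

/-- The list `l` is read by `c`. -/
def Mt (c : ℕ → Bool) : List Bool → Prop
  | [] => True
  | b :: l => b = c l.length ∧ Mt c l

theorem Mt_congr {c c' : ℕ → Bool} (l : List Bool) (h : ∀ j < l.length, c j = c' j) :
    Mt c l ↔ Mt c' l := by
  induction l with
  | nil => exact Iff.rfl
  | cons b l ih =>
    unfold Mt
    rw [h l.length (by simp), ih fun j hj => h j (by simp; omega)]

theorem Mt_unique {c : ℕ → Bool} (l l' : List Bool) (hl : l.length = l'.length) (h : Mt c l)
    (h' : Mt c l') : l = l' := by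
  induction l generalizing l' with
  | nil => simpa using hl.symm
  | cons b l ih =>
    cases l' with
    | nil => simp at hl
    | cons b' l' =>
      have hl1 : l.length = l'.length := by simpa using hl
      rw [ih l' hl1 h.2 h'.2, h.1, h'.1, hl1]

/-- The function reading a list. -/
def rd : List Bool → ℕ → Bool
  | [] => fun _ => false
  | b :: l => Function.update (rd l) l.length b

theorem Mt_rd (l : List Bool) : Mt (rd l) l := by
  induction l with
  | nil => trivial
  | cons b l ih =>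
    refine ⟨by simp [rd], ?_⟩
    refine (Mt_congr (c' := rd l) l fun j hj => ?_).mpr ih
    show Function.update (rd l) l.length b j = rd l j
    rw [Function.update_of_ne (by omega)]

/-- The word. -/
def wordF (c : ℕ → Bool) (m : ℕ) (i : ℕ) : Bool :=
  if i < 4 then decide (i = 3) else if i = 3 * m + 4 then true else
    if (i - 4) % 3 = 0 then false else if (i - 4) % 3 = 1 then c ((i - 4) / 3) else true

theorem wordF_end (c : ℕ → Bool) (m : ℕ) : wordF c m (3 * m + 4) = true := by
  unfold wordF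
  rw [if_neg (by omega), if_pos rfl]

theorem wordF_block (c : ℕ → Bool) (m j : ℕ) (hj : j < m) : wordF c m (3 * j + 4) = false ∧
    wordF c m (3 * j + 4 + 1) = c j ∧ wordF c m (3 * j + 4 + 2) = true := by
  refine ⟨?_, ?_, ?_⟩
  · unfold wordF
    rw [if_neg (by omega), if_neg (by omega), if_pos (by omega)]
  · unfold wordF
    rw [if_neg (by omega), if_neg (by omega), if_neg (by omega), if_pos (by omega)]
    congr 1
    omega
  · unfold wordF
    rw [if_neg (by omega), if_neg (by omega), if_neg (by omega), if_neg (by omega)]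

/-- The sign. -/
def sg : List Bool → ℤ
  | [] => 1
  | b :: l => sg l * (if b then -1 else 1)

theorem sg_ne (l : List Bool) : sg l = 1 ∨ sg l = -1 := by
  induction l with
  | nil => exact Or.inl rfl
  | cons b l ih => cases b <;> rcases ih with h | h <;> simp [sg, h]

open Classical in
theorem sC_zero (c : ℕ → Bool) (m : ℕ) (l : List Bool) (hl : l.length ≤ m) :
    (sC (wordF c m) l 0 : F) = if Mt c l then (sg l : F) else 0 := by
  have w0 : wordF c m 0 = false := by simp [wordF]
  have w1 : wordF c m 1 = false := by simp [wordF]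
  have w2 : wordF c m 2 = false := by simp [wordF]
  have w3 : wordF c m 3 = true := by simp [wordF]
  induction l with
  | nil =>
    have : Mt c [] := trivial
    rw [if_pos this]
    simpa [sC, sg] using sA_zero (F := F) w0 w1 w2 w3
  | cons b l ih =>
    have hl' : l.length < m := by simpa using hl
    obtain ⟨b0, b1, b2⟩ := wordF_block c m l.length hl'
    have h1 : (sC (wordF c m) (b :: l) 0 : F) =
        sC (wordF c m) l 0 * sB (wordF c m) b (3 * l.length + 4) := by
      show br (3 * l.length + 4) 3 (sC (wordF c m) l) (sB (wordF c m) b) 0 = _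
      unfold br
      rw [sB_zero w0 w1 w2, zero_mul, sub_zero, zero_add]
    rw [h1, ih hl'.le, sB_block b0 b1 b2]
    by_cases h2 : Mt c l
    · by_cases h3 : b = c l.length
      · have h4 : Mt c (b :: l) := ⟨h3, h2⟩
        rw [if_pos h2, if_pos h3, if_pos h4]
        cases b <;> simp [sg]
      · have h4 : ¬ Mt c (b :: l) := fun h => h3 h.1
        rw [if_pos h2, if_neg h3, if_neg h4, mul_zero]
    · have h4 : ¬ Mt c (b :: l) := fun h => h2 h.2
      rw [if_neg h2, if_neg h4, zero_mul]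

end homog

theorem ut_word (p : ℕ) (hp : p.Prime) (l₀ : List Bool) :
    ∃ (Q : Type) (_ : Group Q) (_ : Finite Q), IsPGroup p Q ∧ ∃ x y : Q,
      LC (⊤ : Subgroup Q) (3 * l₀.length + 5) = ⊥ ∧
      ∀ (S : List (List Bool)) (α : List Bool → ℤ), S.Nodup → (∀ l ∈ S, l.length = l₀.length) →
        l₀ ∈ S → ¬ ((p : ℤ) ∣ α l₀) → ⁅wd x y S α, y⁆ ≠ 1 := by
  classical
  haveI : Fact p.Prime := ⟨hp⟩
  set m := l₀.length with hm
  set n := 3 * m + 6 with hn
  haveI : Nonempty (Fin n) := ⟨⟨0, by omega⟩⟩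
  set w := wordF (rd l₀) m with hw
  obtain ⟨x, hx⟩ := exists_unit (D_mem (n := n) 1 (fX w : ℕ → ZMod p))
  obtain ⟨y, hy⟩ := exists_unit (D_mem (n := n) 1 (fY w : ℕ → ZMod p))
  refine ⟨UU n (ZMod p) 1, inferInstance, inferInstance, isPGroup_UU p, x, y,
    LC_eq_bot (by omega), ?_⟩
  intro S α hS hSm hl₀ hα h1
  have ax : Ap x 1 (D n 1 (fX w)) := by
    refine ⟨?_, D_mem _ _⟩
    rw [hx, add_sub_cancel_left, sub_self]
    exact (J n _ _).zero_mem
  have ay : Ap y 1 (D n 1 (fY w)) := by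
    refine ⟨?_, D_mem _ _⟩
    rw [hy, add_sub_cancel_left, sub_self]
    exact (J n _ _).zero_mem
  have h2 := ((Ap_wd ax ay m S α hSm).comm ay).1
  rw [h1, map_one, sub_self, zero_sub] at h2
  have h3 := J_zero (by omega) h2
  rw [D_ws w m S α hSm, D_lie, neg_eq_zero] at h3
  have h4 := congrFun (congrFun h3 ⟨0, by omega⟩) ⟨3 * m + 5, by omega⟩
  have w0 : w 0 = false := by simp [hw, wordF]
  have we : w (3 * m + 4) = true := wordF_end _ _
  simp only [D, Matrix.of_apply, Matrix.zero_apply] at h4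
  rw [if_pos (by simp)] at h4
  simp only [br, zero_add, fY, we, w0, if_true, Bool.false_eq_true, if_false, zero_mul, sub_zero,
    mul_one] at h4
  rw [← List.sum_toFinset _ hS, Finset.sum_eq_single l₀] at h4
  · rw [hw, sC_zero (rd l₀) m l₀ le_rfl, if_pos (Mt_rd l₀)] at h4
    have h5 : ((α l₀ * sg l₀ : ℤ) : ZMod p) = 0 := by
      push_cast
      exact h4
    rw [ZMod.intCast_zmod_eq_zero_iff_dvd] at h5
    rcases sg_ne l₀ with h | h <;> rw [h] at h5
    · exact hα (by simpa using h5)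
    · exact hα (by simpa using h5)
  · intro l hl hne
    have hl' : l ∈ S := by simpa using hl
    rw [hw, sC_zero (rd l₀) m l (hSm l hl').le, if_neg, mul_zero]
    intro h
    exact hne (Mt_unique l l₀ (hSm l hl') h (Mt_rd l₀))
  · intro h
    exact absurd (by simpa using hl₀) h

end Pool.Agent.Helper1.Inv
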