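import Mathlib
import Pool.Agent.Helper26.Maz.Defs
import Pool.Agent.Helper26.Maz.Cells
import Pool.Agent.Helper1.MazZ2Data

/-!
# Labels modulo two (module MAZ-Z2)

Labels in `ℤ/2` on the pairs of blocks, flat outside the curve, with trivial products along the two
closed sequences of blocks, are trivial.
-/

set_option autoImplicit false

namespace Pool.Agent.Helper26.Maz

namespace Z2

/-- The number of the face from `c` to `d`. -/
def fidx (c d : Blk) : ℕ :=
  if c.1 ≠ d.1 then (c.1.val * 5 + c.2.1.val) * 4 + c.2.2.val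
  else if c.2.1 ≠ d.2.1 then 80 + (c.1.val * 4 + c.2.1.val) * 4 + c.2.2.val
  else 144 + (c.1.val * 5 + c.2.1.val) * 3 + c.2.2.val

/-- The face number `i`. -/
def fc (i : ℕ) : Blk × Blk × Cell := faces.getD i ((0, 0, 0), (0, 0, 0), (0, 0, 0))

/-- The pair `(c, d)` is a face of the list. -/
def fwd (c d : Blk) : Prop := fidx c d < 204 ∧ (fc (fidx c d)).1 = c ∧ (fc (fidx c d)).2.1 = d

instance (c d : Blk) : Decidable (fwd c d) := by unfold fwd; infer_instance

/-- The mask of a pair of blocks. -/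
def pm (c d : Blk) : ℕ :=
  if c = d then 0 else if fwd c d then 2 ^ fidx c d else 2 ^ fidx d c

/-- The pair is admissible. -/
def okp (c d : Blk) : Prop := c = d ∨ fwd c d ∨ fwd d c

instance (c d : Blk) : Decidable (okp c d) := by unfold okp; infer_instance

/-- The mask of a relation. -/
def relMask (r : Cell × Blk × Blk × Blk × Blk) : ℕ :=
  pm r.2.1 r.2.2.1 ^^^ (pm r.2.2.1 r.2.2.2.1 ^^^ (pm r.2.1 r.2.2.2.2 ^^^ pm r.2.2.2.2 r.2.2.2.1))

/-- The mask of a closed sequence. -/
def loopMask (c : Fin 27 → Blk) : ℕ :=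
  (List.finRange 26).foldr (fun i m => pm (c i.castSucc) (c i.succ) ^^^ m) 0

/-- The combination of the masks given by the bits of `c`. -/
def comb : List ℕ → ℕ → ℕ
  | [], _ => 0
  | m :: ms, c => (if c % 2 = 1 then m else 0) ^^^ comb ms (c / 2)

/-- The mask of the tree path. -/
def tm (c : Blk) : ℕ := treeMasks.getD ((c.1.val * 5 + c.2.1.val) * 4 + c.2.2.val) 0

theorem faces_ok : ∀ e ∈ faces, e.2.2 ∉ Kc ∧ inc e.2.2 e.1 ∧ inc e.2.2 e.2.1 := by
  decide +kernel

theorem rels_ok : ∀ r ∈ rels, (r.1 ∉ Kc) ∧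
    (inc r.1 r.2.1 ∧ inc r.1 r.2.2.1 ∧ inc r.1 r.2.2.2.1 ∧ inc r.1 r.2.2.2.2) ∧
    (okp r.2.1 r.2.2.1 ∧ okp r.2.2.1 r.2.2.2.1 ∧ okp r.2.1 r.2.2.2.2 ∧
      okp r.2.2.2.2 r.2.2.2.1) := by
  decide +kernel

theorem loopK_ok : ∀ i : Fin 26, okp (seqK i.castSucc) (seqK i.succ) := by
  decide +kernel

theorem loopR_ok : ∀ i : Fin 26, okp (seqR i.castSucc) (seqR i.succ) := by
  decide +kernel

theorem masks_eq : rels.map relMask ++ [loopMask seqK, loopMask seqR] = maskList := by
  decide +kernel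

theorem check : ∀ i ∈ List.range 204,
    comb maskList (certs.getD i 0) = 2 ^ i ^^^ (tm (fc i).1 ^^^ tm (fc i).2.1) := by
  decide +kernel

theorem faceJ : ∀ c : Blk, fwd c (c.1 + 1, c.2) := by decide +kernel

theorem faceA : ∀ c : Blk, c.2.1.val < 4 → fwd c (c.1, c.2.1 + 1, c.2.2) := by decide +kernel

theorem faceB : ∀ c : Blk, c.2.2.val < 3 → fwd c (c.1, c.2.1, c.2.2 + 1) := by decide +kernel

/-! ### Sums over the bits of a mask -/

/-- The sum of the values of `X` over the bits of `m`. -/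
def S (X : ℕ → ZMod 2) (m : ℕ) : ZMod 2 :=
  ∑ i ∈ Finset.range 204, if m.testBit i then X i else 0

theorem two_self (x : ZMod 2) : x + x = 0 := by
  revert x; decide

theorem eq_of_add {x y : ZMod 2} (h : x + y = 0) : x = y := by
  revert x y; decide

theorem S_zero (X : ℕ → ZMod 2) : S X 0 = 0 := by simp [S]

theorem S_xor (X : ℕ → ZMod 2) (m n : ℕ) : S X (m ^^^ n) = S X m + S X n := by
  unfold S
  rw [← Finset.sum_add_distrib]
  refine Finset.sum_congr rfl fun i _ => ?_
  rw [Nat.testBit_xor]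
  have h2 : X i + X i = 0 := two_self _
  cases m.testBit i <;> cases n.testBit i <;> simp [h2]

theorem S_pow (X : ℕ → ZMod 2) {i : ℕ} (hi : i < 204) : S X (2 ^ i) = X i := by
  unfold S
  have : ∀ j ∈ Finset.range 204, (if (2 ^ i).testBit j then X j else 0) =
      if i = j then X j else 0 := by
    intro j _
    rw [Nat.testBit_two_pow]
    by_cases h : i = j <;> simp [h]
  rw [Finset.sum_congr rfl this, Finset.sum_ite_eq]
  simp [hi]

theorem S_comb (X : ℕ → ZMod 2) (ms : List ℕ) (h : ∀ m ∈ ms, S X m = 0) (c : ℕ) :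
    S X (comb ms c) = 0 := by
  induction ms generalizing c with
  | nil => exact S_zero X
  | cons m ms ih =>
    rw [comb, S_xor, ih (fun m' hm' => h m' (List.mem_cons_of_mem _ hm')), add_zero]
    by_cases hc : c % 2 = 1
    · rw [if_pos hc]; exact h m List.mem_cons_self
    · rw [if_neg hc]; exact S_zero X

theorem fc_mem {i : ℕ} (hi : i < 204) : fc i ∈ faces := by
  have hl : faces.length = 204 := by decide +kernel
  unfold fc
  rw [List.getD_eq_getElem _ _ (by omega)]
  exact List.getElem_mem _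

theorem fwd_cell {c d : Blk} (h : fwd c d) : ∃ σ : Cell, σ ∉ Kc ∧ inc σ c ∧ inc σ d := by
  obtain ⟨h1, h2, h3⟩ := h
  have := faces_ok _ (fc_mem h1)
  rw [h2, h3] at this
  exact ⟨_, this⟩

section

variable {G : Blk → Blk → ZMod 2}

/-- Flatness, additively. -/
def Flat (G : Blk → Blk → ZMod 2) : Prop :=
  ∀ σ : Cell, σ ∉ Kc → ∀ c c' c'' : Blk, inc σ c → inc σ c' → inc σ c'' →
    G c c' + G c' c'' = G c c''

/-- The labels of the faces. -/
def X (G : Blk → Blk → ZMod 2) (i : ℕ) : ZMod 2 := G (fc i).1 (fc i).2.1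

theorem G_self (hG : Flat G) (c : Blk) : G c c = 0 := by
  obtain ⟨σ, h1, h2, -⟩ := fwd_cell (faceJ c)
  have := hG σ h1 c c c h2 h2 h2
  simpa using this

theorem G_symm (hG : Flat G) {c d : Blk} (h : fwd c d) : G d c = G c d := by
  obtain ⟨σ, h1, h2, h3⟩ := fwd_cell h
  have := hG σ h1 c d c h2 h3 h2
  rw [G_self hG] at this
  exact (eq_of_add this).symm

theorem X_fidx {c d : Blk} (h : fwd c d) : X G (fidx c d) = G c d := by
  unfold X
  rw [h.2.1, h.2.2]

theorem S_pm (hG : Flat G) {c d : Blk} (h : okp c d) : S (X G) (pm c d) = G c d := by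
  unfold pm
  by_cases hcd : c = d
  · rw [if_pos hcd, S_zero, hcd, G_self hG]
  · rw [if_neg hcd]
    by_cases hf : fwd c d
    · rw [if_pos hf, S_pow _ hf.1, X_fidx hf]
    · rw [if_neg hf]
      have hb : fwd d c := by
        rcases h with h | h | h
        · exact absurd h hcd
        · exact absurd h hf
        · exact h
      rw [S_pow _ hb.1, X_fidx hb, G_symm hG hb]

theorem S_rel (hG : Flat G) {r : Cell × Blk × Blk × Blk × Blk} (hr : r ∈ rels) :
    S (X G) (relMask r) = 0 := by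
  obtain ⟨h0, ⟨h1, h2, h3, h4⟩, k1, k2, k3, k4⟩ := rels_ok r hr
  unfold relMask
  rw [S_xor, S_xor, S_xor, S_pm hG k1, S_pm hG k2, S_pm hG k3, S_pm hG k4, ← add_assoc,
    hG _ h0 _ _ _ h1 h2 h3, hG _ h0 _ _ _ h1 h4 h3]
  exact two_self _

theorem S_loop (hG : Flat G) (c : Fin 27 → Blk)
    (h : ∀ i : Fin 26, okp (c i.castSucc) (c i.succ)) :
    S (X G) (loopMask c) =
      ((List.finRange 26).map fun i => G (c i.castSucc) (c i.succ)).sum := by
  unfold loopMask
  generalize List.finRange 26 = l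
  induction l with
  | nil => simp [S_zero]
  | cons i l ih => rw [List.foldr_cons, S_xor, ih, S_pm hG (h i), List.map_cons, List.sum_cons]

theorem face_eq (hG : Flat G)
    (hK : ((List.finRange 26).map fun i : Fin 26 => G (seqK i.castSucc) (seqK i.succ)).sum = 0)
    (hR : ((List.finRange 26).map fun i : Fin 26 => G (seqR i.castSucc) (seqR i.succ)).sum = 0)
    {i : ℕ} (hi : i < 204) :
    X G i = S (X G) (tm (fc i).1) + S (X G) (tm (fc i).2.1) := by
  have hm : ∀ m ∈ maskList, S (X G) m = 0 := by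
    rw [← masks_eq]
    intro m hm
    rw [List.mem_append, List.mem_map] at hm
    rcases hm with ⟨r, hr, rfl⟩ | hm
    · exact S_rel hG hr
    · rw [List.mem_cons, List.mem_singleton] at hm
      rcases hm with rfl | rfl
      · rw [S_loop hG _ loopK_ok, hK]
      · rw [S_loop hG _ loopR_ok, hR]
  have h := S_comb (X G) maskList hm (certs.getD i 0)
  rw [check i (List.mem_range.2 hi), S_xor, S_xor, S_pow _ hi] at h
  exact eq_of_add h

theorem fwd_eq (hG : Flat G)
    (hK : ((List.finRange 26).map fun i : Fin 26 => G (seqK i.castSucc) (seqK i.succ)).sum = 0)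
    (hR : ((List.finRange 26).map fun i : Fin 26 => G (seqR i.castSucc) (seqR i.succ)).sum = 0)
    {c d : Blk} (h : fwd c d) : G c d = S (X G) (tm c) + S (X G) (tm d) := by
  have := face_eq hG hK hR h.1
  rwa [X_fidx h, h.2.1, h.2.2] at this

theorem near1 : ∀ s : ZMod 8, ∀ j j' : ZMod 4,
    (s = 2 * (j.val : ZMod 8) ∨ s = 2 * (j.val : ZMod 8) + 1 ∨ s = 2 * (j.val : ZMod 8) + 2) →
    (s = 2 * (j'.val : ZMod 8) ∨ s = 2 * (j'.val : ZMod 8) + 1 ∨ s = 2 * (j'.val : ZMod 8) + 2) →
    j = j' ∨ j' = j + 1 ∨ j = j' + 1 := by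
  decide +kernel

theorem near2 : ∀ a a' : Fin 5, a'.val = a.val + 1 → a' = a + 1 := by decide

theorem near3 : ∀ a a' : Fin 4, a'.val = a.val + 1 → a' = a + 1 := by decide

theorem pair_eq (hG : Flat G)
    (hK : ((List.finRange 26).map fun i : Fin 26 => G (seqK i.castSucc) (seqK i.succ)).sum = 0)
    (hR : ((List.finRange 26).map fun i : Fin 26 => G (seqR i.castSucc) (seqR i.succ)).sum = 0)
    {σ : Cell} (hσ : σ ∉ Kc) {c c' : Blk} (h : inc σ c) (h' : inc σ c') :
    G c c' = S (X G) (tm c) + S (X G) (tm c') := by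
  have key : ∀ c d : Blk, (c = d ∨ fwd c d ∨ fwd d c) →
      G c d = S (X G) (tm c) + S (X G) (tm d) := by
    intro c d h
    rcases h with rfl | h | h
    · rw [G_self hG, two_self]
    · exact fwd_eq hG hK hR h
    · rw [G_symm hG h, fwd_eq hG hK hR h, add_comm]
  obtain ⟨j, a, b⟩ := c
  obtain ⟨j', a', b'⟩ := c'
  obtain ⟨h1, h2, h3⟩ := h
  obtain ⟨h1', h2', h3'⟩ := h'
  have i1 : inc σ (j', a, b) := ⟨h1', h2, h3⟩
  have i2 : inc σ (j', a', b) := ⟨h1', h2', h3⟩
  have e1 : G (j, a, b) (j', a, b) =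
      S (X G) (tm (j, a, b)) + S (X G) (tm (j', a, b)) := by
    apply key
    rcases near1 _ _ _ h1 h1' with rfl | rfl | rfl
    · exact Or.inl rfl
    · exact Or.inr (Or.inl (faceJ _))
    · exact Or.inr (Or.inr (faceJ _))
  have e2 : G (j', a, b) (j', a', b) =
      S (X G) (tm (j', a, b)) + S (X G) (tm (j', a', b)) := by
    apply key
    simp only at h2 h2'
    have h : a.val = a'.val ∨ a'.val = a.val + 1 ∨ a.val = a'.val + 1 := by omega
    rcases h with h | h | h
    · exact Or.inl (by rw [Fin.ext h])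
    · refine Or.inr (Or.inl ?_)
      rw [near2 _ _ h]
      exact faceA (j', a, b) (by have := a'.isLt; simp only; omega)
    · refine Or.inr (Or.inr ?_)
      rw [near2 _ _ h]
      exact faceA (j', a', b) (by have := a.isLt; simp only; omega)
  have e3 : G (j', a', b) (j', a', b') =
      S (X G) (tm (j', a', b)) + S (X G) (tm (j', a', b')) := by
    apply key
    simp only at h3 h3'
    have h : b.val = b'.val ∨ b'.val = b.val + 1 ∨ b.val = b'.val + 1 := by omega
    rcases h with h | h | h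
    · exact Or.inl (by rw [Fin.ext h])
    · refine Or.inr (Or.inl ?_)
      rw [near3 _ _ h]
      exact faceB (j', a', b) (by have := b'.isLt; simp only; omega)
    · refine Or.inr (Or.inr ?_)
      rw [near3 _ _ h]
      exact faceB (j', a', b') (by have := b.isLt; simp only; omega)
  rw [← hG σ hσ (j, a, b) (j', a, b) (j', a', b') ⟨h1, h2, h3⟩ i1 ⟨h1', h2', h3'⟩,
    ← hG σ hσ (j', a, b) (j', a', b) (j', a', b') i1 i2 ⟨h1', h2', h3'⟩, e1, e2, e3]
  have t1 := two_self (S (X G) (tm (j', a, b)))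
  have t2 := two_self (S (X G) (tm (j', a', b)))
  linear_combination t1 + t2

end

end Z2

theorem toAdd_prodL (g : Blk → Blk → Multiplicative (ZMod 2)) (c : Fin 27 → Blk) :
    Multiplicative.toAdd (prodL g c) =
      ((List.finRange 26).map fun i : Fin 26 =>
        Multiplicative.toAdd (g (c i.castSucc) (c i.succ))).sum := by
  unfold prodL
  rw [List.ofFn_eq_map]
  generalize List.finRange 26 = l
  induction l with
  | nil => rfl
  | cons i l ih =>
    rw [List.map_cons, List.prod_cons, toAdd_mul, ih, List.map_cons, List.sum_cons]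

theorem labels_Z2 (g : Blk → Blk → Multiplicative (ZMod 2)) (hg : Flat3 g)
    (h1 : prodL g seqK = 1) (h2 : prodL g seqR = 1) : Triv3 g := by
  have hG : Z2.Flat (fun c d => Multiplicative.toAdd (g c d)) := by
    intro σ hσ c c' c'' k k' k''
    have := hg σ hσ c c' c'' k k' k''
    simp only
    rw [← toAdd_mul, this]
  have hK := toAdd_prodL g seqK
  rw [h1, toAdd_one] at hK
  have hR := toAdd_prodL g seqR
  rw [h2, toAdd_one] at hR
  obtain ⟨A, hA⟩ : ∃ A : Blk → ZMod 2, A = fun c =>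
    Z2.S (Z2.X fun c d => Multiplicative.toAdd (g c d)) (Z2.tm c) := ⟨_, rfl⟩
  have key : ∀ σ : Cell, σ ∉ Kc → ∀ c c' : Blk, inc σ c → inc σ c' →
      Multiplicative.toAdd (g c c') = A c + A c' := by
    intro σ hσ c c' k k'
    have := Z2.pair_eq hG hK.symm hR.symm hσ k k'
    rw [hA]
    exact this
  clear hA
  refine ⟨fun c => Multiplicative.ofAdd (A c), ?_⟩
  intro σ hσ c c' k k'
  apply Multiplicative.toAdd.injective
  rw [toAdd_mul, toAdd_inv, toAdd_ofAdd, toAdd_ofAdd, key σ hσ c c' k k']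
  linear_combination Z2.two_self (A c)

end Pool.Agent.Helper26.Maz
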