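import Pool.Agent.Helper1.SubComp3

/-!
# Subspace theorem project: compound systems (umbrella file)

`SubComp1`: Cauchy-Binet, compound matrices; `SubComp2`: wedge vectors and spans;
`SubComp3`: compound systems, sizes of wedge vectors.
-/
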