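import Pool.Agent.Helper10.Sub.CompDefs

set_option autoImplicit false

namespace Pool.Agent.Helper1.Sub

open Pool.Agent.Helper10.Sub Module

section algebra

variable {n k : ℕ} {R : Type*} [CommRing R]

/-- `ιMulti` of a family expressed in the standard basis of the exterior power. -/
theorem iota_eq_sum (x : Fin k → Fin n → R) :
    exteriorPower.ιMulti R k x = ∑ s : Ik (Fin n) k, wedge x s •
      exteriorPower.ιMulti R k (fun j => Pi.basisFun R (Fin n) (s.1.orderEmbOfFin s.2 j)) := by
  classical
  let B : Basis (Set.powersetCard (Fin n) k) R (⋀[R]^k (Fin n → R)) :=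
    (Pi.basisFun R (Fin n)).exteriorPower k
  have h1 := B.sum_repr (exteriorPower.ιMulti R k x)
  rw [← h1]
  let e : Set.powersetCard (Fin n) k ≃ Ik (Fin n) k := Equiv.refl _
  rw [← Equiv.sum_comp e.symm]
  refine Finset.sum_congr rfl fun s _ => ?_
  have h2 : B (e.symm s) = exteriorPower.ιMulti R k
      (fun j => Pi.basisFun R (Fin n) (s.1.orderEmbOfFin s.2 j)) := by
    rw [show B (e.symm s) = exteriorPower.ιMulti_family R k (Pi.basisFun R (Fin n)) (e.symm s)
      from exteriorPower.basis_apply R k _ _]
    rfl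
  have h3 : B.repr (exteriorPower.ιMulti R k x) (e.symm s) = wedge x s := by
    rw [show B.repr (exteriorPower.ιMulti R k x) (e.symm s) =
      exteriorPower.ιMultiDual R k (Pi.basisFun R (Fin n)) (e.symm s)
        (exteriorPower.ιMulti R k x) from exteriorPower.basis_repr_apply R k _ _ _]
    rw [exteriorPower.ιMultiDual_apply_ιMulti]
    unfold wedge
    congr 1
  rw [h2, h3]

/-- Cauchy-Binet formula. -/
theorem cauchyBinet (x y : Fin k → Fin n → R) :
    (Matrix.of fun i j => ∑ l, x i l * y j l).det = ∑ s : Ik (Fin n) k, wedge x s * wedge y s := by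
  classical
  let f : Fin k → Module.Dual R (Fin n → R) := fun j => Fintype.linearCombination R (y j)
  have hf : ∀ j v, f j v = ∑ l, v l * y j l := fun j v => by
    simp [f, Fintype.linearCombination_apply, smul_eq_mul]
  have h := exteriorPower.pairingDual_ιMulti_ιMulti f x
  rw [iota_eq_sum x, map_sum] at h
  have h4 : (Matrix.of fun i j => f j (x i)) = Matrix.of fun i j => ∑ l, x i l * y j l := by
    ext i j
    simp [hf]
  rw [h4] at h
  rw [← h]
  refine Finset.sum_congr rfl fun s _ => ?_
  rw [map_smul, smul_eq_mul, exteriorPower.pairingDual_ιMulti_ιMulti]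
  congr 1
  rw [wedge, ← Matrix.det_transpose]
  congr 1
  ext i j
  simp [hf, Pi.single_apply]

theorem compM_eq_wedge (A : Matrix (Fin n) (Fin n) R) (s t : Ik (Fin n) k) :
    compM k A s t = wedge (fun i => A (s.1.orderEmbOfFin s.2 i)) t := rfl

theorem compM_mul (A B : Matrix (Fin n) (Fin n) R) :
    compM k (A * B) = compM k A * compM k B := by
  ext s t
  rw [Matrix.mul_apply]
  have h := cauchyBinet (R := R) (fun i => A (s.1.orderEmbOfFin s.2 i))
    (fun i l => B l (t.1.orderEmbOfFin t.2 i))
  have h1 : compM k (A * B) s t = (Matrix.of fun i j => ∑ l, A (s.1.orderEmbOfFin s.2 i) l *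
      B l (t.1.orderEmbOfFin t.2 j)).det := by
    unfold compM
    congr 1
  rw [h1, h]
  refine Finset.sum_congr rfl fun u _ => ?_
  rw [compM_eq_wedge]
  congr 1
  rw [wedge, compM, ← Matrix.det_transpose]
  congr 1

theorem wedge_single (s t : Ik (Fin n) k) :
    wedge (R := R) (fun i => Pi.single (s.1.orderEmbOfFin s.2 i) 1) t = if s = t then 1 else 0 := by
  classical
  have h3 : exteriorPower.ιMultiDual R k (Pi.basisFun R (Fin n)) (t : Set.powersetCard (Fin n) k)
      (exteriorPower.ιMulti_family R k (Pi.basisFun R (Fin n)) (s : Set.powersetCard (Fin n) k)) =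
      wedge (R := R) (fun i => Pi.single (s.1.orderEmbOfFin s.2 i) 1) t := by
    rw [exteriorPower.ιMulti_family, exteriorPower.ιMultiDual_apply_ιMulti]
    unfold wedge
    congr 1
    ext i j
    simp
    rfl
  rw [← h3]
  split_ifs with h
  · subst h
    exact exteriorPower.ιMultiDual_apply_diag R k _ _
  · exact exteriorPower.ιMultiDual_apply_nondiag R k _ _ _ (Ne.symm h)

theorem compM_one : compM k (1 : Matrix (Fin n) (Fin n) R) = 1 := by
  ext s t
  rw [compM_eq_wedge, Matrix.one_apply]
  rw [← wedge_single (R := R) s t]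
  congr 1
  ext i j
  rw [Matrix.one_apply, Pi.single_apply]
  congr 1
  exact propext eq_comm

theorem compM_det_ne_zero {F : Type*} [Field F] {A : Matrix (Fin n) (Fin n) F} (h : A.det ≠ 0) :
    (compM k A).det ≠ 0 := by
  intro h0
  have h1 : compM k A * compM k A⁻¹ = 1 := by
    rw [← compM_mul, Matrix.mul_nonsing_inv _ (isUnit_iff_ne_zero.mpr h), compM_one]
  have h2 := congrArg Matrix.det h1
  rw [Matrix.det_mul, h0, zero_mul, Matrix.det_one] at h2
  exact zero_ne_one h2

theorem card_Ik : Fintype.card (Ik (Fin n) k) = n.choose k := by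
  simp [Ik]

end algebra

end Pool.Agent.Helper1.Sub
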