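import Pool.Agent.Helper1.SubComp1

set_option autoImplicit false

namespace Pool.Agent.Helper1.Sub

open Pool.Agent.Helper10.Sub Module

section field

variable {n k : ℕ} {F : Type*} [Field F]

theorem iota_ne_zero_iff (x : Fin k → Fin n → F) :
    exteriorPower.ιMulti F k x ≠ 0 ↔ LinearIndependent F x := by
  constructor
  · intro h
    by_contra hx
    exact h (AlternatingMap.map_linearDependent _ x hx)
  · intro hx h0
    have h1 := (exteriorPower.ιMulti_family_linearIndependent_field k hx).ne_zero
      (Set.powersetCard.ofCard (s := (Finset.univ : Finset (Fin k))) (by simp))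
    apply h1
    rw [exteriorPower.ιMulti_family]
    rw [← h0]
    congr 1
    funext j
    simp only [Function.comp_apply]
    congr 1
    rw [Set.powersetCard.ofFinEmbEquiv_symm_apply]
    have : (Finset.univ : Finset (Fin k)).orderEmbOfFin (by simp) = OrderEmbedding.ofStrictMono id strictMono_id := by
      symm
      apply Finset.orderEmbOfFin_unique'
      intro x; simp
    exact DFunLike.congr_fun this j

theorem wedge_ne_zero (x : Fin k → Fin n → F) (hx : LinearIndependent F x) : wedge x ≠ 0 := by
  intro h0
  have := (iota_ne_zero_iff x).mpr hx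
  apply this
  rw [iota_eq_sum, h0]
  simp

theorem wedge_indep (x : Fin n → Fin n → F) (hx : LinearIndependent F x) :
    LinearIndependent F
      (fun J : Ik (Fin n) k => wedge (fun i => x (J.1.orderEmbOfFin J.2 i))) := by
  have h1 : (Matrix.of x).det ≠ 0 := by
    intro h0
    have h2 := Matrix.linearIndependent_rows_iff_isUnit (A := Matrix.of x)
    have h3 : LinearIndependent F (Matrix.of x).row := hx
    rw [h2, Matrix.isUnit_iff_isUnit_det, h0] at h3
    exact not_isUnit_zero h3
  have h2 := compM_det_ne_zero (k := k) h1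
  have h3 : LinearIndependent F (compM k (Matrix.of x)).row := by
    rw [Matrix.linearIndependent_rows_iff_isUnit, Matrix.isUnit_iff_isUnit_det]
    exact isUnit_iff_ne_zero.mpr h2
  exact h3

theorem span_le_of_wedge (x x' : Fin k → Fin n → F) (hx' : LinearIndependent F x') (c : F)
    (hc : c ≠ 0) (h : wedge x = c • wedge x') :
    Submodule.span F (Set.range x) ≤ Submodule.span F (Set.range x') := by
  intro v hv
  by_contra hv'
  have h1 : exteriorPower.ιMulti F k x = c • exteriorPower.ιMulti F k x' := by
    rw [iota_eq_sum x, iota_eq_sum x', h, Finset.smul_sum]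
    refine Finset.sum_congr rfl fun s _ => ?_
    rw [Pi.smul_apply, smul_eq_mul, mul_smul]
  have h2 : ExteriorAlgebra.ιMulti F k x = c • ExteriorAlgebra.ιMulti F k x' := by
    have := congrArg (fun z : ⋀[F]^k (Fin n → F) => (z : ExteriorAlgebra F (Fin n → F))) h1
    simpa using this
  have h3 : ExteriorAlgebra.ιMulti F (k + 1) (Fin.cons v x : Fin (k + 1) → Fin n → F) =
      c • ExteriorAlgebra.ιMulti F (k + 1) (Fin.cons v x' : Fin (k + 1) → Fin n → F) := by
    rw [ExteriorAlgebra.ιMulti_succ_apply, ExteriorAlgebra.ιMulti_succ_apply]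
    have e1 : Matrix.vecTail (Fin.cons v x : Fin (k + 1) → Fin n → F) = x := rfl
    have e2 : Matrix.vecTail (Fin.cons v x' : Fin (k + 1) → Fin n → F) = x' := rfl
    rw [e1, e2, Fin.cons_zero, Fin.cons_zero, h2, mul_smul_comm]
  have h4 : ¬ LinearIndependent F (Fin.cons v x : Fin (k + 1) → Fin n → F) := by
    intro hli
    rw [linearIndependent_finCons] at hli
    exact hli.2 hv
  have h5 : LinearIndependent F (Fin.cons v x' : Fin (k + 1) → Fin n → F) := by
    rw [linearIndependent_finCons]
    exact ⟨hx', hv'⟩
  have h6 := (iota_ne_zero_iff _).mpr h5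
  have h7 : ExteriorAlgebra.ιMulti F (k + 1) (Fin.cons v x : Fin (k + 1) → Fin n → F) = 0 :=
    AlternatingMap.map_linearDependent _ _ h4
  rw [h7] at h3
  apply h6
  apply Subtype.ext
  have h8 := h3.symm
  rw [smul_eq_zero] at h8
  rcases h8 with h8 | h8
  · exact absurd h8 hc
  · simpa using h8

theorem span_eq_of_wedge (x x' : Fin k → Fin n → F) (hx : LinearIndependent F x)
    (hx' : LinearIndependent F x') (c : F) (h : wedge x = c • wedge x') :
    Submodule.span F (Set.range x) = Submodule.span F (Set.range x') := by
  have hc : c ≠ 0 := by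
    rintro rfl
    exact wedge_ne_zero x hx (by simpa using h)
  refine le_antisymm (span_le_of_wedge x x' hx' c hc h) ?_
  refine span_le_of_wedge x' x hx c⁻¹ (inv_ne_zero hc) ?_
  rw [h, smul_smul, inv_mul_cancel₀ hc, one_smul]

end field

end Pool.Agent.Helper1.Sub
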