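import Pool.Agent.Helper1.SubComp2

set_option autoImplicit false

namespace Pool.Agent.Helper1.Sub

open Pool.Agent.Helper10.Sub Module

/-! ### The ring `ℤ[1/P]` -/

/-- `ℤ[1/P]` as a subring of `ℚ`. -/
def pSub (P : ℕ) : Subring ℚ where
  carrier := {x | PInt P x}
  mul_mem' := by
    rintro x y ⟨k, z, hz⟩ ⟨l, w, hw⟩
    refine ⟨k + l, z * w, ?_⟩
    rw [pow_add]
    push_cast
    rw [← hz, ← hw]
    ring
  one_mem' := ⟨0, 1, by simp⟩
  add_mem' := by
    rintro x y ⟨k, z, hz⟩ ⟨l, w, hw⟩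
    refine ⟨k + l, z * P ^ l + w * P ^ k, ?_⟩
    rw [pow_add]
    push_cast
    rw [← hz, ← hw]
    ring
  zero_mem' := ⟨0, 0, by simp⟩
  neg_mem' := by
    rintro x ⟨k, z, hz⟩
    refine ⟨k, -z, ?_⟩
    push_cast
    rw [← hz]
    ring

theorem mem_pSub {P : ℕ} {x : ℚ} : x ∈ pSub P ↔ PInt P x := Iff.rfl

theorem det_PInt {κ : Type*} [Fintype κ] [DecidableEq κ] {P : ℕ} {A : Matrix κ κ ℚ}
    (h : ∀ i j, PInt P (A i j)) : PInt P A.det := by
  rw [← mem_pSub, Matrix.det_apply]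
  refine (pSub P).sum_mem fun σ _ => ?_
  rw [Units.smul_def]
  exact (pSub P).zsmul_mem ((pSub P).prod_mem fun i _ => h _ _) _

theorem PVec_wedge {n k : ℕ} {P : ℕ} (x : Fin k → Fin n → ℚ) (h : ∀ i, PVec P (x i)) :
    PVec P (wedge (ι := Fin n) x) := fun _ => det_PInt fun i _ => h i _

/-! ### Determinants and norms -/

/-- Trivial bound for a determinant over a normed field. -/
theorem norm_det_le {κ : Type*} [Fintype κ] [DecidableEq κ] {F : Type*} [NormedField F]
    (M : Matrix κ κ F) (r : κ → ℝ) (c : κ → ℝ)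
    (hM : ∀ i j, ‖M i j‖ ≤ r i * c j) :
    ‖M.det‖ ≤ (Fintype.card κ).factorial * ((∏ i, r i) * ∏ j, c j) := by
  rw [Matrix.det_apply]
  refine (norm_sum_le _ _).trans ?_
  have h1 : ∀ σ : Equiv.Perm κ, ‖Equiv.Perm.sign σ • ∏ i, M (σ i) i‖ ≤ (∏ i, r i) * ∏ j, c j := by
    intro σ
    have h2 : ‖Equiv.Perm.sign σ • ∏ i, M (σ i) i‖ = ∏ i, ‖M (σ i) i‖ := by
      rcases Int.units_eq_one_or (Equiv.Perm.sign σ) with h | h <;> rw [h] <;>
        simp [norm_prod]
    rw [h2]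
    calc ∏ i, ‖M (σ i) i‖ ≤ ∏ i, (r (σ i) * c i) :=
          Finset.prod_le_prod (fun i _ => norm_nonneg _) fun i _ => hM _ _
      _ = (∏ i, r (σ i)) * ∏ i, c i := Finset.prod_mul_distrib
      _ = (∏ i, r i) * ∏ j, c j := by rw [Equiv.prod_comp σ r]
  calc ∑ σ : Equiv.Perm κ, ‖Equiv.Perm.sign σ • ∏ i, M (σ i) i‖
      ≤ ∑ _σ : Equiv.Perm κ, ((∏ i, r i) * ∏ j, c j) := Finset.sum_le_sum fun σ _ => h1 σ
    _ = _ := by
      rw [Finset.sum_const, Finset.card_univ, Fintype.card_perm, nsmul_eq_mul]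

variable {n k : ℕ} {T : Type} [Fintype T] {p : T → ℕ} [∀ t, Fact (p t).Prime]

/-- The compound system. -/
noncomputable def comp (S : Sys (Fin n) T p) (k : ℕ) : Sys (Ik (Fin n) k) T p where
  A := compM k S.A
  A' := fun t => compM k (S.A' t)
  algA := fun s t => det_isAlgebraic fun _ _ => S.algA _ _
  algA' := fun t s u => det_isAlgebraic fun _ _ => S.algA' t _ _
  detA := compM_det_ne_zero S.detA
  detA' := fun t => compM_det_ne_zero (S.detA' t)

/-- Product weights. -/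
noncomputable def cw (a : Fin n → ℝ) (s : Ik (Fin n) k) : ℝ := ∏ i ∈ s.1, a i

theorem map_wedge {R R' : Type*} [CommRing R] [CommRing R'] (f : R →+* R')
    (x : Fin k → Fin n → R) (s : Ik (Fin n) k) :
    f (wedge x s) = wedge (fun i j => f (x i j)) s := by
  unfold wedge
  rw [RingHom.map_det]
  congr 1

theorem compM_mulVec_wedge {R : Type*} [CommRing R] (A : Matrix (Fin n) (Fin n) R)
    (x : Fin k → Fin n → R) (s : Ik (Fin n) k) :
    ∑ t, compM k A s t * wedge x t =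
      (Matrix.of fun i j => ∑ l, A (s.1.orderEmbOfFin s.2 j) l * x i l).det := by
  have h := cauchyBinet x (fun i => A (s.1.orderEmbOfFin s.2 i))
  rw [show (Matrix.of fun i j => ∑ l, A (s.1.orderEmbOfFin s.2 j) l * x i l) =
    Matrix.of fun i j => ∑ l, x i l * A (s.1.orderEmbOfFin s.2 j) l from ?_, h]
  · refine Finset.sum_congr rfl fun t _ => ?_
    rw [compM_eq_wedge, mul_comm]
  · ext i j
    simp [mul_comm]

theorem L_wedge (S : Sys (Fin n) T p) (x : Fin k → Fin n → ℚ) (s : Ik (Fin n) k) :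
    (comp S k).L (wedge x) s =
      (Matrix.of fun i j => S.L (x i) (s.1.orderEmbOfFin s.2 j)).det := by
  unfold Sys.L
  rw [← compM_mulVec_wedge]
  refine Finset.sum_congr rfl fun t _ => ?_
  congr 1
  exact map_wedge (Rat.castHom ℝ) x t

theorem L'_wedge (S : Sys (Fin n) T p) (t : T) (x : Fin k → Fin n → ℚ) (s : Ik (Fin n) k) :
    (comp S k).L' t (wedge x) s =
      (Matrix.of fun i j => S.L' t (x i) (s.1.orderEmbOfFin s.2 j)).det := by
  unfold Sys.L'
  rw [← compM_mulVec_wedge]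
  refine Finset.sum_congr rfl fun u _ => ?_
  congr 1
  exact map_wedge (Rat.castHom ℚ_[p t]) x u

theorem prod_orderEmb (a : Fin n → ℝ) (s : Ik (Fin n) k) :
    ∏ j, a (s.1.orderEmbOfFin s.2 j) = cw a s := by
  unfold cw
  rw [← Finset.prod_coe_sort s.1 a]
  exact Fintype.prod_equiv (s.1.orderIsoOfFin s.2).toEquiv _ _ fun j => rfl

theorem wedge_det_bound {F : Type*} [NormedField F] (a : Fin n → ℝ) (ha : ∀ i, 0 < a i)
    (L : Fin k → Fin n → F) (N : Fin k → ℝ) (hN : ∀ i j, ‖L i j‖ / a j ≤ N i)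
    (s : Ik (Fin n) k) :
    ‖(Matrix.of fun i j => L i (s.1.orderEmbOfFin s.2 j)).det‖ / cw a s ≤
      k.factorial * ∏ i, N i := by
  have hcw : 0 < cw a s := Finset.prod_pos fun i _ => ha i
  rw [div_le_iff₀ hcw]
  have h := norm_det_le (Matrix.of fun i j => L i (s.1.orderEmbOfFin s.2 j)) N
    (fun j => a (s.1.orderEmbOfFin s.2 j)) (fun i j => by
      rw [Matrix.of_apply, ← div_le_iff₀ (ha _)]
      exact hN _ _)
  rw [Fintype.card_fin, prod_orderEmb] at h
  linarith [h, mul_assoc (k.factorial : ℝ) (∏ i, N i) (cw a s)]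

theorem Ninf_wedge (S : Sys (Fin n) T p) (a : Fin n → ℝ) (ha : ∀ i, 0 < a i)
    (x : Fin k → Fin n → ℚ) :
    (comp S k).Ninf (cw a) (wedge x) ≤ k.factorial * ∏ i, S.Ninf a (x i) := by
  have h0 : 0 ≤ (k.factorial : ℝ) * ∏ i, S.Ninf a (x i) :=
    mul_nonneg (Nat.cast_nonneg _) (Finset.prod_nonneg fun i _ => norm_nonneg _)
  unfold Sys.Ninf at *
  rw [pi_norm_le_iff_of_nonneg h0]
  intro s
  rw [L_wedge, norm_div, Real.norm_of_nonneg (le_of_lt (Finset.prod_pos fun i _ => ha i) :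
    0 ≤ cw a s)]
  refine wedge_det_bound a ha (fun i j => S.L (x i) j) _ (fun i j => ?_) s
  have h1 := norm_le_pi_norm (fun j => S.L (x i) j / a j) j
  rw [norm_div, Real.norm_of_nonneg (ha j).le] at h1
  exact h1

theorem Np_wedge (S : Sys (Fin n) T p) (t : T) (a : Fin n → ℝ) (ha : ∀ i, 0 < a i)
    (x : Fin k → Fin n → ℚ) :
    (comp S k).Np t (cw a) (wedge x) ≤ k.factorial * ∏ i, S.Np t a (x i) := by
  have h0 : 0 ≤ (k.factorial : ℝ) * ∏ i, S.Np t a (x i) :=
    mul_nonneg (Nat.cast_nonneg _) (Finset.prod_nonneg fun i _ => norm_nonneg _)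
  unfold Sys.Np at *
  rw [pi_norm_le_iff_of_nonneg h0]
  intro s
  have hcw : 0 ≤ cw a s := (Finset.prod_pos fun i _ => ha i).le
  rw [L'_wedge, Real.norm_of_nonneg (div_nonneg (norm_nonneg _) hcw)]
  refine wedge_det_bound a ha (fun i j => S.L' t (x i) j) _ (fun i j => ?_) s
  have h1 := norm_le_pi_norm (fun j => ‖S.L' t (x i) j‖ / a j) j
  rw [Real.norm_of_nonneg (div_nonneg (norm_nonneg _) (ha j).le)] at h1
  exact h1

theorem N_wedge (S : Sys (Fin n) T p) (k : ℕ) : ∃ C : ℝ, 0 < C ∧ ∀ (a : Fin n → ℝ)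
    (a' : T → Fin n → ℝ), (∀ i, 0 < a i) → (∀ t i, 0 < a' t i) → ∀ x : Fin k → Fin n → ℚ,
    (comp S k).N (cw a) (fun t => cw (a' t)) (wedge x) ≤ C * ∏ i, S.N a a' (x i) := by
  refine ⟨(k.factorial : ℝ) * ∏ _t : T, (k.factorial : ℝ),
    mul_pos (Nat.cast_pos.mpr k.factorial_pos)
      (Finset.prod_pos fun _ _ => Nat.cast_pos.mpr k.factorial_pos), ?_⟩
  intro a a' ha ha' x
  unfold Sys.N
  have h1 := Ninf_wedge S a ha x
  have h2 : ∏ t, (comp S k).Np t (cw (a' t)) (wedge x) ≤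
      ∏ t, ((k.factorial : ℝ) * ∏ i, S.Np t (a' t) (x i)) :=
    Finset.prod_le_prod (fun t _ => norm_nonneg _) fun t _ => Np_wedge S t (a' t) (ha' t) x
  calc (comp S k).Ninf (cw a) (wedge x) * ∏ t, (comp S k).Np t (cw (a' t)) (wedge x)
      ≤ (k.factorial * ∏ i, S.Ninf a (x i)) *
        ∏ t, ((k.factorial : ℝ) * ∏ i, S.Np t (a' t) (x i)) := by
        refine mul_le_mul h1 h2 (Finset.prod_nonneg fun t _ => norm_nonneg _) ?_
        exact mul_nonneg (Nat.cast_nonneg _) (Finset.prod_nonneg fun i _ => norm_nonneg _)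
    _ = _ := by
        rw [Finset.prod_mul_distrib, Finset.prod_comm, Finset.prod_mul_distrib]
        ring

theorem card_filter_mem (hk : 1 ≤ k) (i : Fin n) :
    (Finset.univ.filter fun s : Ik (Fin n) k => i ∈ s.1).card = (n - 1).choose (k - 1) := by
  classical
  have h1 : (Finset.univ.filter fun s : Ik (Fin n) k => i ∈ s.1).card =
      ((Finset.univ.erase i).powersetCard (k - 1)).card := by
    refine Finset.card_bij (fun s _ => s.1.erase i) ?_ ?_ ?_
    · intro s hs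
      rw [Finset.mem_filter] at hs
      rw [Finset.mem_powersetCard]
      refine ⟨Finset.erase_subset_erase _ (Finset.subset_univ _), ?_⟩
      rw [Finset.card_erase_of_mem hs.2, s.2]
    · intro s hs t ht h
      rw [Finset.mem_filter] at hs ht
      apply Subtype.ext
      rw [← Finset.insert_erase hs.2, ← Finset.insert_erase ht.2, h]
    · intro u hu
      rw [Finset.mem_powersetCard] at hu
      have hi : i ∉ u := fun h => by simpa using hu.1 h
      refine ⟨⟨insert i u, by rw [Finset.card_insert_of_notMem hi, hu.2]; omega⟩, ?_, ?_⟩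
      · rw [Finset.mem_filter]
        exact ⟨Finset.mem_univ _, Finset.mem_insert_self _ _⟩
      · exact Finset.erase_insert hi
  rw [h1, Finset.card_powersetCard, Finset.card_erase_of_mem (Finset.mem_univ _),
    Finset.card_univ, Fintype.card_fin]

theorem prod_cw (hk : 1 ≤ k) (a : Fin n → ℝ) :
    ∏ s : Ik (Fin n) k, cw a s = (∏ i, a i) ^ ((n - 1).choose (k - 1)) := by
  classical
  unfold cw
  have h1 : ∀ s : Ik (Fin n) k, ∏ i ∈ s.1, a i = ∏ i, if i ∈ s.1 then a i else 1 := by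
    intro s
    rw [Finset.prod_ite_mem, Finset.univ_inter]
  simp_rw [h1]
  rw [Finset.prod_comm, ← Finset.prod_pow]
  refine Finset.prod_congr rfl fun i _ => ?_
  rw [Finset.prod_ite, Finset.prod_const, Finset.prod_const_one, mul_one, card_filter_mem hk]

theorem wprod_cw (hk : 1 ≤ k) (_hkn : k ≤ n) (a : Fin n → ℝ) (a' : T → Fin n → ℝ) :
    wprod (cw a : Ik (Fin n) k → ℝ) (fun t => cw (a' t)) =
      (wprod a a') ^ ((n - 1).choose (k - 1)) := by
  unfold wprod
  rw [prod_cw hk, mul_pow, ← Finset.prod_pow Finset.univ _ (fun t => ∏ i, a' t i)]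
  congr 1
  exact Finset.prod_congr rfl fun t _ => prod_cw hk (a' t)

end Pool.Agent.Helper1.Sub
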