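import Pool.Agent.Helper1.SubMINKL

set_option autoImplicit false

namespace Pool.Agent.Helper1.Sub

open Pool.Agent.Helper10.Sub Module

/-- Bound for the entries of the adjugate. -/
theorem norm_adjugate_le {κ : Type*} [Fintype κ] [DecidableEq κ] {F : Type*} [NormedField F]
    (M : Matrix κ κ F) (a : κ → ℝ) (ha : ∀ i, 0 < a i) (N : κ → ℝ) (hN : ∀ i, 0 ≤ N i)
    (hM : ∀ i j, ‖M i j‖ ≤ a i * N j) (i j : κ) :
    ‖M.adjugate j i‖ * a i * N j ≤ (Fintype.card κ).factorial * ((∏ i, a i) * ∏ j, N j) := by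
  have hR : 0 ≤ ((Fintype.card κ).factorial : ℝ) * ((∏ i, a i) * ∏ j, N j) :=
    mul_nonneg (Nat.cast_nonneg _) (mul_nonneg (Finset.prod_nonneg fun i _ => (ha i).le)
      (Finset.prod_nonneg fun i _ => hN i))
  rcases (hN j).eq_or_lt with h0 | h0
  · rw [← h0, mul_zero]
    exact hR
  rw [Matrix.adjugate_apply]
  have h := norm_det_le (M.updateRow i (Pi.single j 1)) (Function.update a i (N j)⁻¹) N (by
    intro k l
    rw [Matrix.updateRow_apply]
    by_cases hk : k = i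
    · subst hk
      rw [if_pos rfl, Function.update_self]
      by_cases hl : l = j
      · subst hl
        rw [Pi.single_eq_same, norm_one, inv_mul_cancel₀ h0.ne']
      · rw [Pi.single_eq_of_ne hl, norm_zero]
        exact mul_nonneg (inv_nonneg.mpr h0.le) (hN l)
    · rw [if_neg hk, Function.update_of_ne hk]
      exact hM k l)
  rw [Finset.prod_update_of_mem (Finset.mem_univ i)] at h
  have h1 : ∏ k, a k = a i * ∏ k ∈ Finset.univ \ {i}, a k := by
    rw [Finset.prod_eq_mul_prod_sdiff_singleton_of_mem (Finset.mem_univ i)]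
  have h2 : 0 < a i * N j := mul_pos (ha i) h0
  calc ‖(M.updateRow i (Pi.single j 1)).det‖ * a i * N j
      = ‖(M.updateRow i (Pi.single j 1)).det‖ * (a i * N j) := by ring
    _ ≤ (Fintype.card κ).factorial * (((N j)⁻¹ * ∏ x ∈ Finset.univ \ {i}, a x) * ∏ j, N j) *
        (a i * N j) := mul_le_mul_of_nonneg_right h h2.le
    _ = (Fintype.card κ).factorial * ((a i * ∏ x ∈ Finset.univ \ {i}, a x) * ∏ j, N j) *
        ((N j)⁻¹ * N j) := by ring
    _ = _ := by rw [inv_mul_cancel₀ h0.ne', mul_one, ← h1]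

variable {ι : Type} [Fintype ι] [DecidableEq ι] {T : Type} [Fintype T] {p : T → ℕ}
  [∀ t, Fact (p t).Prime]

/-- The dual vectors: rows of the adjugate of the matrix with columns `x l`. -/
noncomputable def dvec (x : ι → ι → ℚ) (j : ι) : ι → ℚ :=
  fun k => (Matrix.of fun i l => x l i).adjugate j k

theorem dual_entry {F : Type*} [Field F] [CharZero F] (A : Matrix ι ι F) (x : ι → ι → ℚ)
    (j i : ι) :
    ∑ k, (A⁻¹).transpose i k * ((dvec x j k : ℚ) : F) =
      (A.det)⁻¹ * (Matrix.of fun i l => ∑ k, A i k * ((x l k : ℚ) : F)).adjugate j i := by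
  set X : Matrix ι ι ℚ := Matrix.of fun i l => x l i with hX
  have hcast : ∀ k, ((dvec x j k : ℚ) : F) = (X.map (Rat.castHom F)).adjugate j k := by
    intro k
    have h := RingHom.map_adjugate (Rat.castHom F) X
    have h2 := congrFun (congrFun h j) k
    exact h2
  have hM : (Matrix.of fun i l => ∑ k, A i k * ((x l k : ℚ) : F)) = A * X.map (Rat.castHom F) := by
    ext i l
    rfl
  rw [hM, Matrix.adjugate_mul_distrib, Matrix.mul_apply, Finset.mul_sum]
  refine Finset.sum_congr rfl fun k _ => ?_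
  rw [hcast, Matrix.transpose_apply, Matrix.inv_def, Matrix.smul_apply, smul_eq_mul,
    Ring.inverse_eq_inv']
  ring

omit [Fintype T] in
theorem dual_Ninf_le (S : Sys ι T p) (a : ι → ℝ) (ha : ∀ i, 0 < a i) (x : ι → ι → ℚ) (j : ι) :
    S.dual.Ninf (fun i => (a i)⁻¹) (dvec x j) * S.Ninf a (x j) ≤
      ((Fintype.card ι).factorial * ‖S.A.det‖⁻¹) * ((∏ i, a i) * ∏ l, S.Ninf a (x l)) := by
  have hR : 0 ≤ ((Fintype.card ι).factorial * ‖S.A.det‖⁻¹) *
      ((∏ i, a i) * ∏ l, S.Ninf a (x l)) :=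
    mul_nonneg (mul_nonneg (Nat.cast_nonneg _) (inv_nonneg.mpr (norm_nonneg _)))
      (mul_nonneg (Finset.prod_nonneg fun i _ => (ha i).le)
      (Finset.prod_nonneg fun i _ => norm_nonneg _))
  have h00 : 0 ≤ S.Ninf a (x j) := norm_nonneg _
  rcases h00.eq_or_lt with h0 | h0
  · rw [← h0, mul_zero]
    exact hR
  rw [← le_div_iff₀ h0]
  change ‖fun i => S.dual.L (dvec x j) i / (a i)⁻¹‖ ≤ _
  rw [pi_norm_le_iff_of_nonneg (div_nonneg hR h0.le)]
  intro i
  have h1 := norm_adjugate_le (Matrix.of fun i l => S.L (x l) i) a ha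
    (fun l => S.Ninf a (x l)) (fun l => norm_nonneg _) (fun i l => norm_L_le S a ha (x l) i) i j
  have h2 : S.dual.L (dvec x j) i = (S.A.det)⁻¹ *
      (Matrix.of fun i l => S.L (x l) i).adjugate j i := dual_entry S.A x j i
  rw [h2, div_inv_eq_mul, norm_mul, norm_mul, norm_inv, Real.norm_of_nonneg (ha i).le,
    le_div_iff₀ h0]
  have h3 : 0 ≤ ‖S.A.det‖⁻¹ := inv_nonneg.mpr (norm_nonneg _)
  calc ‖S.A.det‖⁻¹ * ‖(Matrix.of fun i l => S.L (x l) i).adjugate j i‖ * a i * S.Ninf a (x j)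
      = ‖S.A.det‖⁻¹ * (‖(Matrix.of fun i l => S.L (x l) i).adjugate j i‖ * a i *
        S.Ninf a (x j)) := by ring
    _ ≤ ‖S.A.det‖⁻¹ * ((Fintype.card ι).factorial *
        ((∏ i, a i) * ∏ l, S.Ninf a (x l))) := mul_le_mul_of_nonneg_left h1 h3
    _ = _ := by ring

omit [Fintype T] in
theorem dual_Np_le (S : Sys ι T p) (t : T) (a : ι → ℝ) (ha : ∀ i, 0 < a i) (x : ι → ι → ℚ)
    (j : ι) :
    S.dual.Np t (fun i => (a i)⁻¹) (dvec x j) * S.Np t a (x j) ≤
      ((Fintype.card ι).factorial * ‖(S.A' t).det‖⁻¹) * ((∏ i, a i) * ∏ l, S.Np t a (x l)) := by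
  have hR : 0 ≤ ((Fintype.card ι).factorial * ‖(S.A' t).det‖⁻¹) *
      ((∏ i, a i) * ∏ l, S.Np t a (x l)) :=
    mul_nonneg (mul_nonneg (Nat.cast_nonneg _) (inv_nonneg.mpr (norm_nonneg _)))
      (mul_nonneg (Finset.prod_nonneg fun i _ => (ha i).le)
      (Finset.prod_nonneg fun i _ => norm_nonneg _))
  have h00 : 0 ≤ S.Np t a (x j) := norm_nonneg _
  rcases h00.eq_or_lt with h0 | h0
  · rw [← h0, mul_zero]
    exact hR
  rw [← le_div_iff₀ h0]
  change ‖fun i => ‖S.dual.L' t (dvec x j) i‖ / (a i)⁻¹‖ ≤ _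
  rw [pi_norm_le_iff_of_nonneg (div_nonneg hR h0.le)]
  intro i
  have h1 := norm_adjugate_le (Matrix.of fun i l => S.L' t (x l) i) a ha
    (fun l => S.Np t a (x l)) (fun l => norm_nonneg _) (fun i l => norm_L'_le S t a ha (x l) i) i j
  have h2 : S.dual.L' t (dvec x j) i = ((S.A' t).det)⁻¹ *
      (Matrix.of fun i l => S.L' t (x l) i).adjugate j i := dual_entry (S.A' t) x j i
  rw [h2, div_inv_eq_mul, norm_mul, norm_norm, norm_mul, norm_inv,
    Real.norm_of_nonneg (ha i).le, le_div_iff₀ h0]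
  have h3 : 0 ≤ ‖(S.A' t).det‖⁻¹ := inv_nonneg.mpr (norm_nonneg _)
  calc ‖(S.A' t).det‖⁻¹ * ‖(Matrix.of fun i l => S.L' t (x l) i).adjugate j i‖ * a i *
        S.Np t a (x j)
      = ‖(S.A' t).det‖⁻¹ * (‖(Matrix.of fun i l => S.L' t (x l) i).adjugate j i‖ * a i *
        S.Np t a (x j)) := by ring
    _ ≤ ‖(S.A' t).det‖⁻¹ * ((Fintype.card ι).factorial *
        ((∏ i, a i) * ∏ l, S.Np t a (x l))) := mul_le_mul_of_nonneg_left h1 h3
    _ = _ := by ring

theorem dvec_li {x : ι → ι → ℚ} (hx : LinearIndependent ℚ x) :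
    LinearIndependent ℚ (dvec x) := by
  have h1 := det_ne_zero_of_li hx
  have h2 : (Matrix.of fun i l => x l i).det ≠ 0 := by
    rw [← Matrix.det_transpose]
    exact h1
  have h3 : IsUnit (Matrix.of fun i l => x l i).adjugate := by
    rw [Matrix.isUnit_iff_isUnit_det, Matrix.det_adjugate]
    exact (isUnit_iff_ne_zero.mpr h2).pow _
  rw [← Matrix.linearIndependent_rows_iff_isUnit] at h3
  exact h3

theorem dvec_orth (x : ι → ι → ℚ) {j l : ι} (hjl : j ≠ l) : ∑ i, dvec x j i * x l i = 0 := by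
  have h := congrFun (congrFun (Matrix.adjugate_mul (Matrix.of fun i l => x l i)) j) l
  rw [Matrix.mul_apply, Matrix.smul_apply, Matrix.one_apply_ne hjl, smul_zero] at h
  exact h

theorem dvec_PVec {P : ℕ} {x : ι → ι → ℚ} (hx : ∀ j, PVec P (x j)) (j : ι) :
    PVec P (dvec x j) := by
  intro k
  unfold dvec
  rw [Matrix.adjugate_apply]
  refine det_PInt fun a b => ?_
  rw [Matrix.updateRow_apply]
  split_ifs
  · rw [Pi.single_apply]
    split_ifs
    · exact (pSub P).one_mem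
    · exact (pSub P).zero_mem
  · exact hx b a

/-- DUAL, for families indexed by `ι`. -/
theorem dualMin' (S : Sys ι T p) : ∃ C : ℝ, 0 < C ∧
    ∀ (a : ι → ℝ) (a' : T → ι → ℝ), (∀ i, 0 < a i) → (∀ t i, 0 < a' t i) →
    ∀ (x : ι → ι → ℚ) (j : ι),
      S.dual.N (fun i => (a i)⁻¹) (fun t i => (a' t i)⁻¹) (dvec x j) * S.N a a' (x j) ≤
        C * (∏ l, S.N a a' (x l)) * wprod a a' := by
  set F : ℝ := ((Fintype.card ι).factorial : ℝ) with hF
  have hF0 : 0 < F := Nat.cast_pos.mpr (Nat.factorial_pos _)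
  refine ⟨(F * ‖S.A.det‖⁻¹) * ∏ t, (F * ‖(S.A' t).det‖⁻¹),
    mul_pos (mul_pos hF0 (inv_pos.mpr (norm_pos_iff.mpr S.detA)))
      (Finset.prod_pos fun t _ => mul_pos hF0 (inv_pos.mpr (norm_pos_iff.mpr (S.detA' t)))), ?_⟩
  intro a a' ha ha' x j
  have h1 := dual_Ninf_le S a ha x j
  have h2 := fun t => dual_Np_le S t (a' t) (ha' t) x j
  have h3 : (S.dual.Ninf (fun i => (a i)⁻¹) (dvec x j) * S.Ninf a (x j)) *
      ∏ t, (S.dual.Np t (fun i => (a' t i)⁻¹) (dvec x j) * S.Np t (a' t) (x j)) ≤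
      ((F * ‖S.A.det‖⁻¹) * ((∏ i, a i) * ∏ l, S.Ninf a (x l))) *
      ∏ t, ((F * ‖(S.A' t).det‖⁻¹) * ((∏ i, a' t i) * ∏ l, S.Np t (a' t) (x l))) := by
    refine mul_le_mul h1 (Finset.prod_le_prod (fun t _ => mul_nonneg (norm_nonneg _)
      (norm_nonneg _)) fun t _ => h2 t) (Finset.prod_nonneg fun t _ => mul_nonneg (norm_nonneg _)
      (norm_nonneg _)) ?_
    exact le_trans (mul_nonneg (norm_nonneg _) (norm_nonneg _)) h1
  have h4 : ∏ l, S.N a a' (x l) = (∏ l, S.Ninf a (x l)) * ∏ t, ∏ l, S.Np t (a' t) (x l) := by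
    unfold Sys.N
    rw [Finset.prod_mul_distrib, Finset.prod_comm]
  calc S.dual.N (fun i => (a i)⁻¹) (fun t i => (a' t i)⁻¹) (dvec x j) * S.N a a' (x j)
      = (S.dual.Ninf (fun i => (a i)⁻¹) (dvec x j) * S.Ninf a (x j)) *
      ∏ t, (S.dual.Np t (fun i => (a' t i)⁻¹) (dvec x j) * S.Np t (a' t) (x j)) := by
        unfold Sys.N
        rw [Finset.prod_mul_distrib]
        ring
    _ ≤ _ := h3
    _ = _ := by
        have h5 : ∏ t, ((F * ‖(S.A' t).det‖⁻¹) * ((∏ i, a' t i) * ∏ l, S.Np t (a' t) (x l))) =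
            (∏ t, (F * ‖(S.A' t).det‖⁻¹)) * ((∏ t, ∏ i, a' t i) *
              ∏ t, ∏ l, S.Np t (a' t) (x l)) := by
          rw [Finset.prod_mul_distrib]
          congr 1
          rw [Finset.prod_mul_distrib]
        rw [h4, h5]
        unfold wprod
        ring

/-- DUAL -/
theorem dualMin (S : Sys ι T p) (_hι : 1 ≤ Fintype.card ι) : ∃ C : ℝ, 0 < C ∧
    ∀ (a : ι → ℝ) (a' : T → ι → ℝ), (∀ i, 0 < a i) → (∀ t i, 0 < a' t i) →
    ∀ x : Fin (Fintype.card ι) → ι → ℚ, LinearIndependent ℚ x → (∀ j, PVec (pprod p) (x j)) →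
    ∃ y : Fin (Fintype.card ι) → ι → ℚ, LinearIndependent ℚ y ∧ (∀ j, PVec (pprod p) (y j)) ∧
      (∀ j l, j ≠ l → ∑ i, y j i * x l i = 0) ∧
      ∀ j, S.dual.N (fun i => (a i)⁻¹) (fun t i => (a' t i)⁻¹) (y j) * S.N a a' (x j) ≤
        C * (∏ l, S.N a a' (x l)) * wprod a a' := by
  obtain ⟨C, hC, h⟩ := dualMin' S
  refine ⟨C, hC, ?_⟩
  intro a a' ha ha' x hx hxP
  set e : Fin (Fintype.card ι) ≃ ι := (Fintype.equivFin ι).symm with he
  set x' : ι → ι → ℚ := fun i => x (e.symm i) with hx'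
  have hli : LinearIndependent ℚ x' := hx.comp e.symm e.symm.injective
  refine ⟨fun j => dvec x' (e j), (dvec_li hli).comp e e.injective,
    fun j => dvec_PVec (fun i => hxP _) _, ?_, ?_⟩
  · intro j l hjl
    have h1 := dvec_orth x' (j := e j) (l := e l) (fun h => hjl (e.injective h))
    simpa [hx'] using h1
  · intro j
    have h1 := h a a' ha ha' x' (e j)
    have h2 : x' (e j) = x j := by simp [hx']
    have h3 : ∏ l, S.N a a' (x' l) = ∏ l, S.N a a' (x l) := by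
      rw [← Equiv.prod_comp e]
      refine Finset.prod_congr rfl fun l _ => ?_
      simp [hx']
    rw [h2, h3] at h1
    exact h1

end Pool.Agent.Helper1.Sub
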