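import Pool.Agent.Helper1.SubComp3

set_option autoImplicit false

namespace Pool.Agent.Helper1.Sub

open Pool.Agent.Helper10.Sub Module

variable {ι : Type} [Fintype ι] [DecidableEq ι] {T : Type} [Fintype T] {p : T → ℕ}
  [∀ t, Fact (p t).Prime]

/-! ### Product formula -/

omit [Fintype T] [∀ t, Fact (p t).Prime] in
theorem norm_int_eq {q : ℕ} [Fact q.Prime] {z : ℤ} (hz : z ≠ 0) :
    ‖((z : ℚ) : ℚ_[q])‖ = ((q : ℝ) ^ padicValNat q z.natAbs)⁻¹ := by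
  have hz' : (z : ℚ) ≠ 0 := by exact_mod_cast hz
  rw [Padic.eq_padicNorm, padicNorm.eq_zpow_of_nonzero hz', padicValRat.of_int, padicValInt]
  simp

theorem one_le_prod_norm_int (hp : Function.Injective p) {z : ℤ} (hz : z ≠ 0) :
    1 ≤ ‖((z : ℚ) : ℝ)‖ * ∏ t, ‖((z : ℚ) : ℚ_[p t])‖ := by
  have h1 : ∏ t, ‖((z : ℚ) : ℚ_[p t])‖ = (((∏ t, (p t) ^ padicValNat (p t) z.natAbs : ℕ) : ℝ))⁻¹ := by
    push_cast
    rw [← Finset.prod_inv_distrib]
    exact Finset.prod_congr rfl fun t _ => norm_int_eq hz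
  have h2 : (∏ t, (p t) ^ padicValNat (p t) z.natAbs) ∣ z.natAbs := by
    refine Finset.prod_dvd_of_isRelPrime ?_ fun t _ => pow_padicValNat_dvd
    intro s _ t _ hst
    exact Nat.coprime_iff_isRelPrime.mp
      (Nat.Coprime.pow _ _ ((Nat.coprime_primes (Fact.out) (Fact.out)).mpr fun h => hst (hp h)))
  have h3 : (∏ t, (p t) ^ padicValNat (p t) z.natAbs) ≤ z.natAbs :=
    Nat.le_of_dvd (Int.natAbs_pos.mpr hz) h2
  have h4 : ‖((z : ℚ) : ℝ)‖ = (z.natAbs : ℝ) := by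
    rw [Nat.cast_natAbs]
    simp
  have h5 : (0 : ℝ) < ((∏ t, (p t) ^ padicValNat (p t) z.natAbs : ℕ) : ℝ) := by
    rw [Nat.cast_pos]
    exact Finset.prod_pos fun t _ => pow_pos (Fact.out : (p t).Prime).pos _
  rw [h1, h4, ← div_eq_mul_inv, le_div_iff₀ h5, one_mul]
  exact_mod_cast h3

theorem norm_pprod (hp : Function.Injective p) (t : T) :
    ‖((pprod p : ℚ) : ℚ_[p t])‖ = ((p t : ℝ))⁻¹ := by
  classical
  unfold pprod
  push_cast
  rw [norm_prod, Finset.prod_eq_single t]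
  · simp
  · intro s _ hst
    have h1 : ¬ (p t) ∣ (p s) := fun h => hst (hp ((Nat.prime_dvd_prime_iff_eq Fact.out Fact.out).mp h).symm)
    have h2 := (Padic.norm_natCast_eq_one_iff (p := p t) (n := p s)).mpr
      ((Nat.coprime_primes Fact.out Fact.out).mpr fun h => hst (hp h.symm))
    exact h2
  · intro h
    exact absurd (Finset.mem_univ t) h

theorem pprod_pos : 0 < pprod p := Finset.prod_pos fun t _ => (Fact.out : (p t).Prime).pos

/-- Product formula for `ℤ[1/P]`. -/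
theorem one_le_prod_norm (hp : Function.Injective p) {x : ℚ} (hx : x ≠ 0)
    (hP : PInt (pprod p) x) : 1 ≤ ‖(x : ℝ)‖ * ∏ t, ‖(x : ℚ_[p t])‖ := by
  obtain ⟨k, z, hz⟩ := hP
  have hP0 : ((pprod p : ℕ) : ℚ) ≠ 0 := by exact_mod_cast (pprod_pos (p := p)).ne'
  have hz0 : z ≠ 0 := by
    rintro rfl
    rw [Int.cast_zero, mul_eq_zero] at hz
    rcases hz with h | h
    · exact hx h
    · exact pow_ne_zero _ hP0 h
  have h1 := one_le_prod_norm_int hp hz0
  rw [← hz] at h1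
  have h2 : ‖((x * (pprod p : ℚ) ^ k : ℚ) : ℝ)‖ = ‖(x : ℝ)‖ * (pprod p : ℝ) ^ k := by
    push_cast
    rw [norm_mul, norm_pow, Real.norm_natCast]
  have h3 : ∏ t, ‖((x * (pprod p : ℚ) ^ k : ℚ) : ℚ_[p t])‖ =
      (∏ t, ‖(x : ℚ_[p t])‖) * ((pprod p : ℝ)⁻¹) ^ k := by
    have h4 : ∀ t, ‖((x * (pprod p : ℚ) ^ k : ℚ) : ℚ_[p t])‖ =
        ‖(x : ℚ_[p t])‖ * (((p t : ℝ))⁻¹) ^ k := by
      intro t
      rw [Rat.cast_mul, Rat.cast_pow, norm_mul, norm_pow, norm_pprod hp]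
    rw [Finset.prod_congr rfl fun t _ => h4 t, Finset.prod_mul_distrib, Finset.prod_pow,
      Finset.prod_inv_distrib]
    congr 3
    unfold pprod
    push_cast
    rfl
  rw [h2, h3] at h1
  have hP1 : ((pprod p : ℕ) : ℝ) ≠ 0 := by exact_mod_cast (pprod_pos (p := p)).ne'
  calc (1 : ℝ) ≤ _ := h1
    _ = (‖(x : ℝ)‖ * ∏ t, ‖(x : ℚ_[p t])‖) * (((pprod p : ℝ)) * (pprod p : ℝ)⁻¹) ^ k := by
      rw [mul_pow]; ring
    _ = _ := by rw [mul_inv_cancel₀ hP1, one_pow, mul_one]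

/-! ### Bounds by sizes -/

omit [Fintype T] in
theorem norm_L_le (S : Sys ι T p) (a : ι → ℝ) (ha : ∀ i, 0 < a i) (x : ι → ℚ) (i : ι) :
    ‖S.L x i‖ ≤ a i * S.Ninf a x := by
  have h1 := norm_le_pi_norm (fun j => S.L x j / a j) i
  rw [norm_div, Real.norm_of_nonneg (ha i).le, div_le_iff₀ (ha i)] at h1
  unfold Sys.Ninf
  linarith [h1, mul_comm (a i) ‖fun j => S.L x j / a j‖]

omit [Fintype T] in
theorem norm_L'_le (S : Sys ι T p) (t : T) (a : ι → ℝ) (ha : ∀ i, 0 < a i) (x : ι → ℚ) (i : ι) :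
    ‖S.L' t x i‖ ≤ a i * S.Np t a x := by
  have h1 := norm_le_pi_norm (fun j => ‖S.L' t x j‖ / a j) i
  rw [Real.norm_of_nonneg (div_nonneg (norm_nonneg _) (ha i).le), div_le_iff₀ (ha i)] at h1
  unfold Sys.Np
  linarith [h1, mul_comm (a i) ‖fun j => ‖S.L' t x j‖ / a j‖]

omit [Fintype T] in
/-- The matrix of the values of the real forms. -/
theorem L_matrix (S : Sys ι T p) {κ : Type} [Fintype κ] (x : κ → ι → ℚ) :
    (Matrix.of fun i j => S.L (x j) i) = S.A * (Matrix.of fun i j => ((x j i : ℚ) : ℝ)) := by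
  ext i j
  rfl

omit [Fintype T] in
theorem L'_matrix (S : Sys ι T p) (t : T) {κ : Type} [Fintype κ] (x : κ → ι → ℚ) :
    (Matrix.of fun i j => S.L' t (x j) i) =
      S.A' t * (Matrix.of fun i j => ((x j i : ℚ) : ℚ_[p t])) := by
  ext i j
  rfl

theorem cast_det {F : Type*} [Field F] [CharZero F] (x : ι → ι → ℚ) :
    (Matrix.of fun i j => ((x j i : ℚ) : F)).det = (((Matrix.of x).det : ℚ) : F) := by
  rw [← Matrix.det_transpose (Matrix.of x)]
  have := RingHom.map_det (Rat.castHom F) (Matrix.of x).transpose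
  rw [eq_ratCast] at this
  rw [this]
  congr 1

theorem det_ne_zero_of_li {x : ι → ι → ℚ} (hx : LinearIndependent ℚ x) :
    (Matrix.of x).det ≠ 0 := by
  have h : IsUnit (Matrix.of x) := by
    rw [← Matrix.linearIndependent_rows_iff_isUnit]
    exact hx
  exact ((Matrix.isUnit_iff_isUnit_det _).mp h).ne_zero

/-- MINKL -/
theorem minkLower (S : Sys ι T p) (hp : Function.Injective p) : ∃ c : ℝ, 0 < c ∧
    ∀ (a : ι → ℝ) (a' : T → ι → ℝ), (∀ i, 0 < a i) → (∀ t i, 0 < a' t i) →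
    ∀ x : ι → ι → ℚ, LinearIndependent ℚ x → (∀ j, PVec (pprod p) (x j)) →
      c ≤ (∏ j, S.N a a' (x j)) * wprod a a' := by
  set F : ℝ := ((Fintype.card ι).factorial : ℝ) with hF
  have hF0 : 0 < F := Nat.cast_pos.mpr (Nat.factorial_pos _)
  set D : ℝ := ‖S.A.det‖ * ∏ t, ‖(S.A' t).det‖ with hD
  have hD0 : 0 < D := mul_pos (norm_pos_iff.mpr S.detA)
    (Finset.prod_pos fun t _ => norm_pos_iff.mpr (S.detA' t))
  refine ⟨D / (F * ∏ _t : T, F), div_pos hD0 (mul_pos hF0 (Finset.prod_pos fun _ _ => hF0)), ?_⟩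
  intro a a' ha ha' x hx hxP
  have hdet := det_ne_zero_of_li hx
  have hPi : PInt (pprod p) (Matrix.of x).det := det_PInt fun i j => hxP i j
  have hprod := one_le_prod_norm hp hdet hPi
  have h1 : ‖S.A.det‖ * ‖(((Matrix.of x).det : ℚ) : ℝ)‖ ≤
      F * ((∏ i, a i) * ∏ j, S.Ninf a (x j)) := by
    have h := norm_det_le (Matrix.of fun i j => S.L (x j) i) a (fun j => S.Ninf a (x j))
      (fun i j => norm_L_le S a ha (x j) i)
    rw [L_matrix, Matrix.det_mul, cast_det, norm_mul] at h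
    exact h
  have h2 : ∀ t, ‖(S.A' t).det‖ * ‖(((Matrix.of x).det : ℚ) : ℚ_[p t])‖ ≤
      F * ((∏ i, a' t i) * ∏ j, S.Np t (a' t) (x j)) := by
    intro t
    have h := norm_det_le (Matrix.of fun i j => S.L' t (x j) i) (a' t)
      (fun j => S.Np t (a' t) (x j))
      (fun i j => norm_L'_le S t (a' t) (ha' t) (x j) i)
    rw [L'_matrix, Matrix.det_mul, cast_det, norm_mul] at h
    exact h
  have h3 : (‖S.A.det‖ * ‖(((Matrix.of x).det : ℚ) : ℝ)‖) *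
      ∏ t, (‖(S.A' t).det‖ * ‖(((Matrix.of x).det : ℚ) : ℚ_[p t])‖) ≤
      (F * ((∏ i, a i) * ∏ j, S.Ninf a (x j))) *
        ∏ t, (F * ((∏ i, a' t i) * ∏ j, S.Np t (a' t) (x j))) := by
    refine mul_le_mul h1 (Finset.prod_le_prod (fun t _ => mul_nonneg (norm_nonneg _)
      (norm_nonneg _)) fun t _ => h2 t) (Finset.prod_nonneg fun t _ => mul_nonneg (norm_nonneg _)
      (norm_nonneg _)) ?_
    exact le_trans (mul_nonneg (norm_nonneg _) (norm_nonneg _)) h1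
  rw [div_le_iff₀ (mul_pos hF0 (Finset.prod_pos fun _ _ => hF0))]
  have h4 : (‖S.A.det‖ * ‖(((Matrix.of x).det : ℚ) : ℝ)‖) *
      ∏ t, (‖(S.A' t).det‖ * ‖(((Matrix.of x).det : ℚ) : ℚ_[p t])‖) =
      D * (‖(((Matrix.of x).det : ℚ) : ℝ)‖ *
        ∏ t, ‖(((Matrix.of x).det : ℚ) : ℚ_[p t])‖) := by
    rw [Finset.prod_mul_distrib, hD]
    ring
  have h5 : (F * ((∏ i, a i) * ∏ j, S.Ninf a (x j))) *
        ∏ t, (F * ((∏ i, a' t i) * ∏ j, S.Np t (a' t) (x j))) =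
      (∏ j, S.N a a' (x j)) * wprod a a' * (F * ∏ _t : T, F) := by
    have h6 : ∏ j, S.N a a' (x j) = (∏ j, S.Ninf a (x j)) * ∏ t, ∏ j, S.Np t (a' t) (x j) := by
      unfold Sys.N
      rw [Finset.prod_mul_distrib, Finset.prod_comm]
    rw [h6, Finset.prod_mul_distrib, Finset.prod_mul_distrib]
    unfold wprod
    ring
  rw [h4, h5] at h3
  calc D = D * 1 := (mul_one _).symm
    _ ≤ D * (‖(((Matrix.of x).det : ℚ) : ℝ)‖ *
        ∏ t, ‖(((Matrix.of x).det : ℚ) : ℚ_[p t])‖) :=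
      mul_le_mul_of_nonneg_left hprod hD0.le
    _ ≤ _ := h3

end Pool.Agent.Helper1.Sub
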